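import Pool.Agent.R751.MB.Bs
import Pool.Agent.R754.KG.G
import Pool.Agent.Y506.PV.Fin

/-!
# Project MB: from the concentration of a class of bodies to the functional inequality for images
-/

set_option autoImplicit false

namespace Pool.Agent.R751.MB

open MeasureTheory Set Filter Topology
open scoped ENNReal InnerProductSpace Pointwise
open Pool.Agent.Y506.RG (Star)

/-- concentration for all members of a class of bodies -/
def CCl (P : ∀ n : ℕ, Set (Eu (Fin n)) → Prop) : Prop :=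
  ∀ δ : ℝ, 0 < δ → ∃ κ : ℝ, 0 < κ ∧ ∀ (n : ℕ) (K : Set (Eu (Fin n))), 1 ≤ n → P n K →
    Body K ∧ CcW κ δ (ind K)

theorem star_lin {P : ∀ n : ℕ, Set (Eu (Fin n)) → Prop} (hP : CCl P) (r : ℕ) :
    ∃ c : ℝ, 0 < c ∧ ∀ (n m : ℕ) (K : Set (Eu (Fin m))) (A : Eu (Fin m) →ₗ[ℝ] Eu (Fin n)),
    1 ≤ n → m ≤ n + r → P m K → Function.Surjective A → IsCompact (A '' K) ∧
    Convex ℝ (A '' K) ∧ (interior (A '' K)).Nonempty ∧
    Star c (Pool.Agent.Y506.PV.ind (A '' K)) := by
  obtain ⟨c, hc, H⟩ := Pool.Agent.Y506.RG.max_const (fun d c => ∀ (n : ℕ)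
      (K : Set (Eu (Fin (n + d)))) (A : Eu (Fin (n + d)) →ₗ[ℝ] Eu (Fin n)), 1 ≤ n → P (n + d) K →
      Function.Surjective A → Star c (Pool.Agent.Y506.PV.ind (A '' K)))
    (fun d => by
      obtain ⟨δ0, c0, hδ0, hc0, H0⟩ := Pool.Agent.Y506.PV.cc_img Pool.Agent.Y941.PV.prj
        Pool.Agent.Y506.PV.denR Pool.Agent.Y388.PV.cmp Pool.Agent.Y388.PV.fac d (1 / 25)
        (by norm_num)
      obtain ⟨κ, hκ, H1⟩ := hP δ0 hδ0
      obtain ⟨c, hc, H2⟩ := Pool.Agent.Y506.PV.stb Pool.Agent.Y211.PV.iso (c0 * κ) (by positivity)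
      refine ⟨c, hc, fun n K A hn hK hA => ?_⟩
      obtain ⟨⟨hcp, hcv, hint⟩, hcc⟩ := H1 (n + d) K (by omega) hK
      have hAc : Continuous A := A.continuous_of_finiteDimensional
      exact H2 n (A '' K) (hcp.image hAc) (hcv.linear_image A)
        (Pool.Agent.Y506.PV.int_image hint A hA) (H0 n κ K A hκ hcp hcv hint hA hcc))
    (fun d c c' hcc h n K A hn hK hA => Pool.Agent.Y506.RG.Star.mono hcc
      (fun x => indicator_nonneg (fun _ _ => zero_le_one) x) (h n K A hn hK hA)) r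
  obtain ⟨κ1, hκ1, HB⟩ := hP 1 one_pos
  refine ⟨c, hc, fun n m K A hn hm hK hA => ?_⟩
  have hnm : n ≤ m := by
    have := LinearMap.finrank_le_finrank_of_surjective (f := A) hA
    simpa using this
  obtain ⟨d, rfl⟩ : ∃ d, m = n + d := ⟨m - n, by omega⟩
  obtain ⟨⟨hcp, hcv, hint⟩, -⟩ := HB (n + d) K (by omega) hK
  have hAc : Continuous A := A.continuous_of_finiteDimensional
  exact ⟨hcp.image hAc, hcv.linear_image A, Pool.Agent.Y506.PV.int_image hint A hA,
    H d (by omega) n K A hn hK hA⟩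

/-- **the functional inequality for affine images** -/
theorem star_gen {P : ∀ n : ℕ, Set (Eu (Fin n)) → Prop} (hP : CCl P) (r : ℕ) :
    ∃ c : ℝ, 0 < c ∧ ∀ (m n : ℕ) (K : Set (Eu (Fin m))) (T : Eu (Fin m) →ᵃ[ℝ] Eu (Fin n)),
    1 ≤ n → m ≤ n + r → P m K → Function.Surjective T → IsCompact (T '' K) ∧
    Convex ℝ (T '' K) ∧ (interior (T '' K)).Nonempty ∧
    Star c (Pool.Agent.Y506.PV.ind (T '' K)) := by
  obtain ⟨c, hc, H⟩ := star_lin hP r
  refine ⟨c, hc, fun m n K T hn hm hK hT => ?_⟩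
  have hTL : ∀ x, T x = T.linear x + T 0 := fun x => by
    have h := T.map_vadd 0 x
    simpa [vadd_eq_add] using h
  have hA : Function.Surjective T.linear := by
    intro y
    obtain ⟨x, hx⟩ := hT (y + T 0)
    refine ⟨x, ?_⟩
    have h := hTL x
    rw [hx] at h
    exact (add_right_cancel h).symm
  obtain ⟨h1, h2, h3, h4⟩ := H n m K T.linear hn hm hK hA
  have he : T '' K = (fun y => y + T 0) '' (T.linear '' K) := by
    rw [image_image]
    exact image_congr fun x _ => hTL x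
  have hcp : IsCompact (T '' K) := by
    rw [he]
    exact h1.image (by fun_prop)
  refine ⟨hcp, ?_, ?_, ?_⟩
  · rw [he]
    have h := h2.translate (T 0)
    have e : (fun y => y + T 0) = fun y => T 0 + y := funext fun y => add_comm _ _
    rw [e]
    exact h
  · rw [he]
    have hop : IsOpen ((fun y => y + T 0) '' interior (T.linear '' K)) :=
      (Homeomorph.addRight (T 0)).isOpenMap _ isOpen_interior
    exact (h3.image _).mono (interior_maximal (image_mono interior_subset) hop)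
  · rw [he]
    exact Pool.Agent.Y506.PV.star_trans _ _ (Pool.Agent.Y506.PV.adm_ind _ h1.measurableSet
      h1.isBounded (Pool.Agent.Y506.PV.vol_pos h3)) h4

end Pool.Agent.R751.MB
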