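import Pool.Agent.R751.MB.Stm

set_option autoImplicit false

namespace Pool.Agent.R751.MB

open MeasureTheory Set Filter Topology
open scoped ENNReal InnerProductSpace Pointwise

namespace Gen

variable {κ : Type} [Fintype κ]

/-- integrability is invariant under an invertible linear map -/
theorem integrable_comp (S : Eu κ ≃L[ℝ] Eu κ) (G : Eu κ → ℝ) :
    Integrable (fun x => G (S x)) ↔ Integrable G := by
  have hdet : LinearMap.det (S : Eu κ →ₗ[ℝ] Eu κ) ≠ 0 := by
    have := LinearEquiv.isUnit_det' S.toLinearEquiv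
    exact this.ne_zero
  have hmap : Measure.map (S : Eu κ → Eu κ) volume =
      ENNReal.ofReal |(LinearMap.det (S : Eu κ →ₗ[ℝ] Eu κ))⁻¹| • volume :=
    Measure.map_linearMap_addHaar_eq_smul_addHaar volume hdet
  have h1 : Integrable (fun x => G (S x)) ↔ Integrable G (Measure.map (S : Eu κ → Eu κ) volume) :=
    (MeasurableEmbedding.integrable_map_iff S.toHomeomorph.measurableEmbedding).symm
  rw [h1, hmap]
  apply integrable_smul_measure
  · simpa using hdet
  · exact ENNReal.ofReal_ne_top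

/-- change of variables -/
theorem integral_comp (S : Eu κ ≃L[ℝ] Eu κ) (G : Eu κ → ℝ) :
    ∫ x, G (S x) = |(LinearMap.det (S : Eu κ →ₗ[ℝ] Eu κ))⁻¹| * ∫ y, G y := by
  have hdet : LinearMap.det (S : Eu κ →ₗ[ℝ] Eu κ) ≠ 0 := by
    have := LinearEquiv.isUnit_det' S.toLinearEquiv
    exact this.ne_zero
  have hmap : Measure.map (S : Eu κ → Eu κ) volume =
      ENNReal.ofReal |(LinearMap.det (S : Eu κ →ₗ[ℝ] Eu κ))⁻¹| • volume :=
    Measure.map_linearMap_addHaar_eq_smul_addHaar volume hdet
  have h1 : ∫ x, G (S x) = ∫ y, G y ∂(Measure.map (S : Eu κ → Eu κ) volume) :=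
    (MeasurableEmbedding.integral_map S.toHomeomorph.measurableEmbedding G).symm
  rw [h1, hmap, integral_smul_measure, ENNReal.toReal_ofReal (abs_nonneg _), smul_eq_mul]

end Gen

open Gen in
theorem gen : S_GEN := by
  intro κ _ w hw S hS
  set D : ℝ := |(LinearMap.det (S : Eu κ →ₗ[ℝ] Eu κ))⁻¹| with hD
  have hdet : LinearMap.det (S : Eu κ →ₗ[ℝ] Eu κ) ≠ 0 := by
    have := LinearEquiv.isUnit_det' S.toLinearEquiv
    exact this.ne_zero
  have hD0 : 0 < D := by
    rw [hD]; exact abs_pos.mpr (inv_ne_zero hdet)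
  set I : ℝ := ∫ x, w x with hI
  have hI0 : 0 < I := hw.pos
  refine ⟨D / I, div_pos hD0 hI0, ?_⟩
  intro μ hμ
  have hc0 : 0 < D / I := div_pos hD0 hI0
  have hρ0 : ∀ y, 0 ≤ D / I * w (S.symm y) := fun y => mul_nonneg hc0.le (hw.nonneg _)
  have hρm : Measurable (fun y => ENNReal.ofReal (D / I * w (S.symm y))) :=
    (measurable_const.mul (hw.meas.comp S.symm.continuous.measurable)).ennreal_ofReal
  have hlt : ∀ᵐ y ∂(volume : Measure (Eu κ)), ENNReal.ofReal (D / I * w (S.symm y)) < ∞ :=
    Eventually.of_forall fun y => ENNReal.ofReal_lt_top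
  -- integrability
  have hInt : ∀ F : Eu κ → ℝ, Integrable F μ ↔ Integrable (fun x => F (S x) * w x) := by
    intro F
    rw [hμ, integrable_withDensity_iff_integrable_smul' hρm hlt]
    have h1 : (fun y => (ENNReal.ofReal (D / I * w (S.symm y))).toReal • F y) =
        fun y => D / I * (F y * w (S.symm y)) := by
      funext y
      rw [ENNReal.toReal_ofReal (hρ0 y), smul_eq_mul]; ring
    rw [h1]
    rw [← integrable_comp S (fun y => D / I * (F y * w (S.symm y)))]
    simp only [ContinuousLinearEquiv.symm_apply_apply]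
    rw [integrable_const_mul_iff (IsUnit.mk0 _ hc0.ne')]
  -- integrals
  have hEW : ∀ F : Eu κ → ℝ, ∫ y, F y ∂μ = EW w (fun x => F (S x)) := by
    intro F
    rw [hμ, integral_withDensity_eq_integral_toReal_smul hρm hlt]
    have h1 : (fun y => (ENNReal.ofReal (D / I * w (S.symm y))).toReal • F y) =
        fun y => D / I * (F y * w (S.symm y)) := by
      funext y
      rw [ENNReal.toReal_ofReal (hρ0 y), smul_eq_mul]; ring
    rw [h1, integral_const_mul]
    have h2 := integral_comp S (fun y => F y * w (S.symm y))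
    simp only [ContinuousLinearEquiv.symm_apply_apply] at h2
    unfold EW
    rw [h2, ← hD, ← hI]
    ring
  have hwi : Integrable w := by
    refine hw.int.mono' hw.meas.aestronglyMeasurable (Eventually.of_forall fun x => ?_)
    rw [Real.norm_of_nonneg (hw.nonneg x)]
    nlinarith [hw.nonneg x, sq_nonneg ‖x‖, mul_nonneg (sq_nonneg ‖x‖) (hw.nonneg x)]
  have hprob : IsProbabilityMeasure μ := by
    have hone : Integrable (fun _ : Eu κ => (1 : ℝ)) μ := by
      rw [hInt]; simpa using hwi
    have hfin : IsFiniteMeasure μ := by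
      have := (integrable_const_iff (μ := μ) (c := (1 : ℝ))).1 hone
      rcases this with h | h
      · norm_num at h
      · exact h
    have h1 := hEW (fun _ => 1)
    have h2 : EW w (fun _ => (1 : ℝ)) = 1 := by
      unfold EW
      simp only [one_mul]
      exact div_self hI0.ne'
    rw [h2] at h1
    simp only [integral_const, smul_eq_mul, mul_one] at h1
    constructor
    have h3 : (μ univ).toReal = 1 := h1
    rw [← ENNReal.toReal_one] at h3
    exact (ENNReal.toReal_eq_toReal_iff' (measure_ne_top μ univ) ENNReal.one_ne_top).1 h3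
  have hvar : ∀ F : Eu κ → ℝ, MemLp F 2 μ →
      ProbabilityTheory.variance F μ = VW w (fun x => F (S x)) := by
    intro F hF
    rw [ProbabilityTheory.variance_eq_sub hF]
    unfold VW
    rw [← hEW, ← hEW (fun y => F y ^ 2)]
    rfl
  refine ⟨hprob, ?_, ?_⟩
  · intro θ
    have hcont : Continuous (fun x : Eu κ => ⟪θ, x⟫_ℝ) := continuous_const.inner continuous_id
    have hmem : MemLp (fun x : Eu κ => ⟪θ, x⟫_ℝ) 2 μ := by
      rw [memLp_two_iff_integrable_sq hcont.aestronglyMeasurable, hInt]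
      have hb : Integrable (fun x => (‖θ‖ * ‖(S : Eu κ →L[ℝ] Eu κ)‖) ^ 2 *
          ((1 + ‖x‖ ^ 2) * w x)) := hw.int.const_mul _
      refine hb.mono' ?_ (Eventually.of_forall fun x => ?_)
      · exact (((hcont.comp S.continuous).pow 2).measurable.mul hw.meas).aestronglyMeasurable
      · have h1 : |⟪θ, S x⟫_ℝ| ≤ ‖θ‖ * ‖(S : Eu κ →L[ℝ] Eu κ)‖ * ‖x‖ := by
          refine (abs_real_inner_le_norm _ _).trans ?_
          rw [mul_assoc]
          exact mul_le_mul_of_nonneg_left ((S : Eu κ →L[ℝ] Eu κ).le_opNorm x) (norm_nonneg _)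
        have h2 : ⟪θ, S x⟫_ℝ ^ 2 ≤ (‖θ‖ * ‖(S : Eu κ →L[ℝ] Eu κ)‖) ^ 2 * ‖x‖ ^ 2 := by
          rw [← mul_pow, ← sq_abs]
          exact pow_le_pow_left₀ (abs_nonneg _) h1 2
        rw [Real.norm_of_nonneg (mul_nonneg (sq_nonneg _) (hw.nonneg x)), ← mul_assoc]
        refine mul_le_mul_of_nonneg_right ?_ (hw.nonneg x)
        nlinarith [sq_nonneg (‖θ‖ * ‖(S : Eu κ →L[ℝ] Eu κ)‖)]
    rw [← hmem.ofReal_variance_eq, hvar _ hmem]
    apply ENNReal.ofReal_le_ofReal
    rw [one_mul]
    have h3 := hS θ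
    have h4 : (fun x => ⟪θ, S x⟫_ℝ) = fun x => ⟪S x, θ⟫_ℝ := by
      funext x; exact real_inner_comm _ _
    rw [h4, h3]
  · rintro f hf ⟨B, hB⟩ ⟨L, hL⟩
    have hmem : MemLp f 2 μ := MemLp.of_bound hf.continuous.aestronglyMeasurable B
      (Eventually.of_forall fun x => by simpa using hB x)
    refine ⟨hmem, hvar f hmem, ?_⟩
    have hcd : Continuous (fun x => ‖fderiv ℝ f x‖ ^ 2) :=
      ((hf.continuous_fderiv one_ne_zero).norm).pow 2
    have hint : Integrable (fun x => ‖fderiv ℝ f x‖ ^ 2) μ := by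
      refine (integrable_const (L ^ 2)).mono' hcd.aestronglyMeasurable
        (Eventually.of_forall fun x => ?_)
      rw [Real.norm_of_nonneg (sq_nonneg _)]
      exact pow_le_pow_left₀ (norm_nonneg _) (hL x) 2
    rw [← hEW (fun y => ‖fderiv ℝ f y‖ ^ 2),
      ofReal_integral_eq_lintegral_ofReal hint (Eventually.of_forall fun x => sq_nonneg _)]

end Pool.Agent.R751.MB
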