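import Pool.Agent.R751.MB.Stm2

/-!
# MB-GMM: moments of the Gamma distributions
-/

set_option autoImplicit false

open MeasureTheory Set

namespace Pool.Agent.R751.MB

namespace GmmAux

theorem gInt {q : ℝ} (hq : -1 < q) :
    IntegrableOn (fun r : ℝ => r ^ q * Real.exp (-r)) (Ioi 0) ∧
      ∫ r in Ioi (0 : ℝ), r ^ q * Real.exp (-r) = Real.Gamma (q + 1) := by
  have e : ∀ r : ℝ, Real.exp (-r) * r ^ (q + 1 - 1) = r ^ q * Real.exp (-r) := by
    intro r
    rw [add_sub_cancel_right, mul_comm]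
  have h1 := Real.GammaIntegral_convergent (show 0 < q + 1 by linarith)
  have h2 := Real.Gamma_eq_integral (show 0 < q + 1 by linarith)
  simp only [e] at h1 h2
  exact ⟨h1, h2.symm⟩

theorem pt {t a : ℝ} (ht : 0 < t) (ha : 0 < a) (ha1 : a ≤ 1) :
    (t ^ a - 1) ^ 2 ≤ a ^ 2 * ((t - 1) ^ 2 * (1 + 16 * t ^ (-(1 / 2) : ℝ))) := by
  have hu2 : 0 ≤ t ^ (-(1 / 2) : ℝ) := Real.rpow_nonneg ht.le _
  rcases le_total 1 t with h | h
  · have h1 : 1 ≤ t ^ a := Real.one_le_rpow h ha.le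
    have h2 : t ^ a ≤ 1 + a * (t - 1) := by
      have := rpow_one_add_le_one_add_mul_self (s := t - 1) (by linarith) ha.le ha1
      rwa [add_sub_cancel] at this
    have h3 : (t ^ a - 1) ^ 2 ≤ (a * (t - 1)) ^ 2 :=
      pow_le_pow_left₀ (by linarith) (by linarith) 2
    have h4 : (a * (t - 1)) ^ 2 = a ^ 2 * ((t - 1) ^ 2 * 1) := by ring
    rw [h4] at h3
    refine h3.trans ?_
    apply mul_le_mul_of_nonneg_left _ (sq_nonneg a)
    apply mul_le_mul_of_nonneg_left _ (sq_nonneg _)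
    linarith
  · have h1 : t ^ a ≤ 1 := Real.rpow_le_one ht.le h ha.le
    have h2 : 1 - t ^ a ≤ -(a * Real.log t) := by
      rw [Real.rpow_def_of_pos ht, mul_comm (Real.log t)]
      have := Real.add_one_le_exp (a * Real.log t)
      linarith
    set u : ℝ := t ^ (-(1 / 4) : ℝ) with hu
    have hu0 : 0 < u := Real.rpow_pos_of_pos ht _
    have h3 : -(Real.log t) ≤ 4 * (u * (1 - t)) := by
      have h4 := Real.log_le_sub_one_of_pos hu0
      have h5 : Real.log u = -(1 / 4) * Real.log t := by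
        rw [hu, Real.log_rpow ht]
      have h6 : u * t ≤ 1 := by
        have : u * t = t ^ (3 / 4 : ℝ) := by
          rw [hu]
          nth_rewrite 2 [← Real.rpow_one t]
          rw [← Real.rpow_add ht]
          norm_num
        rw [this]
        exact Real.rpow_le_one ht.le h (by norm_num)
      rw [h5] at h4
      linarith
    have h7 : u ^ 2 = t ^ (-(1 / 2) : ℝ) := by
      rw [hu, ← Real.rpow_natCast, ← Real.rpow_mul ht.le]
      norm_num
    have h8 : (1 - t ^ a) ^ 2 ≤ (a * (4 * (u * (1 - t)))) ^ 2 := by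
      apply pow_le_pow_left₀ (by linarith)
      have := mul_le_mul_of_nonneg_left h3 ha.le
      linarith
    have h9 : (a * (4 * (u * (1 - t)))) ^ 2 = a ^ 2 * ((t - 1) ^ 2 * (16 * u ^ 2)) := by ring
    rw [h9, h7] at h8
    have h10 : (t ^ a - 1) ^ 2 = (1 - t ^ a) ^ 2 := by ring
    rw [h10]
    refine h8.trans ?_
    apply mul_le_mul_of_nonneg_left _ (sq_nonneg a)
    apply mul_le_mul_of_nonneg_left _ (sq_nonneg _)
    linarith

theorem half {m : ℝ} (hm : 0 < m) :
    Real.Gamma (m + 1 / 2) * (m + 3 / 4) ≤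
      3 / 2 * (Real.sqrt (m + 1) * Real.Gamma (m + 1)) := by
  have hG1 : 0 < Real.Gamma (m + 1) := Real.Gamma_pos_of_pos (by linarith)
  have h1 := Real.Gamma_mul_add_mul_le_rpow_Gamma_mul_rpow_Gamma (s := m + 1) (t := m + 2)
    (a := 1 / 2) (b := 1 / 2) (by linarith) (by linarith) (by norm_num) (by norm_num) (by norm_num)
  have e1 : 1 / 2 * (m + 1) + 1 / 2 * (m + 2) = (m + 1 / 2) + 1 := by ring
  have e2 : Real.Gamma (m + 2) = (m + 1) * Real.Gamma (m + 1) := by
    have := Real.Gamma_add_one (s := m + 1) (by linarith)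
    rw [← this]; congr 1; ring
  rw [e1, Real.Gamma_add_one (by linarith), e2, ← Real.mul_rpow hG1.le (by positivity),
    ← Real.sqrt_eq_rpow] at h1
  have e3 : Real.Gamma (m + 1) * ((m + 1) * Real.Gamma (m + 1)) =
      (m + 1) * (Real.Gamma (m + 1)) ^ 2 := by ring
  rw [e3, Real.sqrt_mul (by linarith), Real.sqrt_sq hG1.le] at h1
  have hG2 : 0 < Real.Gamma (m + 1 / 2) := Real.Gamma_pos_of_pos (by linarith)
  nlinarith

end GmmAux

open GmmAux in
theorem gmm : S_GMM := by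
  refine ⟨25, by norm_num, ?_⟩
  intro m hm
  set R : ℝ := m + 1 with hR
  have hR0 : 0 < R := by linarith
  have hG1 : 0 < Real.Gamma (m + 1) := Real.Gamma_pos_of_pos (by linarith)
  obtain ⟨i0, v0⟩ := gInt (q := m) (by linarith)
  obtain ⟨i1, v1⟩ := gInt (q := m + 1) (by linarith)
  obtain ⟨i2, v2⟩ := gInt (q := m + 2) (by linarith)
  obtain ⟨j0, w0⟩ := gInt (q := m - 1 / 2) (by linarith)
  obtain ⟨j1, w1⟩ := gInt (q := m + 1 / 2) (by linarith)
  obtain ⟨j2, w2⟩ := gInt (q := m + 3 / 2) (by linarith)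
  have g1 : Real.Gamma (m + 1 + 1) = (m + 1) * Real.Gamma (m + 1) :=
    Real.Gamma_add_one (by linarith)
  have g2 : Real.Gamma (m + 2 + 1) = (m + 2) * ((m + 1) * Real.Gamma (m + 1)) := by
    rw [Real.Gamma_add_one (by linarith), ← g1]; congr 2; ring
  have k0 : Real.Gamma (m - 1 / 2 + 1) = Real.Gamma (m + 1 / 2) := by congr 1; ring
  have k1 : Real.Gamma (m + 1 / 2 + 1) = (m + 1 / 2) * Real.Gamma (m + 1 / 2) :=
    Real.Gamma_add_one (by linarith)
  have k2 : Real.Gamma (m + 3 / 2 + 1) = (m + 3 / 2) * ((m + 1 / 2) * Real.Gamma (m + 1 / 2)) := by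
    rw [Real.Gamma_add_one (by linarith), ← k1]; congr 2; ring
  have p1 : ∀ r : ℝ, 0 < r → r ^ (m + 1) = r ^ m * r := fun r hr => by
    rw [Real.rpow_add hr, Real.rpow_one]
  have p2 : ∀ r : ℝ, 0 < r → r ^ (m + 2) = r ^ m * r ^ 2 := fun r hr => by
    rw [Real.rpow_add hr, Real.rpow_two]
  refine ⟨?_, ?_, ?_⟩
  · rw [← v0, ofReal_integral_eq_lintegral_ofReal i0]
    exact (ae_restrict_iff' measurableSet_Ioi).2 (Filter.Eventually.of_forall fun r hr => by
      have : (0 : ℝ) < r := hr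
      show 0 ≤ r ^ m * Real.exp (-r)
      positivity)
  · have hI : ∫⁻ r in Ioi (0 : ℝ), ENNReal.ofReal ((r / R) ^ 2) *
        ENNReal.ofReal (r ^ m * Real.exp (-r)) =
        ∫⁻ r in Ioi (0 : ℝ), ENNReal.ofReal ((R ^ 2)⁻¹ * (r ^ (m + 2) * Real.exp (-r))) := by
      refine setLIntegral_congr_fun measurableSet_Ioi fun r hr => ?_
      have hr0 : (0 : ℝ) < r := hr
      rw [← ENNReal.ofReal_mul (sq_nonneg _), p2 r hr0]
      congr 1
      field_simp
    rw [hI, ← ofReal_integral_eq_lintegral_ofReal (i2.const_mul _), integral_const_mul, v2, g2]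
    · apply ENNReal.ofReal_le_ofReal
      have e : (R ^ 2)⁻¹ * ((m + 2) * ((m + 1) * Real.Gamma (m + 1))) =
          (m + 2) / (m + 1) * Real.Gamma (m + 1) := by
        rw [hR]
        field_simp
      rw [e]
      apply mul_le_mul_of_nonneg_right _ hG1.le
      rw [div_le_iff₀ (by linarith)]
      linarith
    · exact (ae_restrict_iff' measurableSet_Ioi).2 (Filter.Eventually.of_forall fun r hr => by
        have : (0 : ℝ) < r := hr
        show 0 ≤ (R ^ 2)⁻¹ * (r ^ (m + 2) * Real.exp (-r))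
        positivity)
  · intro a ha ha1
    have q0 : ∀ r : ℝ, 0 < r → r ^ (m - 1 / 2) = r ^ m * r ^ (-(1 / 2) : ℝ) := fun r hr => by
      rw [← Real.rpow_add hr]; congr 1
    have q1 : ∀ r : ℝ, 0 < r → r ^ (m + 1 / 2) = r ^ m * r ^ (-(1 / 2) : ℝ) * r := fun r hr => by
      nth_rewrite 4 [← Real.rpow_one r]
      rw [← Real.rpow_add hr, ← Real.rpow_add hr]; congr 1; ring
    have q2 : ∀ r : ℝ, 0 < r → r ^ (m + 3 / 2) = r ^ m * r ^ (-(1 / 2) : ℝ) * r ^ 2 := fun r hr => by
      rw [← Real.rpow_two, ← Real.rpow_add hr, ← Real.rpow_add hr]; congr 1; ring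
    set g : ℝ → ℝ := fun r => a ^ 2 * (((R ^ 2)⁻¹ * (r ^ (m + 2) * Real.exp (-r)) -
      2 * R⁻¹ * (r ^ (m + 1) * Real.exp (-r)) + r ^ m * Real.exp (-r)) +
      16 * Real.sqrt R * ((R ^ 2)⁻¹ * (r ^ (m + 3 / 2) * Real.exp (-r)) -
      2 * R⁻¹ * (r ^ (m + 1 / 2) * Real.exp (-r)) + r ^ (m - 1 / 2) * Real.exp (-r))) with hg
    have hge : ∀ r : ℝ, 0 < r → g r = a ^ 2 * ((r / R - 1) ^ 2 * (1 + 16 * (r / R) ^ (-(1 / 2) : ℝ))) *
        (r ^ m * Real.exp (-r)) := by
      intro r hr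
      rw [hg]
      simp only
      rw [p1 r hr, p2 r hr, q0 r hr, q1 r hr, q2 r hr, Real.div_rpow hr.le hR0.le,
        Real.rpow_neg hR0.le, ← Real.sqrt_eq_rpow]
      have hsR : 0 < Real.sqrt R := Real.sqrt_pos.2 hR0
      field_simp
      ring
    have hg0 : ∀ r : ℝ, 0 < r → 0 ≤ g r := by
      intro r hr
      rw [hge r hr]
      positivity
    have hgi : IntegrableOn g (Ioi 0) :=
      ((((i2.const_mul _).sub (i1.const_mul _)).add i0).add
        (((((j2.const_mul _).sub (j1.const_mul _)).add j0)).const_mul _)).const_mul _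
    have hle : ∫⁻ r in Ioi (0 : ℝ), ENNReal.ofReal (((r / R) ^ a - 1) ^ 2) *
        ENNReal.ofReal (r ^ m * Real.exp (-r)) ≤ ∫⁻ r in Ioi (0 : ℝ), ENNReal.ofReal (g r) := by
      refine setLIntegral_mono' measurableSet_Ioi fun r hr => ?_
      have hr0 : (0 : ℝ) < r := hr
      rw [← ENNReal.ofReal_mul (sq_nonneg _), hge r hr0]
      apply ENNReal.ofReal_le_ofReal
      exact mul_le_mul_of_nonneg_right (pt (by positivity) ha ha1) (by positivity)
    refine hle.trans ?_
    rw [← ofReal_integral_eq_lintegral_ofReal hgi]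
    · apply ENNReal.ofReal_le_ofReal
      have hint : ∫ r in Ioi (0 : ℝ), g r = a ^ 2 * (((R ^ 2)⁻¹ * Real.Gamma (m + 2 + 1) -
          2 * R⁻¹ * Real.Gamma (m + 1 + 1) + Real.Gamma (m + 1)) +
          16 * Real.sqrt R * ((R ^ 2)⁻¹ * Real.Gamma (m + 3 / 2 + 1) -
          2 * R⁻¹ * Real.Gamma (m + 1 / 2 + 1) + Real.Gamma (m - 1 / 2 + 1))) := by
        have i2c : IntegrableOn (fun r : ℝ => (R ^ 2)⁻¹ * (r ^ (m + 2) * Real.exp (-r))) (Ioi 0) :=
          i2.const_mul _
        have i1c : IntegrableOn (fun r : ℝ => 2 * R⁻¹ * (r ^ (m + 1) * Real.exp (-r))) (Ioi 0) :=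
          i1.const_mul _
        have j2c : IntegrableOn (fun r : ℝ => (R ^ 2)⁻¹ * (r ^ (m + 3 / 2) * Real.exp (-r)))
          (Ioi 0) := j2.const_mul _
        have j1c : IntegrableOn (fun r : ℝ => 2 * R⁻¹ * (r ^ (m + 1 / 2) * Real.exp (-r)))
          (Ioi 0) := j1.const_mul _
        have i21 : IntegrableOn (fun r : ℝ => (R ^ 2)⁻¹ * (r ^ (m + 2) * Real.exp (-r)) -
          2 * R⁻¹ * (r ^ (m + 1) * Real.exp (-r))) (Ioi 0) := i2c.sub i1c
        have j21 : IntegrableOn (fun r : ℝ => (R ^ 2)⁻¹ * (r ^ (m + 3 / 2) * Real.exp (-r)) -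
          2 * R⁻¹ * (r ^ (m + 1 / 2) * Real.exp (-r))) (Ioi 0) := j2c.sub j1c
        have i210 : IntegrableOn (fun r : ℝ => (R ^ 2)⁻¹ * (r ^ (m + 2) * Real.exp (-r)) -
          2 * R⁻¹ * (r ^ (m + 1) * Real.exp (-r)) + r ^ m * Real.exp (-r)) (Ioi 0) := i21.add i0
        have j210 : IntegrableOn (fun r : ℝ => (R ^ 2)⁻¹ * (r ^ (m + 3 / 2) * Real.exp (-r)) -
          2 * R⁻¹ * (r ^ (m + 1 / 2) * Real.exp (-r)) + r ^ (m - 1 / 2) * Real.exp (-r)) (Ioi 0) :=
          j21.add j0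
        have j210c : IntegrableOn (fun r : ℝ => 16 * Real.sqrt R * ((R ^ 2)⁻¹ *
          (r ^ (m + 3 / 2) * Real.exp (-r)) -
          2 * R⁻¹ * (r ^ (m + 1 / 2) * Real.exp (-r)) + r ^ (m - 1 / 2) * Real.exp (-r))) (Ioi 0) :=
          j210.const_mul _
        rw [hg, integral_const_mul, integral_add i210 j210c, integral_add i21 i0,
          integral_sub i2c i1c, integral_const_mul, integral_const_mul,
          integral_const_mul, integral_add j21 j0,
          integral_sub j2c j1c, integral_const_mul, integral_const_mul,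
          v0, v1, v2, w0, w1, w2]
      rw [hint, g1, g2, k0, k1, k2]
      have hh := half hm
      have hsR : 0 < Real.sqrt R := Real.sqrt_pos.2 hR0
      have hsq : Real.sqrt R * Real.sqrt R = R := Real.mul_self_sqrt hR0.le
      have e1 : (R ^ 2)⁻¹ * ((m + 2) * ((m + 1) * Real.Gamma (m + 1))) -
          2 * R⁻¹ * ((m + 1) * Real.Gamma (m + 1)) + Real.Gamma (m + 1) =
          Real.Gamma (m + 1) / R := by
        rw [hR]
        field_simp
        ring
      have e2 : (R ^ 2)⁻¹ * ((m + 3 / 2) * ((m + 1 / 2) * Real.Gamma (m + 1 / 2))) -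
          2 * R⁻¹ * ((m + 1 / 2) * Real.Gamma (m + 1 / 2)) + Real.Gamma (m + 1 / 2) =
          Real.Gamma (m + 1 / 2) * (m + 3 / 4) / R ^ 2 := by
        rw [hR]
        field_simp
        ring
      rw [e1, e2]
      have e3 : 16 * Real.sqrt R * (Real.Gamma (m + 1 / 2) * (m + 3 / 4) / R ^ 2) ≤
          24 * Real.Gamma (m + 1) / R := by
        rw [mul_div_assoc', div_le_div_iff₀ (by positivity) hR0]
        have h5 : 16 * Real.sqrt R * (Real.Gamma (m + 1 / 2) * (m + 3 / 4)) ≤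
            16 * Real.sqrt R * (3 / 2 * (Real.sqrt R * Real.Gamma (m + 1))) :=
          mul_le_mul_of_nonneg_left hh (by positivity)
        have h6 : 16 * Real.sqrt R * (3 / 2 * (Real.sqrt R * Real.Gamma (m + 1))) =
            24 * Real.Gamma (m + 1) * R := by
          calc 16 * Real.sqrt R * (3 / 2 * (Real.sqrt R * Real.Gamma (m + 1))) =
                24 * Real.Gamma (m + 1) * (Real.sqrt R * Real.sqrt R) := by ring
            _ = 24 * Real.Gamma (m + 1) * R := by rw [hsq]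
        rw [h6] at h5
        calc 16 * Real.sqrt R * (Real.Gamma (m + 1 / 2) * (m + 3 / 4)) * R ≤
              24 * Real.Gamma (m + 1) * R * R := mul_le_mul_of_nonneg_right h5 hR0.le
          _ = 24 * Real.Gamma (m + 1) * R ^ 2 := by ring
      have e4 : 25 * a ^ 2 / R * Real.Gamma (m + 1) =
          a ^ 2 * (Real.Gamma (m + 1) / R + 24 * Real.Gamma (m + 1) / R) := by
        field_simp
        ring
      rw [e4]
      exact mul_le_mul_of_nonneg_left (add_le_add le_rfl e3) (sq_nonneg a)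
    · exact (ae_restrict_iff' measurableSet_Ioi).2 (Filter.Eventually.of_forall fun r hr => hg0 r hr)

end Pool.Agent.R751.MB
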