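import Pool.Agent.R751.MB.Stm
import Pool.Agent.Results.MP_6d896a_gt.SimultaneousConjugation

/-!
# MB-HER: conjugation invariant weights on Hermitian matrices
-/

set_option autoImplicit false

namespace Pool.Agent.R751.MB

open MeasureTheory Set
open scoped ENNReal InnerProductSpace Matrix

namespace HerX

/-- the isometry of `ℝ^ι` onto `ℝ^(Fin 1 × ι)` -/
noncomputable def ee (ι : Type) [Fintype ι] : Eu ι ≃ₗᵢ[ℝ] Eu (Fin 1 × ι) :=
  LinearIsometryEquiv.piLpCongrLeft 2 ℝ ℝ (Equiv.uniqueProd ι (Fin 1)).symm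

theorem ee_symm (ι : Type) [Fintype ι] (z : Eu (Fin 1 × ι)) (i : ι) :
    (ee ι).symm z i = z (0, i) := by
  rfl

theorem comp_eq (ι : Type) [Fintype ι] (j : Fin 1) (z : Eu (Fin 1 × ι)) :
    Results.MP_6d896a_gt.SimultaneousConjugation.comp j z = (ee ι).symm z := by
  ext i
  rw [ee_symm, Subsingleton.elim j 0]
  rfl

theorem adm_comp {κ₁ κ₂ : Type} [Fintype κ₁] [Fintype κ₂] (e : Eu κ₁ ≃ₗᵢ[ℝ] Eu κ₂)
    (w : Eu κ₁ → ℝ) (hw : Adm w) : Adm fun z => w (e.symm z) := by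
  refine ⟨fun z => hw.nonneg _, ?_, ?_, ?_⟩
  · have h1 : (fun z : Eu κ₂ => (1 + ‖z‖ ^ 2) * w (e.symm z)) =
        (fun x : Eu κ₁ => (1 + ‖x‖ ^ 2) * w x) ∘ e.symm := by
      funext z
      simp only [Function.comp_apply, LinearIsometryEquiv.norm_map]
    rw [h1]
    exact (e.symm.measurePreserving.integrable_comp_emb
      e.symm.toHomeomorph.measurableEmbedding).2 hw.int
  · have h1 : ∫ z, w (e.symm z) = ∫ x, w x :=
      e.symm.measurePreserving.integral_comp e.symm.toHomeomorph.measurableEmbedding w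
    rw [h1]
    exact hw.pos
  · exact hw.meas.comp e.symm.continuous.measurable

theorem lcn_comp {κ₁ κ₂ : Type} [Fintype κ₁] [Fintype κ₂] (e : Eu κ₁ ≃ₗ[ℝ] Eu κ₂) (c : ℝ)
    (hc : 0 ≤ c)
    (w : Eu κ₁ → ℝ) (h0 : ∀ x, 0 ≤ w x) (hw : LCn w) : LCn fun z => c * w (e.symm z) := by
  intro x y t ht ht1
  show (c * w (e.symm x)) ^ (1 - t) * (c * w (e.symm y)) ^ t ≤
    c * w (e.symm ((1 - t) • x + t • y))
  rw [Real.mul_rpow hc (h0 _), Real.mul_rpow hc (h0 _), map_add, map_smul, map_smul]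
  have h1 := hw (e.symm x) (e.symm y) t ht ht1
  have h2 : c ^ (1 - t) * c ^ t = c := by
    rw [← Real.rpow_add' hc (by norm_num), sub_add_cancel, Real.rpow_one]
  calc c ^ (1 - t) * w (e.symm x) ^ (1 - t) * (c ^ t * w (e.symm y) ^ t)
      = (c ^ (1 - t) * c ^ t) * (w (e.symm x) ^ (1 - t) * w (e.symm y) ^ t) := by ring
    _ = c * (w (e.symm x) ^ (1 - t) * w (e.symm y) ^ t) := by rw [h2]
    _ ≤ _ := mul_le_mul_of_nonneg_left h1 hc

/-- the conjugation as an isometry -/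
theorem exists_conj {𝕜 : Type} [RCLike 𝕜] {N : ℕ} {ι : Type} [Fintype ι]
    {Φ : Eu ι →ₗ[ℝ] Matrix (Fin N) (Fin N) 𝕜} (hΦ : H888R2.KC.Fr Φ)
    (U : Matrix (Fin N) (Fin N) 𝕜) (hU : U ∈ Matrix.unitaryGroup (Fin N) 𝕜) :
    ∃ g : Eu ι ≃ₗᵢ[ℝ] Eu ι, ∀ x, Φ (g x) = U * Φ x * Uᴴ := by
  have hUU : Uᴴ * U = 1 := by
    have := (Matrix.mem_unitaryGroup_iff').1 hU
    rwa [Matrix.star_eq_conjTranspose] at this
  have hUU' : U * Uᴴ = 1 := by
    have := (Matrix.mem_unitaryGroup_iff).1 hU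
    rwa [Matrix.star_eq_conjTranspose] at this
  let e0 : Eu ι ≃ₗ[ℝ] Eu ι :=
    { H888R2.KC.cj Φ U with
      invFun := H888R2.KC.cj Φ Uᴴ
      left_inv := fun x => by
        show H888R2.KC.cj Φ Uᴴ (H888R2.KC.cj Φ U x) = x
        rw [H888R2.KC.cj_cj hΦ, hUU, H888R2.KC.cj_one hΦ]
      right_inv := fun x => by
        show H888R2.KC.cj Φ U (H888R2.KC.cj Φ Uᴴ x) = x
        rw [H888R2.KC.cj_cj hΦ, hUU', H888R2.KC.cj_one hΦ] }
  let e : Eu ι ≃ₗᵢ[ℝ] Eu ι :=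
    { e0 with norm_map' := fun x => H888R2.KC.norm_cj hΦ U hU x }
  exact ⟨e, fun x => H888R2.KC.Phi_cj hΦ U x⟩

theorem phi_inj {𝕜 : Type} [RCLike 𝕜] {N : ℕ} {ι : Type} [Fintype ι]
    {Φ : Eu ι →ₗ[ℝ] Matrix (Fin N) (Fin N) 𝕜} (hΦ : Frame Φ) {x y : Eu ι} (h : Φ x = Φ y) :
    x = y := by
  have h1 : Φ (x - y) = 0 := by rw [map_sub, h, sub_self]
  have h2 := hΦ.iso (x - y)
  rw [h1] at h2
  have h3 : ‖x - y‖ ^ 2 = 0 := by
    rw [← h2]
    simp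
  have h4 : ‖x - y‖ = 0 := by
    rcases sq_eq_zero_iff.1 h3 with h
    exact h
  exact sub_eq_zero.1 (norm_eq_zero.1 h4)

theorem inv_comp {𝕜 : Type} [RCLike 𝕜] {N : ℕ} {ι : Type} [Fintype ι]
    {Φ : Eu ι →ₗ[ℝ] Matrix (Fin N) (Fin N) 𝕜} (hΦ : Frame Φ) (w : Eu ι → ℝ)
    (hinv : ∀ U ∈ Matrix.unitaryGroup (Fin N) 𝕜, ∀ x y : Eu ι,
      Φ y = U * Φ x * U.conjTranspose → w y = w x)
    (S : Eu (Fin 1 × ι) ≃L[ℝ] Eu (Fin 1 × ι))
    (hS : ∀ g : Eu (Fin 1 × ι) ≃ₗᵢ[ℝ] Eu (Fin 1 × ι),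
      (∀ x, w ((ee ι).symm (g x)) = w ((ee ι).symm x)) → ∀ x, S (g x) = g (S x))
    (U : Matrix (Fin N) (Fin N) 𝕜) (hU : U ∈ Matrix.unitaryGroup (Fin N) 𝕜)
    (x y : Eu (Fin 1 × ι)) (hxy : Φ ((ee ι).symm y) = U * Φ ((ee ι).symm x) * Uᴴ) :
    w ((ee ι).symm (S.symm y)) = w ((ee ι).symm (S.symm x)) := by
  obtain ⟨g, hg⟩ := exists_conj ⟨hΦ.herm, hΦ.surj, hΦ.iso⟩ U hU
  let G : Eu (Fin 1 × ι) ≃ₗᵢ[ℝ] Eu (Fin 1 × ι) := ((ee ι).symm.trans g).trans (ee ι)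
  have hG : ∀ z, (ee ι).symm (G z) = g ((ee ι).symm z) := fun z => by
    show (ee ι).symm ((ee ι) (g ((ee ι).symm z))) = _
    rw [LinearIsometryEquiv.symm_apply_apply]
  have h1 : y = G x := by
    apply (ee ι).symm.injective
    rw [hG]
    apply phi_inj hΦ
    rw [hg, hxy]
  have h2 : ∀ z, w ((ee ι).symm (G z)) = w ((ee ι).symm z) := fun z => by
    rw [hG]
    exact hinv U hU _ _ (hg _)
  have h3 : S.symm y = G (S.symm x) := by
    apply S.injective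
    rw [ContinuousLinearEquiv.apply_symm_apply, hS G h2, ContinuousLinearEquiv.apply_symm_apply,
      h1]
  rw [h3, h2]

end HerX

open HerX in
/-- MB-HER -/
theorem her (hW : S_WHT) (hG : S_GEN) (hL : S_LIN) : S_HER := by
  obtain ⟨C, hC, h⟩ := Results.MP_6d896a_gt.SimultaneousConjugation.result
  refine ⟨C, hC, ?_⟩
  intro 𝕜 _ N hN ι _ Φ hΦ w hw hlc hinv
  have hadm : Adm (fun z : Eu (Fin 1 × ι) => w ((ee ι).symm z)) := adm_comp (ee ι) w hw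
  have key : AP C (fun z : Eu (Fin 1 × ι) => w ((ee ι).symm z)) := by
    refine ⟨hadm, ?_⟩
    obtain ⟨S, hS, hcomm⟩ := hW _ _ hadm
    obtain ⟨c, hc, hμ⟩ := hG _ _ hadm S hS
    obtain ⟨h1, h2, h3⟩ := hμ _ rfl
    refine ⟨S, hS, ?_⟩
    intro f hf hfb hfL
    obtain ⟨m1, m2, m3⟩ := h3 f hf hfb hfL
    have hlc' : LCn fun y : Eu (Fin 1 × ι) => c * w ((ee ι).symm (S.symm y)) :=
      lcn_comp ((ee ι).toLinearEquiv.trans S.toLinearEquiv) c hc.le w hw.nonneg hlc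
    have hD : Results.MP_6d896a_gt.SimultaneousConjugation.InvDensity Φ
        (fun y : Eu (Fin 1 × ι) => c * w ((ee ι).symm (S.symm y))) := by
      refine ⟨?_, fun y => mul_nonneg hc.le (hw.nonneg _), hlc', ?_⟩
      · exact (hw.meas.comp ((ee ι).symm.continuous.comp S.symm.continuous).measurable).const_mul c
      · intro U hU x y hxy
        have h4 := hxy 0
        rw [comp_eq, comp_eq] at h4
        show c * w _ = c * w _
        rw [inv_comp hΦ w hinv S hcomm U hU x y h4]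
    have hp := h 𝕜 N 1 hN le_rfl ι Φ ⟨hΦ.herm, hΦ.surj, hΦ.iso⟩ _ hD _ rfl h1 1 one_pos h2 f hf m1
    rw [m2, m3, Nat.cast_one, one_pow, mul_one, mul_one, ← ENNReal.ofReal_mul hC.le] at hp
    refine (ENNReal.ofReal_le_ofReal_iff ?_).1 hp
    refine mul_nonneg hC.le (div_nonneg (integral_nonneg fun x => ?_) hadm.pos.le)
    exact mul_nonneg (sq_nonneg _) (hw.nonneg _)
  have h5 := hL _ _ C (ee ι).symm.toLinearEquiv _ key
  have h6 : (fun z : Eu ι => w ((ee ι).symm ((ee ι).symm.toLinearEquiv.symm z))) = w := by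
    funext z
    exact congrArg w ((ee ι).symm_apply_apply z)
  rw [h6] at h5
  exact h5

end Pool.Agent.R751.MB
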