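import Pool.Agent.R751.MB.Stm

/-!
# Project MB, piece MB-LIN (helper451): linear changes of variables
-/

set_option autoImplicit false

namespace Pool.Agent.R751.MB

open MeasureTheory Set Filter Topology
open scoped ENNReal InnerProductSpace Pointwise

namespace LinAux

variable {κ₁ κ₂ : Type} [Fintype κ₁] [Fintype κ₂]

/-- the measurable equivalence given by `e` -/
noncomputable def me (e : Eu κ₁ ≃ₗ[ℝ] Eu κ₂) : Eu κ₁ ≃ᵐ Eu κ₂ :=
  e.toContinuousLinearEquiv.toHomeomorph.toMeasurableEquiv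

lemma me_apply (e : Eu κ₁ ≃ₗ[ℝ] Eu κ₂) (x : Eu κ₁) : me e x = e x := rfl

/-- the image of Lebesgue measure is a multiple of Lebesgue measure -/
lemma exists_map (e : Eu κ₁ ≃ₗ[ℝ] Eu κ₂) : ∃ c : ℝ≥0∞, c ≠ 0 ∧ c ≠ ∞ ∧
    Measure.map (me e) (volume : Measure (Eu κ₁)) = c • (volume : Measure (Eu κ₂)) := by
  have h : (Measure.map e.toContinuousLinearEquiv (volume : Measure (Eu κ₁))).IsAddHaarMeasure :=
    e.toContinuousLinearEquiv.isAddHaarMeasure_map volume
  set μ' : Measure (Eu κ₂) := Measure.map e.toContinuousLinearEquiv volume with hμ'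
  have h1 := Measure.isAddLeftInvariant_eq_smul μ' (volume : Measure (Eu κ₂))
  have h2 := Measure.addHaarScalarFactor_pos_of_isAddHaarMeasure μ' (volume : Measure (Eu κ₂))
  exact ⟨(Measure.addHaarScalarFactor μ' (volume : Measure (Eu κ₂)) : ℝ≥0∞),
    by exact_mod_cast h2.ne', ENNReal.coe_ne_top, h1⟩

lemma exists_int (e : Eu κ₁ ≃ₗ[ℝ] Eu κ₂) : ∃ c : ℝ, 0 < c ∧
    (∀ G : Eu κ₂ → ℝ, ∫ x, G (e x) = c * ∫ z, G z) ∧
    (∀ G : Eu κ₂ → ℝ, Integrable (fun x => G (e x)) → Integrable G) := by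
  obtain ⟨c, h0, h1, hc⟩ := exists_map e
  refine ⟨c.toReal, ENNReal.toReal_pos h0 h1, fun G => ?_, fun G hG => ?_⟩
  · have h2 := integral_map_equiv (μ := (volume : Measure (Eu κ₁))) (me e) G
    rw [hc, integral_smul_measure] at h2
    simpa [me_apply] using h2.symm
  · have h2 := (integrable_map_equiv (μ := (volume : Measure (Eu κ₁))) (me e) G).2 hG
    rw [hc] at h2
    exact (integrable_smul_measure h0 h1).1 h2

lemma EW_comp (e : Eu κ₁ ≃ₗ[ℝ] Eu κ₂) (w : Eu κ₁ → ℝ) (v : Eu κ₂ → ℝ) :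
    EW (fun z => w (e.symm z)) v = EW w fun x => v (e x) := by
  obtain ⟨c, h0, h1, -⟩ := exists_int e
  have h2 := h1 fun z => v z * w (e.symm z)
  have h3 := h1 fun z => w (e.symm z)
  simp only [LinearEquiv.symm_apply_apply] at h2 h3
  unfold EW
  rw [h2, h3, mul_div_mul_left _ _ h0.ne']

lemma VW_comp (e : Eu κ₁ ≃ₗ[ℝ] Eu κ₂) (w : Eu κ₁ → ℝ) (v : Eu κ₂ → ℝ) :
    VW (fun z => w (e.symm z)) v = VW w fun x => v (e x) := by
  unfold VW
  rw [EW_comp, EW_comp]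

lemma adm_comp (e : Eu κ₁ ≃ₗ[ℝ] Eu κ₂) {w : Eu κ₁ → ℝ} (h : Adm w) :
    Adm fun z => w (e.symm z) := by
  obtain ⟨c, h0, h1, h2⟩ := exists_int e
  refine ⟨fun z => h.nonneg _, ?_, ?_, ?_⟩
  · apply h2
    simp only [LinearEquiv.symm_apply_apply]
    set M := ‖(e.toContinuousLinearEquiv : Eu κ₁ →L[ℝ] Eu κ₂)‖
    have hM : 0 ≤ M := norm_nonneg _
    have hb : ∀ x, ‖e x‖ ≤ M * ‖x‖ := fun x =>
      (e.toContinuousLinearEquiv : Eu κ₁ →L[ℝ] Eu κ₂).le_opNorm x
    have hcont : Continuous e := e.toContinuousLinearEquiv.continuous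
    refine Integrable.mono' (h.int.const_mul (1 + M ^ 2)) ?_ (Eventually.of_forall fun x => ?_)
    · exact ((by fun_prop : Continuous fun x => 1 + ‖e x‖ ^ 2).measurable.mul
        h.meas).aestronglyMeasurable
    · have h3 : ‖e x‖ ^ 2 ≤ M ^ 2 * ‖x‖ ^ 2 := by
        rw [← mul_pow]
        exact pow_le_pow_left₀ (norm_nonneg _) (hb x) 2
      rw [Real.norm_of_nonneg (mul_nonneg (by positivity) (h.nonneg x)), ← mul_assoc]
      apply mul_le_mul_of_nonneg_right _ (h.nonneg x)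
      nlinarith [sq_nonneg M, sq_nonneg ‖x‖]
  · have h3 := h1 fun z => w (e.symm z)
    simp only [LinearEquiv.symm_apply_apply] at h3
    have h4 := h.pos
    rw [h3] at h4
    exact (mul_pos_iff_of_pos_left h0).1 h4
  · exact h.meas.comp e.symm.toContinuousLinearEquiv.continuous.measurable

lemma exists_iso (e : Eu κ₁ ≃ₗ[ℝ] Eu κ₂) : Nonempty (Eu κ₁ ≃ₗᵢ[ℝ] Eu κ₂) := by
  have h := e.finrank_eq
  rw [finrank_euclideanSpace, finrank_euclideanSpace] at h
  exact ⟨LinearIsometryEquiv.piLpCongrLeft 2 ℝ ℝ (Fintype.equivOfCardEq h)⟩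

end LinAux

open LinAux in
/-- MB-LIN -/
theorem lin : S_LIN := by
  intro κ₁ κ₂ _ _ A e w h
  obtain ⟨j⟩ := exists_iso e
  obtain ⟨S, h1, h2⟩ := h.poi
  refine ⟨adm_comp e h.adm,
    (e.symm.toContinuousLinearEquiv.trans S).trans j.toContinuousLinearEquiv, ?_, ?_⟩
  · intro θ
    rw [VW_comp]
    have h3 := h1 (j.symm θ)
    rw [LinearIsometryEquiv.norm_map] at h3
    rw [← h3]
    congr 1
    ext x
    rw [← LinearIsometryEquiv.inner_map_map j (S x) (j.symm θ)]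
    simp
  · intro f hf hb hd
    rw [VW_comp, EW_comp]
    have hj : ∀ y, fderiv ℝ (fun y => f (j y)) y =
        (fderiv ℝ f (j y)).comp (j.toContinuousLinearEquiv : Eu κ₁ →L[ℝ] Eu κ₂) := by
      intro y
      have h3 := (hf.differentiable (by norm_num) (j y)).hasFDerivAt.comp y
        (j.toContinuousLinearEquiv : Eu κ₁ →L[ℝ] Eu κ₂).hasFDerivAt
      exact h3.fderiv
    have hn : ∀ y, ‖fderiv ℝ (fun y => f (j y)) y‖ = ‖fderiv ℝ f (j y)‖ := by
      intro y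
      rw [hj]
      exact ContinuousLinearMap.opNorm_comp_linearIsometryEquiv _ j
    have h3 := h2 (fun y => f (j y)) (hf.comp j.contDiff)
      (by obtain ⟨B, hB⟩ := hb; exact ⟨B, fun y => hB _⟩)
      (by obtain ⟨L, hL⟩ := hd; exact ⟨L, fun y => by rw [hn]; exact hL _⟩)
    simp only [hn] at h3
    simpa using h3

end Pool.Agent.R751.MB
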