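import Pool.Agent.R751.MB.Stm2

/-!
# Project MB: `exp (-∑ Φ_i)` as a mixture of uniform measures on anisotropic dilates (MB-MXD)

Model: `Pool/Agent/Y506/PV/Mix.lean`.
-/

set_option autoImplicit false

namespace Pool.Agent.R751.MB

open MeasureTheory Set Filter Topology
open scoped ENNReal InnerProductSpace Pointwise

namespace Mxd

theorem layer (c : ℝ) (hc : 0 ≤ c) :
    ENNReal.ofReal (Real.exp (-c)) =
      ∫⁻ r in Ioi (0 : ℝ), if c ≤ r then ENNReal.ofReal (Real.exp (-r)) else 0 := by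
  have h0 : ∫⁻ r in Ioi c, ENNReal.ofReal (Real.exp (-r)) = ENNReal.ofReal (Real.exp (-c)) := by
    have hi : IntegrableOn (fun r : ℝ => Real.exp (-r)) (Ioi c) := by
      simpa using exp_neg_integrableOn_Ioi c one_pos
    rw [← integral_exp_neg_Ioi c, ofReal_integral_eq_lintegral_ofReal hi
      (ae_of_all _ fun r => (Real.exp_pos _).le)]
  rw [← h0]
  have h1 : ∀ r ∈ Ioi (0 : ℝ), (if c ≤ r then ENNReal.ofReal (Real.exp (-r)) else 0) =
      (Ici c).indicator (fun r => ENNReal.ofReal (Real.exp (-r))) r := by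
    intro r _
    rw [indicator_apply]
    rfl
  rw [setLIntegral_congr_fun measurableSet_Ioi h1, lintegral_indicator measurableSet_Ici,
    Measure.restrict_restrict measurableSet_Ici]
  have h2 : (Ici c ∩ Ioi 0 : Set ℝ) =ᵐ[volume] (Ioi c : Set ℝ) := by
    have h3 : (Ici c ∩ Ioi 0 : Set ℝ) =ᵐ[volume] (Ioi c ∩ Ioi 0 : Set ℝ) :=
      Ioi_ae_eq_Ici.symm.inter (ae_eq_refl _)
    refine h3.trans ?_
    have h4 : (Ioi c ∩ Ioi 0 : Set ℝ) = Ioi c := by
      rw [Ioi_inter_Ioi, max_eq_left hc]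
    exact Filter.EventuallyEq.of_eq h4
  exact (setLIntegral_congr h2).symm

variable {M n : ℕ} {k : Fin M → ℕ}

/-- block scalar maps -/
noncomputable def bs (k : Fin M → ℕ) (c : Fin M → ℝ) :
    (∀ i, Eu (Fin (k i))) →ₗ[ℝ] (∀ i, Eu (Fin (k i))) :=
  LinearMap.pi fun i => (c i) • LinearMap.proj i

theorem det_bs (c : Fin M → ℝ) : LinearMap.det (bs k c) = ∏ i, c i ^ k i := by
  classical
  set b := Pi.basis (fun i => (EuclideanSpace.basisFun (Fin (k i)) ℝ).toBasis) with hb
  have hD : ∀ q : Σ i, Fin (k i), bs k c (b q) = c q.1 • b q := by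
    intro q
    funext i
    show c i • (b q) i = (c q.1 • b q) i
    rw [hb, Pi.basis_apply]
    by_cases hi : i = q.1
    · rw [hi]
      rfl
    · rw [Pi.smul_apply, Pi.single_eq_of_ne hi, smul_zero, smul_zero]
  have hM : LinearMap.toMatrix b b (bs k c) =
      Matrix.diagonal (fun q : Σ i, Fin (k i) => c q.1) := by
    ext p q
    rw [LinearMap.toMatrix_apply, hD, map_smul, Module.Basis.repr_self, Finsupp.smul_single,
      smul_eq_mul, mul_one, Matrix.diagonal_apply, Finsupp.single_apply]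
    by_cases hpq : p = q
    · rw [if_pos hpq, if_pos hpq.symm, hpq]
    · rw [if_neg hpq, if_neg (fun h => hpq h.symm)]
  rw [← LinearMap.det_toMatrix b, hM, Matrix.det_diagonal, Fintype.prod_sigma]
  refine Finset.prod_congr rfl fun i _ => ?_
  show ∏ _y : Fin (k i), c i = c i ^ k i
  rw [Finset.prod_const, Finset.card_univ, Fintype.card_fin]

theorem det_dil (e : (∀ i, Eu (Fin (k i))) ≃ₗ[ℝ] Eu (Fin n)) (p : Fin M → ℝ) (r : ℝ)
    (hr : 0 < r) : LinearMap.det (dil e p r) = r ^ deg k p := by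
  have h1 : dil e p r = (e : (∀ i, Eu (Fin (k i))) →ₗ[ℝ] Eu (Fin n)) ∘ₗ
      (bs k fun i => r ^ (1 / p i)) ∘ₗ (e.symm : Eu (Fin n) →ₗ[ℝ] (∀ i, Eu (Fin (k i)))) := rfl
  rw [h1, LinearMap.det_conj, det_bs, deg, Real.rpow_sum_of_pos hr]
  refine Finset.prod_congr rfl fun i _ => ?_
  rw [← Real.rpow_mul_natCast hr.le]
  congr 1
  ring

theorem scale (e : (∀ i, Eu (Fin (k i))) ≃ₗ[ℝ] Eu (Fin n)) (p : Fin M → ℝ)
    (H : Eu (Fin n) → ℝ≥0∞) (hH : Measurable H) (r : ℝ) (hr0 : 0 < r) :
    ∫⁻ x, H x = ENNReal.ofReal (r ^ deg k p) * ∫⁻ y, H (dil e p r y) := by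
  have hd : 0 < r ^ deg k p := Real.rpow_pos_of_pos hr0 _
  have hdet := det_dil e p r hr0
  have h1 : ∫⁻ y, H (dil e p r y) = ENNReal.ofReal ((r ^ deg k p)⁻¹) * ∫⁻ x, H x := by
    have hm : Measurable (dil e p r) :=
      (dil e p r).continuous_of_finiteDimensional.measurable
    have h2 := lintegral_map (μ := (volume : Measure (Eu (Fin n)))) hH hm
    rw [Measure.map_linearMap_addHaar_eq_smul_addHaar volume (by rw [hdet]; exact hd.ne'),
      lintegral_smul_measure, hdet, abs_of_pos (inv_pos.2 hd)] at h2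
    rw [← h2]
    rfl
  rw [h1, ← mul_assoc, ← ENNReal.ofReal_mul hd.le, mul_inv_cancel₀ hd.ne',
    ENNReal.ofReal_one, one_mul]

theorem bsum_dil (e : (∀ i, Eu (Fin (k i))) ≃ₗ[ℝ] Eu (Fin n)) (Φ : ∀ i, Eu (Fin (k i)) → ℝ)
    (p : Fin M → ℝ) (hp : ∀ i, 1 ≤ p i) (hΦ : ∀ i, Pow (p i) (Φ i)) (r : ℝ) (hr : 0 < r)
    (y : Eu (Fin n)) : bsum e Φ (dil e p r y) = r * bsum e Φ y := by
  unfold bsum
  rw [Finset.mul_sum]
  refine Finset.sum_congr rfl fun i _ => ?_
  have h1 : e.symm (dil e p r y) i = (r ^ (1 / p i)) • (e.symm y i) := by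
    have : dil e p r y = e (bs k (fun i => r ^ (1 / p i)) (e.symm y)) := rfl
    rw [this, e.symm_apply_apply]
    rfl
  rw [h1, (hΦ i).hom _ _ (Real.rpow_pos_of_pos hr _), ← Real.rpow_mul hr.le,
    one_div_mul_cancel (by linarith [hp i]), Real.rpow_one]

end Mxd

open Mxd in
theorem mxd : S_MXD := by
  intro M n k e Φ p hp hΦ F hF
  have hGc : Continuous (bsum e Φ) := by
    unfold bsum
    refine continuous_finsetSum _ fun i _ => (hΦ i).cont.comp ?_
    exact (continuous_apply i).comp e.symm.toLinearMap.continuous_of_finiteDimensional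
  have hGm : Measurable (bsum e Φ) := hGc.measurable
  have hG0 : ∀ z, 0 ≤ bsum e Φ z := fun z => Finset.sum_nonneg fun i _ => (hΦ i).nonneg (hp i) _
  have hmh : Measurable fun r : ℝ => ENNReal.ofReal (Real.exp (-r)) := by fun_prop
  have e1 : ∀ x, F x * ENNReal.ofReal (Real.exp (-bsum e Φ x)) =
      ∫⁻ r in Ioi (0 : ℝ), F x * (if bsum e Φ x ≤ r then ENNReal.ofReal (Real.exp (-r)) else 0) := by
    intro x
    have h1 : Measurable fun r : ℝ => (if bsum e Φ x ≤ r then
        ENNReal.ofReal (Real.exp (-r)) else 0) := by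
      refine Measurable.ite ?_ hmh measurable_const
      exact measurableSet_le measurable_const measurable_id
    rw [lintegral_const_mul _ h1, ← layer _ (hG0 x)]
  rw [lintegral_congr e1]
  rw [lintegral_lintegral_swap]
  · refine setLIntegral_congr_fun measurableSet_Ioi ?_
    intro r hr0
    have hr0' : (0 : ℝ) < r := hr0
    have e2 : ∀ x, F x * (if bsum e Φ x ≤ r then ENNReal.ofReal (Real.exp (-r)) else 0) =
        ENNReal.ofReal (Real.exp (-r)) * {x | bsum e Φ x ≤ r}.indicator F x := by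
      intro x
      rw [indicator_apply]
      by_cases hx : bsum e Φ x ≤ r
      · rw [if_pos hx, if_pos (show x ∈ {x | bsum e Φ x ≤ r} from hx), mul_comm]
      · rw [if_neg hx, if_neg (show x ∉ {x | bsum e Φ x ≤ r} from hx), mul_zero, mul_zero]
    have hms : MeasurableSet {x | bsum e Φ x ≤ r} := measurableSet_le hGm measurable_const
    have hmG : Measurable ({x | bsum e Φ x ≤ r}.indicator F) := hF.indicator hms
    show ∫⁻ x, F x * (if bsum e Φ x ≤ r then ENNReal.ofReal (Real.exp (-r)) else 0) = _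
    rw [lintegral_congr e2, lintegral_const_mul _ hmG, scale e p _ hmG r hr0']
    have e3 : ∀ y, {x | bsum e Φ x ≤ r}.indicator F (dil e p r y) =
        {x | bsum e Φ x ≤ 1}.indicator (fun y => F (dil e p r y)) y := by
      intro y
      rw [indicator_apply, indicator_apply]
      congr 1
      rw [mem_ofPred_eq, mem_ofPred_eq, bsum_dil e Φ p hp hΦ r hr0' y]
      apply propext
      constructor
      · intro h
        by_contra hlt
        rw [not_le] at hlt
        nlinarith
      · intro h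
        nlinarith
    have hms1 : MeasurableSet {x | bsum e Φ x ≤ 1} := measurableSet_le hGm measurable_const
    rw [lintegral_congr e3, lintegral_indicator hms1, ← mul_assoc,
      ← ENNReal.ofReal_mul (Real.exp_pos _).le, mul_comm (Real.exp (-r))]
  · refine Measurable.aemeasurable ?_
    have h1 : Measurable fun q : Eu (Fin n) × ℝ => (if bsum e Φ q.1 ≤ q.2 then
        ENNReal.ofReal (Real.exp (-q.2)) else 0) := by
      refine Measurable.ite ?_ (hmh.comp measurable_snd) measurable_const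
      exact measurableSet_le (hGm.comp measurable_fst) measurable_snd
    exact (hF.comp measurable_fst).mul h1

end Pool.Agent.R751.MB
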