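import Pool.Agent.R751.MB.Stm2
import Pool.Agent.Y427.PV.Rad

/-!
# Project MB, piece RDM: from `exp (-∑ Φ_i)` to `{∑ Φ_i ≤ 1}`

`core` is the bookkeeping of `Pool.Agent.Y427.PV.core` for a general family of dilations.
-/

set_option autoImplicit false
set_option linter.all false

namespace Pool.Agent.R27.RD

open MeasureTheory Set Filter Topology
open scoped ENNReal InnerProductSpace
open Pool.Agent.W695.KH (Eu)
open Pool.Agent.Y506.RG (EW VW Adm EW_mono EW_add EW_const_mul EW_const VW_shift EW_nonneg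
  norm_sq_sum)
open Pool.Agent.Y506.PV (CcW ind)
open Pool.Agent.Y427.PV (lint_EW ind_lint VW_const_mul lin_int VW_le_norm lip_fd adm_ind)

variable {n : ℕ}

set_option maxHeartbeats 4000000 in
theorem core (ρ : Measure ℝ) (K : Set (Eu (Fin n))) (w : Eu (Fin n) → ℝ)
    (L : ℝ → Eu (Fin n) →ₗ[ℝ] Eu (Fin n)) (B A C κ κ' δ : ℝ)
    (hB : 0 < B) (hA : 0 < A) (hC : 0 < C) (hκ' : 0 < κ') (hδ : 0 < δ)
    (h1 : κ' * Real.sqrt A ≤ κ) (h2 : κ' ^ 2 * (3 * C) ≤ δ) (hρ : ρ univ = ENNReal.ofReal B)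
    (hKm : MeasurableSet K) (hKv : volume K ≠ ⊤) (hK : Adm (ind K)) (hw : Adm w)
    (mix : ∀ F : Eu (Fin n) → ℝ≥0∞, Measurable F → ∫⁻ x, F x * ENNReal.ofReal (w x) =
      ∫⁻ r, (∫⁻ y in K, F (L r y)) ∂ρ)
    (hc : CcW κ (δ / 6) w) (k : ℕ) (hk : k ≤ n) (T T' : Eu (Fin n) →ₗ[ℝ] Eu (Fin k)) (s : ℝ)
    (hs : 0 < s)
    (b1 : ∀ θ : Eu (Fin k), ‖θ‖ = 1 → ∫⁻ r, (∫⁻ y in K, ENNReal.ofReal (⟪T' (L r y), θ⟫_ℝ ^ 2)) ∂ρ ≤
      ENNReal.ofReal (A * s) * (ENNReal.ofReal B * volume K))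
    (h : ℝ → ℝ≥0∞) (hm : Measurable h)
    (hh : ∀ᵐ r ∂ρ, ∫⁻ y in K, ENNReal.ofReal (‖T y - T' (L r y)‖ ^ 2) ≤ h r)
    (b2 : ∫⁻ r, h r ∂ρ ≤ ENNReal.ofReal (C * s) * (ENNReal.ofReal B * volume K))
    (v : Eu (Fin k) → ℝ) (hv : ContDiff ℝ 1 v) (hv1 : ∀ y, |v y| ≤ 1)
    (hv2 : ∀ y, ‖fderiv ℝ v y‖ ≤ κ' / Real.sqrt s) : VW (ind K) (fun x => v (T x)) ≤ δ := by
  obtain ⟨V, hV⟩ : ∃ V, V = volume K := ⟨_, rfl⟩
  rw [← hV] at b1 b2
  have hVt : V ≠ ⊤ := hV ▸ hKv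
  have hVI : ENNReal.ofReal (∫ x, ind K x) = V := by
    rw [ofReal_integral_eq_lintegral_ofReal hK.one (Eventually.of_forall hK.nonneg)]
    have := ind_lint hKm (fun _ => 1)
    simp only [one_mul] at this
    rw [this, setLIntegral_one, hV]
  have hV0 : V ≠ 0 := by
    rw [← hVI]
    exact (ENNReal.ofReal_pos.2 hK.pos).ne'
  have hWI : ENNReal.ofReal (∫ x, w x) = ENNReal.ofReal B * V := by
    rw [ofReal_integral_eq_lintegral_ofReal hw.one (Eventually.of_forall hw.nonneg)]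
    have := mix (fun _ => 1) measurable_const
    simp only [one_mul, lintegral_const, Measure.restrict_apply_univ] at this
    rw [this, hρ, hV, mul_comm]
  have hB0 : ENNReal.ofReal B ≠ 0 := (ENNReal.ofReal_pos.2 hB).ne'
  have hBV0 : ENNReal.ofReal B * V ≠ 0 := mul_ne_zero hB0 hV0
  have hBVt : ENNReal.ofReal B * V ≠ ⊤ := ENNReal.mul_ne_top ENNReal.ofReal_ne_top hVt
  have hT'c : Continuous T' := T'.continuous_of_finiteDimensional
  have hTc : Continuous T := T.continuous_of_finiteDimensional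
  have hss : 0 < Real.sqrt s := Real.sqrt_pos.2 hs
  have hsA : 0 < Real.sqrt A := Real.sqrt_pos.2 hA
  have hAs : Real.sqrt (A * s) = Real.sqrt A * Real.sqrt s := Real.sqrt_mul hA.le s
  -- the concentration hypothesis
  have hD := hc k hk T' (A * s) (by positivity) (by
    intro θ hθ
    have i1 := lin_int hw T' θ
    have e1 : VW w (fun x => ⟪T' x, θ⟫_ℝ) ≤ EW w (fun x => ⟪T' x, θ⟫_ℝ ^ 2) := by
      unfold VW
      linarith [sq_nonneg (EW w fun x => ⟪T' x, θ⟫_ℝ)]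
    refine e1.trans ?_
    have e2 := lint_EW hw _ (fun x => sq_nonneg ⟪T' x, θ⟫_ℝ) i1.2
    rw [mix (fun x => ENNReal.ofReal (⟪T' x, θ⟫_ℝ ^ 2))
      (((hT'c.inner continuous_const).pow 2).measurable.ennreal_ofReal), hWI] at e2
    have e5 := b1 θ hθ
    rw [e2] at e5
    have e6 := (ENNReal.mul_le_mul_iff_left hBV0 hBVt).1 e5
    exact (ENNReal.ofReal_le_ofReal_iff (by positivity)).1 e6) v hv hv1 (by
    intro y
    refine (hv2 y).trans ?_
    rw [hAs, div_le_div_iff₀ hss (by positivity)]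
    calc κ' * (Real.sqrt A * Real.sqrt s) = (κ' * Real.sqrt A) * Real.sqrt s := by ring
      _ ≤ κ * Real.sqrt s := mul_le_mul_of_nonneg_right h1 hss.le)
  obtain ⟨c, hcd⟩ : ∃ c, c = EW w (fun x => v (T' x)) := ⟨_, rfl⟩
  have hv'm : Measurable fun x => v (T' x) := (hv.continuous.comp hT'c).measurable
  have hvm : Measurable fun x => v (T x) := (hv.continuous.comp hTc).measurable
  have hi1 : Integrable fun x => v (T' x) * w x := hw.bdd _ hv'm 1 fun x => hv1 _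
  have hi2 : Integrable fun x => v (T' x) ^ 2 * w x := hw.bdd _ (hv'm.pow_const 2) 1 fun x => by
    rw [abs_pow]
    exact pow_le_one₀ (abs_nonneg _) (hv1 _)
  have hE := VW_shift hw _ hi1 hi2 c
  rw [← hcd, sub_self] at hE
  have hcb : Integrable fun x => (v (T' x) - c) ^ 2 * w x := by
    refine hw.bdd _ ((hv'm.sub_const c).pow_const 2) ((1 + |c|) ^ 2) fun x => ?_
    rw [abs_pow]
    refine pow_le_pow_left₀ (abs_nonneg _) ((abs_sub _ _).trans ?_) 2
    linarith [hv1 (T' x)]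
  have hL4 : ∫⁻ r, (∫⁻ y in K, ENNReal.ofReal ((v (T' (L r y)) - c) ^ 2)) ∂ρ ≤
      ENNReal.ofReal (δ / 6) * (ENNReal.ofReal B * V) := by
    rw [← mix (fun x => ENNReal.ofReal ((v (T' x) - c) ^ 2))
      ((hv'm.sub_const c).pow_const 2).ennreal_ofReal, lint_EW hw _ (fun x => sq_nonneg _) hcb,
      hWI]
    refine mul_le_mul_left (ENNReal.ofReal_le_ofReal ?_) _
    rw [hE]
    linarith
  -- the final estimate
  obtain ⟨l, hl⟩ : ∃ l, l = κ' / Real.sqrt s := ⟨_, rfl⟩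
  have hl0 : 0 < l := by rw [hl]; positivity
  have hls : l ^ 2 * s = κ' ^ 2 := by
    rw [hl, div_pow, Real.sq_sqrt hs.le]
    field_simp
  have hj1 : Integrable fun x => v (T x) * ind K x := hK.bdd _ hvm 1 fun x => hv1 _
  have hj2 : Integrable fun x => v (T x) ^ 2 * ind K x := hK.bdd _ (hvm.pow_const 2) 1 fun x => by
    rw [abs_pow]
    exact pow_le_one₀ (abs_nonneg _) (hv1 _)
  have hF := VW_shift hK _ hj1 hj2 c
  have hjb : Integrable fun x => (v (T x) - c) ^ 2 * ind K x := by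
    refine hK.bdd _ ((hvm.sub_const c).pow_const 2) ((1 + |c|) ^ 2) fun x => ?_
    rw [abs_pow]
    refine pow_le_pow_left₀ (abs_nonneg _) ((abs_sub _ _).trans ?_) 2
    linarith [hv1 (T x)]
  have hle : VW (ind K) (fun x => v (T x)) ≤ EW (ind K) (fun x => (v (T x) - c) ^ 2) := by
    rw [hF]
    linarith [sq_nonneg (EW (ind K) (fun x => v (T x)) - c)]
  refine hle.trans ?_
  have hG := lint_EW hK _ (fun x => sq_nonneg (v (T x) - c)) hjb
  rw [ind_lint hKm, hVI] at hG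
  have hpt : ∀ (r : ℝ) (y : Eu (Fin n)), ENNReal.ofReal ((v (T y) - c) ^ 2) ≤
      ENNReal.ofReal (2 * l ^ 2) * ENNReal.ofReal (‖T y - T' (L r y)‖ ^ 2) +
      ENNReal.ofReal 2 * ENNReal.ofReal ((v (T' (L r y)) - c) ^ 2) := by
    intro r y
    rw [← ENNReal.ofReal_mul (by positivity), ← ENNReal.ofReal_mul (by positivity),
      ← ENNReal.ofReal_add (by positivity) (by positivity)]
    refine ENNReal.ofReal_le_ofReal ?_
    have a1 := lip_fd v hv l (fun y => hl ▸ hv2 y) (T y) (T' (L r y))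
    nlinarith [sq_nonneg ((v (T y) - v (T' (L r y))) - (v (T' (L r y)) - c))]
  have hin : ∀ᵐ r ∂ρ, ∫⁻ y in K, ENNReal.ofReal ((v (T y) - c) ^ 2) ≤
      ENNReal.ofReal (2 * l ^ 2) * h r +
      ENNReal.ofReal 2 * ∫⁻ y in K, ENNReal.ofReal ((v (T' (L r y)) - c) ^ 2) := by
    filter_upwards [hh] with r hr
    refine (lintegral_mono (hpt r)).trans ?_
    have hLc : Continuous (L r) := (L r).continuous_of_finiteDimensional
    have m1 : Measurable fun y => ENNReal.ofReal (2 * l ^ 2) *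
        ENNReal.ofReal (‖T y - T' (L r y)‖ ^ 2) :=
      (((hTc.sub (hT'c.comp hLc)).norm.pow 2).measurable.ennreal_ofReal).const_mul _
    rw [lintegral_add_left m1,
      lintegral_const_mul' _ _ ENNReal.ofReal_ne_top, lintegral_const_mul' _ _ ENNReal.ofReal_ne_top]
    exact add_le_add (mul_le_mul_right hr _) le_rfl
  have hfin : ENNReal.ofReal (EW (ind K) fun x => (v (T x) - c) ^ 2) * (ENNReal.ofReal B * V) ≤
      ENNReal.ofReal δ * (ENNReal.ofReal B * V) := by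
    have b1 : ENNReal.ofReal (EW (ind K) fun x => (v (T x) - c) ^ 2) * (ENNReal.ofReal B * V) =
        ∫⁻ r, (∫⁻ y in K, ENNReal.ofReal ((v (T y) - c) ^ 2)) ∂ρ := by
      rw [lintegral_const, hρ, hG]
      ring
    rw [b1]
    refine (lintegral_mono_ae hin).trans ?_
    rw [lintegral_add_left (hm.const_mul _), lintegral_const_mul' _ _ ENNReal.ofReal_ne_top,
      lintegral_const_mul' _ _ ENNReal.ofReal_ne_top]
    refine (add_le_add (mul_le_mul_right b2 _) (mul_le_mul_right hL4 _)).trans ?_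
    rw [← mul_assoc (ENNReal.ofReal (2 * l ^ 2)) (ENNReal.ofReal (C * s)) (ENNReal.ofReal B * V),
      ← mul_assoc (ENNReal.ofReal 2) (ENNReal.ofReal (δ / 6)) (ENNReal.ofReal B * V), ← add_mul,
      ← ENNReal.ofReal_mul (by positivity),
      ← ENNReal.ofReal_mul (by positivity), ← ENNReal.ofReal_add (by positivity) (by positivity)]
    refine mul_le_mul_left (ENNReal.ofReal_le_ofReal ?_) _
    have e : 2 * l ^ 2 * (C * s) = 2 * C * κ' ^ 2 := by rw [← hls]; ring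
    rw [e]
    linarith
  have e6 := (ENNReal.mul_le_mul_iff_left hBV0 hBVt).1 hfin
  exact (ENNReal.ofReal_le_ofReal_iff hδ.le).1 e6

/-! ### orthogonality of the blocks -/

theorem EW_sum {w : Eu (Fin n) → ℝ} {ι : Type} (S : Finset ι) (f : ι → Eu (Fin n) → ℝ)
    (hi : ∀ i ∈ S, Integrable fun x => f i x * w x) :
    EW w (fun x => ∑ i ∈ S, f i x) = ∑ i ∈ S, EW w (f i) := by
  unfold EW
  have e : ∀ x, (∑ i ∈ S, f i x) * w x = ∑ i ∈ S, f i x * w x := fun x => Finset.sum_mul _ _ _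
  simp only [e]
  rw [integral_finsetSum S hi, Finset.sum_div]

theorem EW_flip {w : Eu (Fin n) → ℝ} (σ : Eu (Fin n) ≃ₗ[ℝ] Eu (Fin n)) (hσ : ∀ x, σ (σ x) = x)
    (hw : ∀ x, w (σ x) = w x) (f : Eu (Fin n) → ℝ) : EW w (fun x => f (σ x)) = EW w f := by
  have hdet : |LinearMap.det (σ : Eu (Fin n) →ₗ[ℝ] Eu (Fin n))| = 1 := by
    have h1 : (σ : Eu (Fin n) →ₗ[ℝ] Eu (Fin n)) ∘ₗ (σ : Eu (Fin n) →ₗ[ℝ] Eu (Fin n)) =
        LinearMap.id := by
      ext x
      simp [hσ]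
    have h2 := congrArg LinearMap.det h1
    rw [LinearMap.det_comp, LinearMap.det_id] at h2
    have h3 : |LinearMap.det (σ : Eu (Fin n) →ₗ[ℝ] Eu (Fin n))| ^ 2 = 1 := by
      rw [sq_abs, sq, h2]
    exact (pow_eq_one_iff_of_nonneg (abs_nonneg _) two_ne_zero).1 h3
  have hmp : MeasurePreserving (σ : Eu (Fin n) → Eu (Fin n)) volume volume := by
    refine ⟨(σ.toContinuousLinearEquiv.continuous).measurable, ?_⟩
    have h4 := Measure.map_linearMap_addHaar_eq_smul_addHaar (volume : Measure (Eu (Fin n)))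
      (f := (σ : Eu (Fin n) →ₗ[ℝ] Eu (Fin n))) (by
        intro h0; rw [h0] at hdet; simp at hdet)
    rw [abs_inv, hdet, inv_one, ENNReal.ofReal_one, one_smul] at h4
    exact h4
  have hint : ∫ x, f (σ x) * w x = ∫ x, f x * w x := by
    have h5 := hmp.integral_comp (σ.toContinuousLinearEquiv.toHomeomorph.measurableEmbedding)
      (fun x => f x * w x)
    simp only [hw] at h5
    exact h5
  unfold EW
  rw [hint]

theorem EW_pyth {w : Eu (Fin n) → ℝ} (hwA : Adm w) (σ : Eu (Fin n) ≃ₗ[ℝ] Eu (Fin n))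
    (hσ : ∀ x, σ (σ x) = x) (hw : ∀ x, w (σ x) = w x) {k : ℕ}
    (X Y : Eu (Fin n) →ₗ[ℝ] Eu (Fin k)) (hX : ∀ x, X (σ x) = -X x) (hY : ∀ x, Y (σ x) = Y x)
    (θ : Eu (Fin k)) : EW w (fun x => ⟪(X + Y) x, θ⟫_ℝ ^ 2) =
      EW w (fun x => ⟪X x, θ⟫_ℝ ^ 2) + EW w (fun x => ⟪Y x, θ⟫_ℝ ^ 2) := by
  have h1 := EW_flip σ hσ hw (fun x => ⟪(X + Y) x, θ⟫_ℝ ^ 2)
  have h2 : (fun x => ⟪(X + Y) (σ x), θ⟫_ℝ ^ 2) = fun x => ⟪(Y - X) x, θ⟫_ℝ ^ 2 := by
    funext x
    rw [LinearMap.add_apply, hX, hY, LinearMap.sub_apply]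
    congr 2
    abel
  rw [h2] at h1
  have h3 := EW_add (w := w) _ _ (lin_int hwA (X + Y) θ).2 (lin_int hwA (Y - X) θ).2
  have h4 := EW_add (w := w) _ _ (lin_int hwA X θ).2 (lin_int hwA Y θ).2
  have h5 : (fun x => ⟪(X + Y) x, θ⟫_ℝ ^ 2 + ⟪(Y - X) x, θ⟫_ℝ ^ 2) =
      fun x => 2 * (⟪X x, θ⟫_ℝ ^ 2 + ⟪Y x, θ⟫_ℝ ^ 2) := by
    funext x
    rw [LinearMap.add_apply, LinearMap.sub_apply, inner_add_left, inner_sub_left]
    ring
  rw [h5, EW_const_mul, h4] at h3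
  linarith

/-! ### blocks -/

section

variable {M : ℕ} {k : Fin M → ℕ} (e : (∀ i, Eu (Fin (k i))) ≃ₗ[ℝ] Eu (Fin n))

/-- the projection on a block -/
noncomputable def blk (i : Fin M) : Eu (Fin n) →ₗ[ℝ] Eu (Fin n) :=
  e.toLinearMap ∘ₗ (LinearMap.single ℝ (fun i => Eu (Fin (k i))) i) ∘ₗ (LinearMap.proj i) ∘ₗ
    e.symm.toLinearMap

theorem blk_apply (i : Fin M) (x : Eu (Fin n)) : blk e i x = e (Pi.single i (e.symm x i)) := rfl

theorem blk_sum (x : Eu (Fin n)) : ∑ i, blk e i x = x := by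
  simp only [blk_apply]
  rw [← map_sum, Finset.univ_sum_single, LinearEquiv.apply_symm_apply]

theorem blk_same (i : Fin M) (x : Eu (Fin n)) : blk e i (blk e i x) = blk e i x := by
  simp only [blk_apply, LinearEquiv.symm_apply_apply, Pi.single_eq_same]

theorem blk_ne {i j : Fin M} (h : i ≠ j) (x : Eu (Fin n)) : blk e i (blk e j x) = 0 := by
  simp only [blk_apply, LinearEquiv.symm_apply_apply]
  rw [Pi.single_eq_of_ne h, Pi.single_zero, map_zero]

/-- change of the sign of a block -/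
noncomputable def flp (i : Fin M) : Eu (Fin n) ≃ₗ[ℝ] Eu (Fin n) :=
  LinearEquiv.ofInvolutive (LinearMap.id - (2 : ℝ) • blk e i) (by
    intro x
    simp only [LinearMap.sub_apply, LinearMap.id_apply, LinearMap.smul_apply, map_sub, map_smul,
      blk_same]
    module)

theorem flp_apply (i : Fin M) (x : Eu (Fin n)) : flp e i x = x - (2 : ℝ) • blk e i x := rfl

theorem flp_flp (i : Fin M) (x : Eu (Fin n)) : flp e i (flp e i x) = x := by
  simp only [flp_apply, map_sub, map_smul, blk_same]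
  module

theorem flp_blk (i : Fin M) (x : Eu (Fin n)) : blk e i (flp e i x) = -blk e i x := by
  simp only [flp_apply, map_sub, map_smul, blk_same]
  module

theorem flp_blk_ne {i j : Fin M} (h : i ≠ j) (x : Eu (Fin n)) :
    blk e i (flp e j x) = blk e i x := by
  simp only [flp_apply, map_sub, map_smul, blk_ne e h]
  module

theorem orth {w : Eu (Fin n) → ℝ} (hwA : Adm w) (hw : ∀ i x, w (flp e i x) = w x) {d : ℕ}
    (T : Eu (Fin n) →ₗ[ℝ] Eu (Fin d)) (α : Fin M → ℝ) (θ : Eu (Fin d)) (S : Finset (Fin M)) :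
    EW w (fun x => ⟪(∑ i ∈ S, α i • (T ∘ₗ blk e i)) x, θ⟫_ℝ ^ 2) =
      ∑ i ∈ S, α i ^ 2 * EW w (fun x => ⟪T (blk e i x), θ⟫_ℝ ^ 2) := by
  classical
  induction S using Finset.induction_on with
  | empty =>
    simp only [Finset.sum_empty, LinearMap.zero_apply, inner_zero_left]
    unfold EW
    simp
  | insert i S hi ih =>
    rw [Finset.sum_insert hi, Finset.sum_insert hi, EW_pyth hwA (flp e i) (flp_flp e i) (hw i), ih]
    · congr 1
      rw [← EW_const_mul]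
      congr 1
      funext x
      rw [LinearMap.smul_apply, real_inner_smul_left, LinearMap.comp_apply]
      ring
    · intro x
      rw [LinearMap.smul_apply, LinearMap.comp_apply, flp_blk, map_neg, smul_neg]
      rfl
    · intro x
      rw [LinearMap.sum_apply, LinearMap.sum_apply]
      refine Finset.sum_congr rfl fun j hj => ?_
      have hne : j ≠ i := fun h0 => hi (h0 ▸ hj)
      rw [LinearMap.smul_apply, LinearMap.comp_apply, flp_blk_ne e hne]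
      rfl

theorem EW_norm {w : Eu (Fin n) → ℝ} (hwA : Adm w) {d : ℕ} (T : Eu (Fin n) →ₗ[ℝ] Eu (Fin d)) :
    EW w (fun x => ‖T x‖ ^ 2) =
      ∑ j, EW w (fun x => ⟪T x, EuclideanSpace.single j (1 : ℝ)⟫_ℝ ^ 2) := by
  rw [← EW_sum Finset.univ _ fun j _ => (lin_int hwA T _).2]
  congr 1
  funext x
  rw [norm_sq_sum]
  refine Finset.sum_congr rfl fun j _ => ?_
  rw [real_inner_comm]

theorem norm_int {w : Eu (Fin n) → ℝ} (hwA : Adm w) {d : ℕ} (T : Eu (Fin n) →ₗ[ℝ] Eu (Fin d)) :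
    Integrable fun x => ‖T x‖ ^ 2 * w x := by
  have h := integrable_finsetSum Finset.univ fun j _ =>
    (lin_int hwA T (EuclideanSpace.single j (1 : ℝ))).2
  refine h.congr (Eventually.of_forall fun x => ?_)
  simp only
  rw [norm_sq_sum, ← Finset.sum_mul]
  congr 1
  refine Finset.sum_congr rfl fun j _ => ?_
  rw [real_inner_comm]

theorem orth_norm {w : Eu (Fin n) → ℝ} (hwA : Adm w) (hw : ∀ i x, w (flp e i x) = w x) {d : ℕ}
    (T : Eu (Fin n) →ₗ[ℝ] Eu (Fin d)) (α : Fin M → ℝ) :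
    EW w (fun x => ‖(∑ i, α i • (T ∘ₗ blk e i)) x‖ ^ 2) =
      ∑ i, α i ^ 2 * EW w (fun x => ‖T (blk e i x)‖ ^ 2) := by
  rw [EW_norm hwA]
  have h1 : ∀ i, EW w (fun x => ‖T (blk e i x)‖ ^ 2) =
      ∑ j, EW w (fun x => ⟪T (blk e i x), EuclideanSpace.single j (1 : ℝ)⟫_ℝ ^ 2) :=
    fun i => EW_norm hwA (T ∘ₗ blk e i)
  simp only [h1]
  have h2 : ∀ j, EW w (fun x => ⟪(∑ i, α i • (T ∘ₗ blk e i)) x,
      EuclideanSpace.single j (1 : ℝ)⟫_ℝ ^ 2) = _ := fun j => orth e hwA hw T α _ Finset.univ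
  simp only [h2]
  rw [Finset.sum_comm]
  refine Finset.sum_congr rfl fun i _ => ?_
  rw [Finset.mul_sum]

theorem rank_bd {w : Eu (Fin n) → ℝ} (hwA : Adm w) {d : ℕ} (T : Eu (Fin n) →ₗ[ℝ] Eu (Fin d))
    (i : Fin M) (s : ℝ) (hs : 0 ≤ s)
    (h : ∀ θ : Eu (Fin d), EW w (fun x => ⟪T (blk e i x), θ⟫_ℝ ^ 2) ≤ s * ‖θ‖ ^ 2) :
    EW w (fun x => ‖T (blk e i x)‖ ^ 2) ≤ k i * s := by
  obtain ⟨Ti, hTi⟩ : ∃ Ti : Eu (Fin (k i)) →ₗ[ℝ] Eu (Fin d), Ti = T ∘ₗ e.toLinearMap ∘ₗ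
    (LinearMap.single ℝ (fun i => Eu (Fin (k i))) i) := ⟨_, rfl⟩
  obtain ⟨U, hU⟩ : ∃ U, U = LinearMap.range Ti := ⟨_, rfl⟩
  have hmem : ∀ x, T (blk e i x) ∈ U := by
    intro x
    rw [hU, hTi]
    exact ⟨e.symm x i, rfl⟩
  have hrank : Module.finrank ℝ U ≤ k i := by
    rw [hU]
    refine (LinearMap.finrank_range_le Ti).trans ?_
    simp
  let b := stdOrthonormalBasis ℝ U
  have hb : ∀ x, ‖T (blk e i x)‖ ^ 2 = ∑ l, ⟪T (blk e i x), (b l : Eu (Fin d))⟫_ℝ ^ 2 := by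
    intro x
    have h1 := b.sum_sq_norm_inner_right ⟨T (blk e i x), hmem x⟩
    have h2 : ‖(⟨T (blk e i x), hmem x⟩ : U)‖ = ‖T (blk e i x)‖ := rfl
    rw [h2] at h1
    rw [← h1]
    refine Finset.sum_congr rfl fun l _ => ?_
    rw [Real.norm_eq_abs, sq_abs, real_inner_comm]
    rfl
  have hbn : ∀ l, ‖(b l : Eu (Fin d))‖ = 1 := fun l => b.orthonormal.1 l
  simp only [hb]
  rw [EW_sum Finset.univ (fun l x => ⟪T (blk e i x), (b l : Eu (Fin d))⟫_ℝ ^ 2)
    fun l _ => (lin_int hwA (T ∘ₗ blk e i) (b l : Eu (Fin d))).2]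
  calc ∑ l, EW w (fun x => ⟪T (blk e i x), (b l : Eu (Fin d))⟫_ℝ ^ 2)
      ≤ ∑ l : Fin (Module.finrank ℝ U), s := by
        refine Finset.sum_le_sum fun l _ => ?_
        refine (h _).trans ?_
        rw [hbn]
        simp
    _ = Module.finrank ℝ U * s := by
        rw [Finset.sum_const, Finset.card_univ, Fintype.card_fin, nsmul_eq_mul]
    _ ≤ k i * s := mul_le_mul_of_nonneg_right (Nat.cast_le.2 hrank) hs

end

end Pool.Agent.R27.RD

namespace Pool.Agent.R751.MB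

open MeasureTheory Set Filter Topology
open scoped ENNReal InnerProductSpace Pointwise
open Pool.Agent.R27.RD (blk flp)

namespace RD

variable {M n : ℕ} {k : Fin M → ℕ}

theorem conv (e : (∀ i, Eu (Fin (k i))) ≃ₗ[ℝ] Eu (Fin n)) {p : Fin M → ℝ}
    {Φ : ∀ i, Eu (Fin (k i)) → ℝ} (h : ∀ i, Pow (p i) (Φ i)) : ConvexOn ℝ univ (bsum e Φ) := by
  refine ⟨convex_univ, fun x _ y _ a b ha hb hab => ?_⟩
  unfold bsum
  simp only [smul_eq_mul]
  rw [Finset.mul_sum, Finset.mul_sum, ← Finset.sum_add_distrib]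
  refine Finset.sum_le_sum fun i _ => ?_
  have h1 := (h i).conv.2 (mem_univ (e.symm x i)) (mem_univ (e.symm y i)) ha hb hab
  rw [map_add, map_smul, map_smul]
  exact h1

theorem cont (e : (∀ i, Eu (Fin (k i))) ≃ₗ[ℝ] Eu (Fin n)) {p : Fin M → ℝ}
    {Φ : ∀ i, Eu (Fin (k i)) → ℝ} (h : ∀ i, Pow (p i) (Φ i)) : Continuous (bsum e Φ) :=
  continuousOn_univ.1 ((conv e h).continuousOn isOpen_univ)

theorem zero (e : (∀ i, Eu (Fin (k i))) ≃ₗ[ℝ] Eu (Fin n)) {p : Fin M → ℝ} (hp : ∀ i, 1 ≤ p i)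
    {Φ : ∀ i, Eu (Fin (k i)) → ℝ} (h : ∀ i, Pow (p i) (Φ i)) : bsum e Φ 0 = 0 := by
  unfold bsum
  refine Finset.sum_eq_zero fun i _ => ?_
  rw [map_zero]
  exact (h i).zero (hp i)

theorem pos (e : (∀ i, Eu (Fin (k i))) ≃ₗ[ℝ] Eu (Fin n)) {p : Fin M → ℝ} (hp : ∀ i, 1 ≤ p i)
    {Φ : ∀ i, Eu (Fin (k i)) → ℝ} (h : ∀ i, Pow (p i) (Φ i)) (x : Eu (Fin n)) (hx : x ≠ 0) :
    0 < bsum e Φ x := by
  obtain ⟨j, hj⟩ : ∃ j, e.symm x j ≠ 0 := by
    by_contra hne
    push Not at hne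
    apply hx
    have h1 : e.symm x = 0 := funext hne
    have := congrArg e h1
    rwa [e.apply_symm_apply, map_zero] at this
  exact lt_of_lt_of_le ((h j).pos _ hj)
    (Finset.single_le_sum (f := fun i => Φ i (e.symm x i)) (fun i _ => (h i).nonneg (hp i) _)
      (Finset.mem_univ j))

theorem low (e : (∀ i, Eu (Fin (k i))) ≃ₗ[ℝ] Eu (Fin n)) {p : Fin M → ℝ} (hp : ∀ i, 1 ≤ p i)
    {Φ : ∀ i, Eu (Fin (k i)) → ℝ} (h : ∀ i, Pow (p i) (Φ i)) :
    ∃ c : ℝ, 0 < c ∧ ∀ x, c * ‖x‖ - c ≤ bsum e Φ x := by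
  have hz := zero e hp h
  have hnn : ∀ x, 0 ≤ bsum e Φ x := by
    intro x
    by_cases hx : x = 0
    · rw [hx, hz]
    · exact (pos e hp h x hx).le
  by_cases hne : (Metric.sphere (0 : Eu (Fin n)) 1).Nonempty
  · obtain ⟨z, hzs, hmin⟩ := (isCompact_sphere (0 : Eu (Fin n)) 1).exists_isMinOn hne
      (cont e h).continuousOn
    have hz0 : z ≠ 0 := by
      intro h0
      rw [h0, mem_sphere_zero_iff_norm, norm_zero] at hzs
      exact zero_ne_one hzs
    refine ⟨bsum e Φ z, pos e hp h z hz0, fun x => ?_⟩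
    have hpz := pos e hp h z hz0
    rcases le_total ‖x‖ 1 with h1 | h1
    · have h2 := hnn x
      nlinarith
    · have hn : 0 < ‖x‖ := by linarith
      have h3 : ‖x‖⁻¹ • x ∈ Metric.sphere (0 : Eu (Fin n)) 1 := by
        rw [mem_sphere_zero_iff_norm, norm_smul, norm_inv, norm_norm, inv_mul_cancel₀ hn.ne']
      have h4 : bsum e Φ z ≤ bsum e Φ (‖x‖⁻¹ • x) := hmin h3
      have h5 := (conv e h).2 (mem_univ x) (mem_univ 0) (inv_nonneg.2 hn.le)
        (sub_nonneg.2 (inv_le_one_of_one_le₀ h1)) (add_sub_cancel _ _)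
      rw [smul_zero, add_zero, hz, smul_zero, add_zero, smul_eq_mul] at h5
      have h6 : bsum e Φ z * ‖x‖ ≤ bsum e Φ x := by
        have h7 := mul_le_mul_of_nonneg_right (h4.trans h5) hn.le
        have h8 : ‖x‖⁻¹ * bsum e Φ x * ‖x‖ = bsum e Φ x := by field_simp
        rw [h8] at h7
        exact h7
      linarith
  · refine ⟨1, one_pos, fun x => ?_⟩
    have hx : x = 0 := by
      by_contra hx
      have hn : 0 < ‖x‖ := norm_pos_iff.2 hx
      exact hne ⟨‖x‖⁻¹ • x, by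
        rw [mem_sphere_zero_iff_norm, norm_smul, norm_inv, norm_norm, inv_mul_cancel₀ hn.ne']⟩
    rw [hx, norm_zero, hz]
    norm_num

theorem powN (c : ℝ) (hc : 0 < c) : Pow 1 fun x : Eu (Fin n) => c * ‖x‖ := by
  refine ⟨?_, ?_, ?_⟩
  · exact (convexOn_norm convex_univ).smul hc.le
  · intro r x hr
    rw [norm_smul, Real.norm_eq_abs, abs_of_pos hr, Real.rpow_one]
    ring
  · intro x hx
    have := norm_pos_iff.2 hx
    positivity

theorem admW (e : (∀ i, Eu (Fin (k i))) ≃ₗ[ℝ] Eu (Fin n)) {p : Fin M → ℝ} (hp : ∀ i, 1 ≤ p i)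
    {Φ : ∀ i, Eu (Fin (k i)) → ℝ} (h : ∀ i, Pow (p i) (Φ i)) :
    Pool.Agent.Y506.RG.Adm fun x => Real.exp (-bsum e Φ x) := by
  obtain ⟨c, hc, hlow⟩ := low e hp h
  have hG := cont e h
  have hm : Continuous fun x => Real.exp (-bsum e Φ x) := Real.continuous_exp.comp hG.neg
  have hi := ((powN (n := n) c hc).adm le_rfl).int
  have hle : ∀ x, Real.exp (-bsum e Φ x) ≤ Real.exp c * Real.exp (-(c * ‖x‖)) := by
    intro x
    rw [← Real.exp_add]
    apply Real.exp_le_exp.2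
    have := hlow x
    linarith
  have hint : Integrable fun x : Eu (Fin n) => (1 + ‖x‖ ^ 2) * Real.exp (-bsum e Φ x) := by
    refine Integrable.mono' (hi.const_mul (Real.exp c)) ?_ (Eventually.of_forall fun x => ?_)
    · exact ((continuous_const.add (continuous_norm.pow 2)).mul hm).aestronglyMeasurable
    · rw [Real.norm_eq_abs, abs_of_nonneg (by positivity)]
      calc (1 + ‖x‖ ^ 2) * Real.exp (-bsum e Φ x)
          ≤ (1 + ‖x‖ ^ 2) * (Real.exp c * Real.exp (-(c * ‖x‖))) :=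
            mul_le_mul_of_nonneg_left (hle x) (by positivity)
        _ = _ := by ring
  have hint1 : Integrable fun x : Eu (Fin n) => Real.exp (-bsum e Φ x) := by
    refine Integrable.mono' hint hm.aestronglyMeasurable (Eventually.of_forall fun x => ?_)
    rw [Real.norm_eq_abs, abs_of_pos (Real.exp_pos _)]
    nlinarith [sq_nonneg ‖x‖, Real.exp_pos (-bsum e Φ x)]
  exact ⟨fun x => (Real.exp_pos _).le, hint, integral_exp_pos hint1, hm.measurable⟩

theorem bddK (e : (∀ i, Eu (Fin (k i))) ≃ₗ[ℝ] Eu (Fin n)) {p : Fin M → ℝ} (hp : ∀ i, 1 ≤ p i)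
    {Φ : ∀ i, Eu (Fin (k i)) → ℝ} (h : ∀ i, Pow (p i) (Φ i)) :
    Bornology.IsBounded {x | bsum e Φ x ≤ 1} := by
  obtain ⟨c, hc, hlow⟩ := low e hp h
  refine (Metric.isBounded_iff_subset_closedBall 0).2 ⟨(1 + c) / c, fun x hx => ?_⟩
  rw [mem_closedBall_zero_iff, le_div_iff₀ hc]
  have h1 : bsum e Φ x ≤ 1 := hx
  have := hlow x
  linarith

theorem posK (e : (∀ i, Eu (Fin (k i))) ≃ₗ[ℝ] Eu (Fin n)) {p : Fin M → ℝ} (hp : ∀ i, 1 ≤ p i)
    {Φ : ∀ i, Eu (Fin (k i)) → ℝ} (h : ∀ i, Pow (p i) (Φ i)) :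
    0 < volume {x | bsum e Φ x ≤ 1} := by
  have h1 : IsOpen {x | bsum e Φ x < 1} := isOpen_lt (cont e h) continuous_const
  have h2 : (0 : Eu (Fin n)) ∈ {x | bsum e Φ x < 1} := by
    show bsum e Φ 0 < 1
    rw [zero e hp h]
    exact one_pos
  have h3 : {x : Eu (Fin n) | bsum e Φ x < 1} ⊆ {x | bsum e Φ x ≤ 1} :=
    fun x (hx : bsum e Φ x < 1) => hx.le
  exact (h1.measure_pos volume ⟨0, h2⟩).trans_le (measure_mono h3)

theorem bsum_flp (e : (∀ i, Eu (Fin (k i))) ≃ₗ[ℝ] Eu (Fin n)) {Φ : ∀ i, Eu (Fin (k i)) → ℝ}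
    (hev : ∀ i x, Φ i (-x) = Φ i x) (i : Fin M) (x : Eu (Fin n)) :
    bsum e Φ (flp e i x) = bsum e Φ x := by
  unfold bsum
  refine Finset.sum_congr rfl fun j _ => ?_
  rw [Pool.Agent.R27.RD.flp_apply, map_sub, map_smul, Pool.Agent.R27.RD.blk_apply,
    LinearEquiv.symm_apply_apply]
  by_cases hj : j = i
  · subst hj
    rw [Pi.sub_apply, Pi.smul_apply, Pi.single_eq_same]
    have e1 : e.symm x j - (2 : ℝ) • e.symm x j = -e.symm x j := by module
    rw [e1, hev]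
  · rw [Pi.sub_apply, Pi.smul_apply, Pi.single_eq_of_ne hj, smul_zero, sub_zero]

theorem bsum_neg (e : (∀ i, Eu (Fin (k i))) ≃ₗ[ℝ] Eu (Fin n)) {Φ : ∀ i, Eu (Fin (k i)) → ℝ}
    (hev : ∀ i x, Φ i (-x) = Φ i x) (x : Eu (Fin n)) : bsum e Φ (-x) = bsum e Φ x := by
  unfold bsum
  refine Finset.sum_congr rfl fun j _ => ?_
  rw [map_neg, Pi.neg_apply, hev]

theorem dil_eq (e : (∀ i, Eu (Fin (k i))) ≃ₗ[ℝ] Eu (Fin n)) (p : Fin M → ℝ) (r : ℝ)
    (x : Eu (Fin n)) : dil e p r x = ∑ i, r ^ (1 / p i) • blk e i x := by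
  have h1 : dil e p r x = e (fun i => r ^ (1 / p i) • e.symm x i) := rfl
  have h2 : ∀ i, r ^ (1 / p i) • blk e i x = e (Pi.single i (r ^ (1 / p i) • e.symm x i)) := by
    intro i
    rw [Pool.Agent.R27.RD.blk_apply, ← map_smul, ← Pi.single_smul]
  simp only [h2]
  rw [h1, ← map_sum, Finset.univ_sum_single]

theorem dil_mul (e : (∀ i, Eu (Fin (k i))) ≃ₗ[ℝ] Eu (Fin n)) (p : Fin M → ℝ) {a b : ℝ}
    (ha : 0 ≤ a) (hb : 0 ≤ b) (x : Eu (Fin n)) : dil e p a (dil e p b x) = dil e p (a * b) x := by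
  have h1 : ∀ r x, dil e p r x = e (fun i => r ^ (1 / p i) • e.symm x i) := fun _ _ => rfl
  rw [h1, h1, h1, LinearEquiv.symm_apply_apply]
  congr 1
  funext i
  rw [smul_smul, Real.mul_rpow ha hb]

theorem rpow_sq_le {t a : ℝ} (ht : 0 < t) (ha : 0 ≤ a) (ha1 : a ≤ 1) : (t ^ a) ^ 2 ≤ 1 + t ^ 2 := by
  have h0 : 0 ≤ t ^ a := Real.rpow_nonneg ht.le _
  rcases le_total t 1 with h | h
  · have h1 : t ^ a ≤ 1 := Real.rpow_le_one ht.le h ha
    nlinarith [sq_nonneg t]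
  · have h1 : t ^ a ≤ t := by
      calc t ^ a ≤ t ^ (1 : ℝ) := Real.rpow_le_rpow_of_exponent_le h ha1
        _ = t := Real.rpow_one t
    nlinarith

end RD

open Pool.Agent.R27.RD in
set_option maxHeartbeats 4000000 in
theorem rdm (hX : S_MXD) (hGM : S_GMM) : S_RDM := by
  intro δ κ hδ hκ
  obtain ⟨C, hC, hC'⟩ := hGM
  have hA : 0 < 1 + C := by linarith
  have hsA : 0 < Real.sqrt (1 + C) := Real.sqrt_pos.2 hA
  have hκ'0 : 0 < min (κ / Real.sqrt (1 + C)) (Real.sqrt (δ / (3 * C))) :=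
    lt_min (by positivity) (Real.sqrt_pos.2 (by positivity))
  refine ⟨min (κ / Real.sqrt (1 + C)) (Real.sqrt (δ / (3 * C))), hκ'0, ?_⟩
  obtain ⟨κ', hκ'⟩ : ∃ κ', κ' = min (κ / Real.sqrt (1 + C)) (Real.sqrt (δ / (3 * C))) := ⟨_, rfl⟩
  rw [← hκ'] at hκ'0 ⊢
  have hk1 : κ' * Real.sqrt (1 + C) ≤ κ := by
    have : κ' ≤ κ / Real.sqrt (1 + C) := hκ' ▸ min_le_left _ _
    rwa [le_div_iff₀ hsA] at this
  have hk2 : κ' ^ 2 * (3 * C) ≤ δ := by
    have h1 : κ' ≤ Real.sqrt (δ / (3 * C)) := hκ' ▸ min_le_right _ _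
    have h2 : κ' ^ 2 ≤ δ / (3 * C) := by
      calc κ' ^ 2 ≤ Real.sqrt (δ / (3 * C)) ^ 2 := pow_le_pow_left₀ hκ'0.le h1 2
        _ = _ := Real.sq_sqrt (by positivity)
    rwa [le_div_iff₀ (by positivity)] at h2
  intro M n k e Φ p hn hp hΦ hev hc
  -- the dimension
  have hsum : ∑ i, k i = n := by
    have := e.finrank_eq
    rw [Module.finrank_pi_fintype] at this
    simpa using this
  obtain ⟨m, hm⟩ : ∃ m, m = deg k p := ⟨_, rfl⟩
  have hm0 : 0 < m := by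
    rw [hm]
    unfold deg
    obtain ⟨i, hi⟩ : ∃ i, 0 < k i := by
      by_contra hcon
      push Not at hcon
      have : ∑ i, k i = 0 := Finset.sum_eq_zero fun i _ => Nat.le_zero.1 (hcon i)
      omega
    refine Finset.sum_pos' (fun j _ => ?_) ⟨i, Finset.mem_univ i, ?_⟩
    · have := hp j
      positivity
    · have := hp i
      have h3 : (0 : ℝ) < k i := by exact_mod_cast hi
      positivity
  obtain ⟨g1, g2, g3⟩ := hC' m hm0
  obtain ⟨R, hR⟩ : ∃ R, R = m + 1 := ⟨_, rfl⟩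
  have hR0 : 0 < R := by linarith
  obtain ⟨B, hBd⟩ : ∃ B, B = Real.Gamma (m + 1) := ⟨_, rfl⟩
  have hB : 0 < B := by rw [hBd]; exact Real.Gamma_pos_of_pos (by linarith)
  rw [← hBd, ← hR] at g2
  rw [← hBd] at g1
  rw [← hBd, ← hR] at g3
  -- the sets and the weights
  have hKm : MeasurableSet {x | bsum e Φ x ≤ 1} :=
    (isClosed_le (RD.cont e hΦ) continuous_const).measurableSet
  have hKb := RD.bddK e hp hΦ
  have hKa : Pool.Agent.Y506.RG.Adm (Pool.Agent.Y506.PV.ind {x | bsum e Φ x ≤ 1}) :=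
    Pool.Agent.Y427.PV.adm_ind hKm hKb (RD.posK e hp hΦ)
  have hKt : volume {x | bsum e Φ x ≤ 1} ≠ ⊤ := hKb.measure_lt_top.ne
  have hwa := RD.admW e hp hΦ
  -- the mixing measure
  have hβ : Measurable fun r : ℝ => ENNReal.ofReal (r ^ m * Real.exp (-r)) := by fun_prop
  obtain ⟨ρ, hρd⟩ : ∃ ρ : Measure ℝ, ρ = (volume.restrict (Ioi (0 : ℝ))).withDensity fun r : ℝ =>
      ENNReal.ofReal (r ^ m * Real.exp (-r)) := ⟨_, rfl⟩
  have hρi : ∀ F : ℝ → ℝ≥0∞, ∫⁻ r, F r ∂ρ =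
      ∫⁻ r in Ioi (0 : ℝ), ENNReal.ofReal (r ^ m * Real.exp (-r)) * F r := by
    intro F
    rw [hρd, lintegral_withDensity_eq_lintegral_mul_non_measurable _ hβ
      (Eventually.of_forall fun r => ENNReal.ofReal_lt_top)]
    rfl
  have hρae : ∀ᵐ r ∂ρ, 0 < r := by
    rw [hρd]
    exact (withDensity_absolutelyContinuous _ _).ae_le (ae_restrict_mem measurableSet_Ioi)
  have hρ : ρ univ = ENNReal.ofReal B := by
    rw [← lintegral_one, hρi]
    simp only [mul_one]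
    exact g1
  have hm3 : ∫⁻ r, ENNReal.ofReal ((r / R) ^ 2) ∂ρ ≤ ENNReal.ofReal (C * B) := by
    rw [hρi]
    refine (lintegral_congr fun r => ?_).trans_le g2
    exact mul_comm _ _
  have hm4 : ∀ a : ℝ, 0 < a → a ≤ 1 → ∫⁻ r, ENNReal.ofReal (((r / R) ^ a - 1) ^ 2) ∂ρ ≤
      ENNReal.ofReal (C * a ^ 2 / R * B) := by
    intro a ha ha1
    rw [hρi]
    refine (lintegral_congr fun r => ?_).trans_le (g3 a ha ha1)
    exact mul_comm _ _
  have mix : ∀ F : Eu (Fin n) → ℝ≥0∞, Measurable F →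
      ∫⁻ x, F x * ENNReal.ofReal (Real.exp (-bsum e Φ x)) =
      ∫⁻ r, (∫⁻ y in {x | bsum e Φ x ≤ 1}, F (dil e p r y)) ∂ρ := by
    intro F hF
    rw [hρi, hm]
    exact hX M n k e Φ p hp hΦ F hF
  intro d hd T s hs hT v hv hv1 hv2
  -- moments of the blocks
  have hinv : ∀ i x, Pool.Agent.Y506.PV.ind {x | bsum e Φ x ≤ 1} (flp e i x) =
      Pool.Agent.Y506.PV.ind {x | bsum e Φ x ≤ 1} x := by
    intro i x
    unfold Pool.Agent.Y506.PV.ind
    have : (flp e i x ∈ {x | bsum e Φ x ≤ 1}) = (x ∈ {x | bsum e Φ x ≤ 1}) := by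
      show (bsum e Φ (flp e i x) ≤ 1) = (bsum e Φ x ≤ 1)
      rw [RD.bsum_flp e hev]
    by_cases hx : x ∈ {x | bsum e Φ x ≤ 1}
    · rw [indicator_of_mem hx, indicator_of_mem (this ▸ hx)]
    · rw [indicator_of_notMem hx, indicator_of_notMem (this ▸ hx)]
  have hneg : ∀ x, Pool.Agent.Y506.PV.ind {x | bsum e Φ x ≤ 1} (LinearEquiv.neg ℝ x) =
      Pool.Agent.Y506.PV.ind {x | bsum e Φ x ≤ 1} x := by
    intro x
    unfold Pool.Agent.Y506.PV.ind
    have : ((LinearEquiv.neg ℝ x : Eu (Fin n)) ∈ {x | bsum e Φ x ≤ 1}) =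
        (x ∈ {x | bsum e Φ x ≤ 1}) := by
      show (bsum e Φ (-x) ≤ 1) = (bsum e Φ x ≤ 1)
      rw [RD.bsum_neg e hev]
    by_cases hx : x ∈ {x | bsum e Φ x ≤ 1}
    · rw [indicator_of_mem hx, indicator_of_mem (this ▸ hx)]
    · rw [indicator_of_notMem hx, indicator_of_notMem (this ▸ hx)]
  obtain ⟨W, hW⟩ : ∃ W, W = Pool.Agent.Y506.PV.ind {x | bsum e Φ x ≤ 1} := ⟨_, rfl⟩
  have hWa : Pool.Agent.Y506.RG.Adm W := hW ▸ hKa
  have hWinv : ∀ i x, W (flp e i x) = W x := hW ▸ hinv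
  have hmean : ∀ θ : Eu (Fin d), Pool.Agent.Y506.RG.EW W (fun x => ⟪T x, θ⟫_ℝ) = 0 := by
    intro θ
    have h1 := EW_flip (w := W) (LinearEquiv.neg ℝ) (fun x => neg_neg x) (hW ▸ hneg)
      (fun x => ⟪T x, θ⟫_ℝ)
    have h2 : (fun x : Eu (Fin n) => ⟪T (LinearEquiv.neg ℝ x), θ⟫_ℝ) =
        fun x => (-1) * ⟪T x, θ⟫_ℝ := by
      funext x
      rw [LinearEquiv.neg_apply, map_neg, inner_neg_left]
      ring
    rw [h2, Pool.Agent.Y506.RG.EW_const_mul] at h1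
    linarith
  have hTsq : ∀ θ : Eu (Fin d), Pool.Agent.Y506.RG.EW W (fun x => ⟪T x, θ⟫_ℝ ^ 2) ≤ s * ‖θ‖ ^ 2 := by
    intro θ
    have h1 := Pool.Agent.Y427.PV.VW_le_norm W T s (by
      intro θ hθ
      have := hT θ hθ
      rw [hW]
      exact this) θ
    unfold Pool.Agent.Y506.RG.VW at h1
    rw [hmean θ] at h1
    linarith
  have hone : ∀ x, (∑ i, (1 : ℝ) • (T ∘ₗ blk e i)) x = T x := by
    intro x
    rw [LinearMap.sum_apply]
    simp only [one_smul, LinearMap.comp_apply]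
    rw [← map_sum, blk_sum]
  have hsplit : ∀ θ : Eu (Fin d), Pool.Agent.Y506.RG.EW W (fun x => ⟪T x, θ⟫_ℝ ^ 2) =
      ∑ i, Pool.Agent.Y506.RG.EW W (fun x => ⟪T (blk e i x), θ⟫_ℝ ^ 2) := by
    intro θ
    have h1 := orth e hWa hWinv T (fun _ => 1) θ Finset.univ
    simp only [hone, one_pow, one_mul] at h1
    exact h1
  have hnn : ∀ i (θ : Eu (Fin d)),
      0 ≤ Pool.Agent.Y506.RG.EW W (fun x => ⟪T (blk e i x), θ⟫_ℝ ^ 2) :=
    fun i θ => Pool.Agent.Y506.RG.EW_nonneg hWa _ fun x => sq_nonneg _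
  have hblk : ∀ i (θ : Eu (Fin d)),
      Pool.Agent.Y506.RG.EW W (fun x => ⟪T (blk e i x), θ⟫_ℝ ^ 2) ≤ s * ‖θ‖ ^ 2 := by
    intro i θ
    refine le_trans ?_ (hTsq θ)
    rw [hsplit θ]
    exact Finset.single_le_sum (f := fun i => Pool.Agent.Y506.RG.EW W
      (fun x => ⟪T (blk e i x), θ⟫_ℝ ^ 2)) (fun j _ => hnn j θ) (Finset.mem_univ i)
  have hrk : ∀ i, Pool.Agent.Y506.RG.EW W (fun x => ‖T (blk e i x)‖ ^ 2) ≤ k i * s :=
    fun i => rank_bd e hWa T i s hs.le (hblk i)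
  -- the scaled map
  obtain ⟨T', hT'⟩ : ∃ T' : Eu (Fin n) →ₗ[ℝ] Eu (Fin d), T' = T ∘ₗ dil e p (1 / R) := ⟨_, rfl⟩
  have hscale : ∀ r : ℝ, 0 < r → ∀ x, T' (dil e p r x) =
      (∑ i, (r / R) ^ (1 / p i) • (T ∘ₗ blk e i)) x := by
    intro r hr x
    rw [hT', LinearMap.comp_apply, RD.dil_mul e p (by positivity) hr.le, RD.dil_eq, map_sum,
      LinearMap.sum_apply]
    refine Finset.sum_congr rfl fun i _ => ?_
    rw [map_smul, LinearMap.smul_apply, LinearMap.comp_apply]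
    congr 2
    ring
  obtain ⟨V, hV⟩ : ∃ V, V = volume {x | bsum e Φ x ≤ 1} := ⟨_, rfl⟩
  have hVI : ENNReal.ofReal (∫ x, W x) = V := by
    rw [ofReal_integral_eq_lintegral_ofReal hWa.one (Eventually.of_forall hWa.nonneg)]
    have := Pool.Agent.Y427.PV.ind_lint hKm (fun _ => 1)
    simp only [one_mul] at this
    rw [hW, this, setLIntegral_one, hV]
  have hlint : ∀ g : Eu (Fin n) → ℝ, (∀ x, 0 ≤ g x) → (Integrable fun x => g x * W x) →
      ∫⁻ y in {x | bsum e Φ x ≤ 1}, ENNReal.ofReal (g y) =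
        ENNReal.ofReal (Pool.Agent.Y506.RG.EW W g) * V := by
    intro g hg hi
    rw [← hVI, ← Pool.Agent.Y427.PV.lint_EW hWa g hg hi, hW,
      Pool.Agent.Y427.PV.ind_lint hKm]
  have hVt : V ≠ ⊤ := hV ▸ hKt
  refine core ρ {x | bsum e Φ x ≤ 1} (fun x => Real.exp (-bsum e Φ x)) (dil e p) B (1 + C) C κ κ' δ
    hB hA hC hκ'0 hδ hk1 hk2 hρ hKm hKt hKa hwa mix hc d hd T T' s hs ?_
    (fun r => ∑ i, ENNReal.ofReal (((r / R) ^ (1 / p i) - 1) ^ 2) * (ENNReal.ofReal (k i * s) * V))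
    ?_ ?_ ?_ v hv hv1 hv2
  · intro θ hθ
    rw [← hV]
    have h1 : ∀ᵐ r ∂ρ, ∫⁻ y in {x | bsum e Φ x ≤ 1}, ENNReal.ofReal (⟪T' (dil e p r y), θ⟫_ℝ ^ 2) ≤
        (1 + ENNReal.ofReal ((r / R) ^ 2)) * (ENNReal.ofReal s * V) := by
      filter_upwards [hρae] with r hr
      have ht : 0 < r / R := by positivity
      simp only [hscale r hr]
      rw [hlint _ (fun x => sq_nonneg _) (Pool.Agent.Y427.PV.lin_int hWa _ θ).2,
        orth e hWa hWinv T _ θ Finset.univ, ← mul_assoc]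
      refine mul_le_mul_left ?_ _
      rw [← ENNReal.ofReal_one, ← ENNReal.ofReal_add zero_le_one (by positivity),
        ← ENNReal.ofReal_mul (by positivity)]
      refine ENNReal.ofReal_le_ofReal ?_
      calc ∑ i, ((r / R) ^ (1 / p i)) ^ 2 *
            Pool.Agent.Y506.RG.EW W (fun x => ⟪T (blk e i x), θ⟫_ℝ ^ 2)
          ≤ ∑ i, (1 + (r / R) ^ 2) *
            Pool.Agent.Y506.RG.EW W (fun x => ⟪T (blk e i x), θ⟫_ℝ ^ 2) := by
            refine Finset.sum_le_sum fun i _ => mul_le_mul_of_nonneg_right ?_ (hnn i θ)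
            have hpi := hp i
            refine RD.rpow_sq_le ht (by positivity) ?_
            rw [div_le_one (by linarith)]
            exact hpi
        _ = (1 + (r / R) ^ 2) * Pool.Agent.Y506.RG.EW W (fun x => ⟪T x, θ⟫_ℝ ^ 2) := by
            rw [hsplit θ, Finset.mul_sum]
        _ ≤ (1 + (r / R) ^ 2) * s := by
            refine mul_le_mul_of_nonneg_left ?_ (by positivity)
            have := hTsq θ
            rw [hθ] at this
            linarith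
    refine (lintegral_mono_ae h1).trans ?_
    rw [lintegral_mul_const' _ _ (ENNReal.mul_ne_top ENNReal.ofReal_ne_top hVt),
      lintegral_add_left measurable_const, lintegral_const, hρ, one_mul]
    calc (ENNReal.ofReal B + ∫⁻ r, ENNReal.ofReal ((r / R) ^ 2) ∂ρ) * (ENNReal.ofReal s * V)
        ≤ (ENNReal.ofReal B + ENNReal.ofReal (C * B)) * (ENNReal.ofReal s * V) :=
          mul_le_mul_left (add_le_add le_rfl hm3) _
      _ = ENNReal.ofReal ((1 + C) * s) * (ENNReal.ofReal B * V) := by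
          rw [← mul_assoc, ← mul_assoc, ← ENNReal.ofReal_add hB.le (by positivity),
            ← ENNReal.ofReal_mul (by positivity), ← ENNReal.ofReal_mul (by positivity)]
          congr 2
          ring
  · refine Finset.measurable_sum _ fun i _ => Measurable.mul_const ?_ _
    fun_prop
  · filter_upwards [hρae] with r hr
    have h2 : ∀ y, T y - T' (dil e p r y) =
        (∑ i, (1 - (r / R) ^ (1 / p i)) • (T ∘ₗ blk e i)) y := by
      intro y
      rw [hscale r hr, ← hone y, ← LinearMap.sub_apply, ← Finset.sum_sub_distrib]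
      congr 1
      refine Finset.sum_congr rfl fun i _ => ?_
      rw [sub_smul]
    simp only [h2]
    rw [hlint _ (fun x => sq_nonneg _) (norm_int hWa _), orth_norm e hWa hWinv T]
    rw [ENNReal.ofReal_sum_of_nonneg (fun i _ => mul_nonneg (sq_nonneg _)
      (Pool.Agent.Y506.RG.EW_nonneg hWa _ fun x => sq_nonneg _)), Finset.sum_mul]
    refine Finset.sum_le_sum fun i _ => ?_
    rw [ENNReal.ofReal_mul (sq_nonneg _), mul_assoc]
    have e1 : (1 - (r / R) ^ (1 / p i)) ^ 2 = ((r / R) ^ (1 / p i) - 1) ^ 2 := by ring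
    rw [e1]
    exact mul_le_mul_right (mul_le_mul_left (ENNReal.ofReal_le_ofReal (hrk i)) _) _
  · rw [lintegral_finsetSum _ fun i _ => Measurable.mul_const (by fun_prop) _, ← hV]
    have h3 : ∀ i, ∫⁻ r, ENNReal.ofReal (((r / R) ^ (1 / p i) - 1) ^ 2) *
        (ENNReal.ofReal (k i * s) * V) ∂ρ ≤
        ENNReal.ofReal (C * (1 / p i) ^ 2 / R * B * (k i * s)) * V := by
      intro i
      have hpi := hp i
      rw [lintegral_mul_const' _ _ (ENNReal.mul_ne_top ENNReal.ofReal_ne_top hVt)]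
      refine (mul_le_mul_left (hm4 (1 / p i) (by positivity) (by
        rw [div_le_one (by linarith)]; exact hpi)) _).trans (le_of_eq ?_)
      rw [← mul_assoc, ← ENNReal.ofReal_mul (by positivity)]
    refine (Finset.sum_le_sum fun i _ => h3 i).trans ?_
    rw [← Finset.sum_mul, ← ENNReal.ofReal_sum_of_nonneg (fun i _ => by positivity), ← mul_assoc,
      ← ENNReal.ofReal_mul (by positivity)]
    refine mul_le_mul_left (ENNReal.ofReal_le_ofReal ?_) _
    have h4 : ∀ i, C * (1 / p i) ^ 2 / R * B * (k i * s) ≤ (C * B * s / R) * ((k i : ℝ) / p i) := by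
      intro i
      have hpi := hp i
      have hp0 : 0 < p i := by linarith
      have h5 : (1 / p i) ^ 2 ≤ 1 / p i := by
        have h6 : 1 / p i ≤ 1 := by rw [div_le_one hp0]; exact hpi
        have h7 : 0 ≤ 1 / p i := by positivity
        nlinarith
      calc C * (1 / p i) ^ 2 / R * B * (k i * s) = (C * B * s / R * k i) * (1 / p i) ^ 2 := by ring
        _ ≤ (C * B * s / R * k i) * (1 / p i) := mul_le_mul_of_nonneg_left h5 (by positivity)
        _ = _ := by ring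
    refine (Finset.sum_le_sum fun i _ => h4 i).trans ?_
    rw [← Finset.mul_sum]
    have h8 : ∑ i, (k i : ℝ) / p i = m := by rw [hm]; rfl
    rw [h8]
    have h9 : m / R ≤ 1 := by rw [div_le_one hR0]; linarith
    calc C * B * s / R * m = (C * B * s) * (m / R) := by ring
      _ ≤ (C * B * s) * 1 := mul_le_mul_of_nonneg_left h9 (by positivity)
      _ = C * s * B := by ring

end Pool.Agent.R751.MB
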