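import Pool.Agent.R751.MB.Stm

/-!
MB-TEN: tensorisation of the Poincare inequality `AP`.
-/

set_option autoImplicit false
set_option linter.unusedSectionVars false

namespace Pool.Agent.R751.MB

open MeasureTheory Set Filter Topology
open scoped ENNReal InnerProductSpace Pointwise

namespace Ten

variable {κ₁ κ₂ κ₃ : Type} [Fintype κ₁] [Fintype κ₂] [Fintype κ₃]

/-- the normalised measure with density `w` -/
noncomputable def mu (w : Eu κ₁ → ℝ) : Measure (Eu κ₁) :=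
  volume.withDensity fun x => ENNReal.ofReal (w x / ∫ y, w y)

theorem dens_meas {w : Eu κ₁ → ℝ} (h : Adm w) :
    Measurable fun x => ENNReal.ofReal (w x / ∫ y, w y) :=
  (h.meas.div_const _).ennreal_ofReal

theorem dens_toReal {w : Eu κ₁ → ℝ} (h : Adm w) (x : Eu κ₁) :
    (ENNReal.ofReal (w x / ∫ y, w y)).toReal = w x / ∫ y, w y :=
  ENNReal.toReal_ofReal (div_nonneg (h.nonneg x) h.pos.le)

theorem int_w {w : Eu κ₁ → ℝ} (h : Adm w) : Integrable w := by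
  refine h.int.mono' h.meas.aestronglyMeasurable (Eventually.of_forall fun x => ?_)
  rw [Real.norm_of_nonneg (h.nonneg x)]
  have := mul_nonneg (sq_nonneg ‖x‖) (h.nonneg x)
  linarith

theorem mu_integral {w : Eu κ₁ → ℝ} (h : Adm w) (v : Eu κ₁ → ℝ) :
    ∫ x, v x ∂(mu w) = EW w v := by
  rw [mu, integral_withDensity_eq_integral_toReal_smul (dens_meas h)
    (Eventually.of_forall fun x => ENNReal.ofReal_lt_top), EW, ← integral_div]
  refine integral_congr_ae (Eventually.of_forall fun x => ?_)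
  simp only [dens_toReal h, smul_eq_mul]
  ring

theorem mu_prob {w : Eu κ₁ → ℝ} (h : Adm w) : IsProbabilityMeasure (mu w) := by
  constructor
  rw [mu, withDensity_apply _ MeasurableSet.univ, Measure.restrict_univ,
    ← ofReal_integral_eq_lintegral_ofReal ((int_w h).div_const _)
      (Eventually.of_forall fun x => div_nonneg (h.nonneg x) h.pos.le),
    integral_div, div_self h.pos.ne', ENNReal.ofReal_one]

theorem mu_integrable {w : Eu κ₁ → ℝ} (h : Adm w) {v : Eu κ₁ → ℝ} (hv : Continuous v) {C : ℝ}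
    (hC : ∀ x, |v x| ≤ C * (1 + ‖x‖ ^ 2)) : Integrable v (mu w) := by
  rw [mu, integrable_withDensity_iff_integrable_smul' (dens_meas h)
    (Eventually.of_forall fun x => ENNReal.ofReal_lt_top)]
  refine ((h.int.const_mul C).div_const (∫ y, w y)).mono'
    ((dens_meas h).ennreal_toReal.aestronglyMeasurable.smul hv.aestronglyMeasurable)
    (Eventually.of_forall fun x => ?_)
  rw [dens_toReal h, norm_smul, Real.norm_of_nonneg (div_nonneg (h.nonneg x) h.pos.le),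
    Real.norm_eq_abs, div_mul_eq_mul_div]
  refine div_le_div_of_nonneg_right ?_ h.pos.le
  have := mul_le_mul_of_nonneg_left (hC x) (h.nonneg x)
  linarith

/-- change of variables -/
theorem haar (e : (Eu κ₁ × Eu κ₂) ≃L[ℝ] Eu κ₃) : ∃ c : ℝ, 0 < c ∧
    (∀ G : Eu κ₃ → ℝ, ∫ z, G z = c * ∫ p, G (e p) ∂((volume : Measure (Eu κ₁)).prod
      (volume : Measure (Eu κ₂)))) ∧
    ∀ G : Eu κ₃ → ℝ, Integrable (fun p => G (e p)) ((volume : Measure (Eu κ₁)).prod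
      (volume : Measure (Eu κ₂))) → Integrable G := by
  set ν : Measure (Eu κ₁ × Eu κ₂) := (volume : Measure (Eu κ₁)).prod (volume : Measure (Eu κ₂))
  have : (Measure.map e ν).IsAddHaarMeasure := e.isAddHaarMeasure_map ν
  have h := Measure.isAddLeftInvariant_eq_smul (volume : Measure (Eu κ₃)) (Measure.map e ν)
  have hpos := Measure.addHaarScalarFactor_pos_of_isAddHaarMeasure (volume : Measure (Eu κ₃))
    (Measure.map e ν)
  set c := Measure.addHaarScalarFactor (volume : Measure (Eu κ₃)) (Measure.map e ν)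
  have he : MeasurableEmbedding e := e.toHomeomorph.measurableEmbedding
  refine ⟨(c : ℝ), by exact_mod_cast hpos, fun G => ?_, fun G hG => ?_⟩
  · conv_lhs => rw [h]
    rw [integral_smul_nnreal_measure, he.integral_map]
    rfl
  · rw [h]
    apply Integrable.smul_measure_nnreal
    rwa [he.integrable_map_iff]

/-- the product weight -/
noncomputable def W (e : (Eu κ₁ × Eu κ₂) ≃L[ℝ] Eu κ₃) (w : Eu κ₁ → ℝ) (u : Eu κ₂ → ℝ) :
    Eu κ₃ → ℝ := fun z => w (e.symm z).1 * u (e.symm z).2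

theorem W_e (e : (Eu κ₁ × Eu κ₂) ≃L[ℝ] Eu κ₃) (w : Eu κ₁ → ℝ) (u : Eu κ₂ → ℝ)
    (p : Eu κ₁ × Eu κ₂) : W e w u (e p) = w p.1 * u p.2 := by
  rw [W, e.symm_apply_apply]

theorem adm_W (e : (Eu κ₁ × Eu κ₂) ≃L[ℝ] Eu κ₃) {w : Eu κ₁ → ℝ} {u : Eu κ₂ → ℝ} (hw : Adm w)
    (hu : Adm u) : Adm (W e w u) where
  nonneg z := mul_nonneg (hw.nonneg _) (hu.nonneg _)
  meas := (hw.meas.comp (measurable_fst.comp e.symm.continuous.measurable)).mul
    (hu.meas.comp (measurable_snd.comp e.symm.continuous.measurable))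
  int := by
    obtain ⟨c, hc, h1, h2⟩ := haar e
    apply h2
    simp only [W_e]
    set N := ‖(e : (Eu κ₁ × Eu κ₂) →L[ℝ] Eu κ₃)‖
    have hm : AEStronglyMeasurable (fun p : Eu κ₁ × Eu κ₂ => (1 + ‖e p‖ ^ 2) * (w p.1 * u p.2))
        ((volume : Measure (Eu κ₁)).prod (volume : Measure (Eu κ₂))) := by
      have m1 : Measurable fun p : Eu κ₁ × Eu κ₂ => (1 + ‖e p‖ ^ 2) :=
        (continuous_const.add ((e.continuous.norm).pow 2)).measurable
      exact (m1.mul ((hw.meas.comp measurable_fst).mul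
        (hu.meas.comp measurable_snd))).aestronglyMeasurable
    refine ((hw.int.mul_prod hu.int).const_mul (1 + N ^ 2)).mono' hm
      (Eventually.of_forall fun p => ?_)
    have a1 : 0 ≤ w p.1 * u p.2 := mul_nonneg (hw.nonneg _) (hu.nonneg _)
    rw [Real.norm_of_nonneg (mul_nonneg (by positivity) a1)]
    have a2 : ‖e p‖ ≤ N * ‖p‖ := (e : (Eu κ₁ × Eu κ₂) →L[ℝ] Eu κ₃).le_opNorm p
    have a3 : ‖p‖ ^ 2 ≤ ‖p.1‖ ^ 2 + ‖p.2‖ ^ 2 := by
      rw [Prod.norm_def]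
      rcases max_cases ‖p.1‖ ‖p.2‖ with ⟨h, _⟩ | ⟨h, _⟩ <;> rw [h] <;> nlinarith [sq_nonneg ‖p.1‖, sq_nonneg ‖p.2‖]
    have a4 : ‖e p‖ ^ 2 ≤ N ^ 2 * (‖p.1‖ ^ 2 + ‖p.2‖ ^ 2) := by
      calc ‖e p‖ ^ 2 ≤ (N * ‖p‖) ^ 2 := pow_le_pow_left₀ (norm_nonneg _) a2 2
        _ = N ^ 2 * ‖p‖ ^ 2 := by ring
        _ ≤ _ := mul_le_mul_of_nonneg_left a3 (sq_nonneg _)
    have a5 : 1 + ‖e p‖ ^ 2 ≤ (1 + N ^ 2) * ((1 + ‖p.1‖ ^ 2) * (1 + ‖p.2‖ ^ 2)) := by
      have b1 := sq_nonneg ‖p.1‖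
      have b2 := sq_nonneg ‖p.2‖
      have b3 := sq_nonneg N
      nlinarith [mul_nonneg b1 b2, mul_nonneg b3 (mul_nonneg b1 b2)]
    calc (1 + ‖e p‖ ^ 2) * (w p.1 * u p.2) ≤
        ((1 + N ^ 2) * ((1 + ‖p.1‖ ^ 2) * (1 + ‖p.2‖ ^ 2))) * (w p.1 * u p.2) :=
          mul_le_mul_of_nonneg_right a5 a1
      _ = _ := by ring
  pos := by
    obtain ⟨c, hc, h1, h2⟩ := haar e
    rw [h1]
    simp only [W_e]
    rw [integral_prod_mul]
    exact mul_pos hc (mul_pos hw.pos hu.pos)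

theorem EW_W (e : (Eu κ₁ × Eu κ₂) ≃L[ℝ] Eu κ₃) {w : Eu κ₁ → ℝ} {u : Eu κ₂ → ℝ} (hw : Adm w)
    (hu : Adm u) (G : Eu κ₃ → ℝ) :
    EW (W e w u) G = ∫ p, G (e p) ∂((mu w).prod (mu u)) := by
  have := mu_prob hw
  have := mu_prob hu
  obtain ⟨c, hc, h1, h2⟩ := haar e
  have md : Measurable fun z : Eu κ₁ × Eu κ₂ => ENNReal.ofReal (w z.1 / ∫ (y : Eu κ₁), w y) *
      ENNReal.ofReal (u z.2 / ∫ (y : Eu κ₂), u y) :=
    ((dens_meas hw).comp measurable_fst).mul ((dens_meas hu).comp measurable_snd)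
  rw [mu, mu, prod_withDensity (dens_meas hw) (dens_meas hu),
    integral_withDensity_eq_integral_toReal_smul md
      (Eventually.of_forall fun x => ENNReal.mul_lt_top ENNReal.ofReal_lt_top
        ENNReal.ofReal_lt_top), EW, h1, h1, mul_div_mul_left _ _ hc.ne']
  simp only [W_e]
  rw [integral_prod_mul, ← integral_div]
  refine integral_congr_ae (Eventually.of_forall fun x => ?_)
  simp only [ENNReal.toReal_mul, dens_toReal hw, dens_toReal hu, smul_eq_mul]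
  have i1 := hw.pos.ne'
  have i2 := hu.pos.ne'
  field_simp

section prob

variable {X Y : Type} [MeasurableSpace X] [MeasurableSpace Y]

theorem ib {μ : Measure X} [IsProbabilityMeasure μ] {G : X → ℝ} (hG : Measurable G) {C : ℝ}
    (hC : ∀ x, |G x| ≤ C) : Integrable G μ :=
  Integrable.of_bound hG.aestronglyMeasurable C (Eventually.of_forall hC)

theorem abs_int {μ : Measure X} [IsProbabilityMeasure μ] {G : X → ℝ} {C : ℝ}
    (hC : ∀ x, |G x| ≤ C) : |∫ x, G x ∂μ| ≤ C := by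
  have := norm_integral_le_of_norm_le_const (μ := μ) (f := G) (C := C) (Eventually.of_forall hC)
  simpa using this

theorem var_prod (μ : Measure X) (ν : Measure Y) [IsProbabilityMeasure μ]
    [IsProbabilityMeasure ν] (F : X × Y → ℝ) (hF : Measurable F) (B : ℝ) (hB : ∀ p, |F p| ≤ B) :
    ∫ p, F p ^ 2 ∂(μ.prod ν) - (∫ p, F p ∂(μ.prod ν)) ^ 2 ≤
      (∫ y, (∫ x, F (x, y) ^ 2 ∂μ - (∫ x, F (x, y) ∂μ) ^ 2) ∂ν) +
      ∫ x, (∫ y, F (x, y) ^ 2 ∂ν - (∫ y, F (x, y) ∂ν) ^ 2) ∂μ := by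
  have hB0 : 0 ≤ B ∨ IsEmpty (X × Y) := by
    by_cases h : Nonempty (X × Y)
    · obtain ⟨p⟩ := h
      exact Or.inl ((abs_nonneg _).trans (hB p))
    · exact Or.inr (not_nonempty_iff.1 h)
  rcases hB0 with hB0 | hemp
  swap
  · have h1 : μ.prod ν = 0 := Measure.eq_zero_of_isEmpty _
    have h2 : (μ.prod ν) univ = 1 := measure_univ
    rw [h1] at h2
    simp at h2
  set P := μ.prod ν with hP
  set a : Y → ℝ := fun y => ∫ x, F (x, y) ∂μ with ha
  set b : X → ℝ := fun x => ∫ y, F (x, y) ∂ν with hb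
  set m : ℝ := ∫ p, F p ∂P with hm
  have ma : Measurable a := (hF.stronglyMeasurable.integral_prod_left').measurable
  have mb : Measurable b := (hF.stronglyMeasurable.integral_prod_right').measurable
  have Ba : ∀ y, |a y| ≤ B := fun y => abs_int fun x => hB _
  have Bb : ∀ x, |b x| ≤ B := fun x => abs_int fun y => hB _
  have mF2 : Measurable fun p => F p ^ 2 := hF.pow_const 2
  have sq_le : ∀ t : ℝ, |t| ≤ B → |t ^ 2| ≤ B ^ 2 := fun t ht => by
    rw [abs_pow]; exact pow_le_pow_left₀ (abs_nonneg t) ht 2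
  have mul_le : ∀ s t : ℝ, |s| ≤ B → |t| ≤ B → |s * t| ≤ B * B := fun s t hs ht => by
    rw [abs_mul]; exact mul_le_mul hs ht (abs_nonneg _) hB0
  have iF : Integrable F P := ib hF hB
  have iF2 : Integrable (fun p => F p ^ 2) P := ib mF2 fun p => sq_le _ (hB p)
  have iFa : Integrable (fun p : X × Y => F p * a p.2) P :=
    ib (hF.mul (ma.comp measurable_snd)) fun p => mul_le _ _ (hB p) (Ba _)
  have iFb : Integrable (fun p : X × Y => F p * b p.1) P :=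
    ib (hF.mul (mb.comp measurable_fst)) fun p => mul_le _ _ (hB p) (Bb _)
  have iba : Integrable (fun p : X × Y => b p.1 * a p.2) P :=
    ib ((mb.comp measurable_fst).mul (ma.comp measurable_snd)) fun p => mul_le _ _ (Bb _) (Ba _)
  have ia : Integrable (fun p : X × Y => a p.2) P := ib (ma.comp measurable_snd) fun p => Ba _
  have ib' : Integrable (fun p : X × Y => b p.1) P := ib (mb.comp measurable_fst) fun p => Bb _
  have ia2 : Integrable (fun p : X × Y => a p.2 ^ 2) P :=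
    ib ((ma.comp measurable_snd).pow_const 2) fun p => sq_le _ (Ba _)
  have ib2 : Integrable (fun p : X × Y => b p.1 ^ 2) P :=
    ib ((mb.comp measurable_fst).pow_const 2) fun p => sq_le _ (Bb _)
  have E1 : ∫ p, F p * a p.2 ∂P = ∫ y, a y ^ 2 ∂ν := by
    rw [hP, integral_prod_symm _ iFa]
    refine integral_congr_ae (Eventually.of_forall fun y => ?_)
    simp only
    rw [integral_mul_const, sq]
  have E2 : ∫ p, F p * b p.1 ∂P = ∫ x, b x ^ 2 ∂μ := by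
    rw [hP, integral_prod _ iFb]
    refine integral_congr_ae (Eventually.of_forall fun x => ?_)
    simp only
    rw [integral_mul_const, sq]
  have Em1 : ∫ y, a y ∂ν = m := by rw [hm, hP, integral_prod_symm _ iF]
  have Em2 : ∫ x, b x ∂μ = m := by rw [hm, hP, integral_prod _ iF]
  have E3 : ∫ p : X × Y, a p.2 ^ 2 ∂P = ∫ y, a y ^ 2 ∂ν := by
    rw [hP, integral_prod_symm _ ia2]; simp
  have E4 : ∫ p : X × Y, b p.1 ^ 2 ∂P = ∫ x, b x ^ 2 ∂μ := by
    rw [hP, integral_prod _ ib2]; simp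
  have E5 : ∫ p : X × Y, b p.1 * a p.2 ∂P = m * m := by
    rw [hP, integral_prod_mul (fun x => b x) (fun y => a y), Em1, Em2]
  have E6 : ∫ p : X × Y, a p.2 ∂P = m := by
    rw [hP, integral_prod_symm _ ia]; simp [Em1]
  have E7 : ∫ p : X × Y, b p.1 ∂P = m := by
    rw [hP, integral_prod _ ib']; simp [Em2]
  have key : 0 ≤ ∫ p : X × Y, (F p - a p.2 - b p.1 + m) ^ 2 ∂P :=
    integral_nonneg fun p => sq_nonneg _
  have e : ∀ p : X × Y, (F p - a p.2 - b p.1 + m) ^ 2 = F p ^ 2 + a p.2 ^ 2 + b p.1 ^ 2 + m ^ 2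
      - 2 * (F p * a p.2) - 2 * (F p * b p.1) + (2 * m) * F p + 2 * (b p.1 * a p.2)
      - (2 * m) * a p.2 - (2 * m) * b p.1 := fun p => by ring
  have ic : Integrable (fun _ : X × Y => m ^ 2) P := integrable_const _
  simp only [e] at key
  have j1 : Integrable (fun p : X × Y => F p ^ 2 + a p.2 ^ 2) P := iF2.add ia2
  have j2 : Integrable (fun p : X × Y => F p ^ 2 + a p.2 ^ 2 + b p.1 ^ 2) P := j1.add ib2
  have j3 : Integrable (fun p : X × Y => F p ^ 2 + a p.2 ^ 2 + b p.1 ^ 2 + m ^ 2) P := j2.add ic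
  have j4 : Integrable (fun p : X × Y => F p ^ 2 + a p.2 ^ 2 + b p.1 ^ 2 + m ^ 2
      - 2 * (F p * a p.2)) P := j3.sub (iFa.const_mul 2)
  have j5 : Integrable (fun p : X × Y => F p ^ 2 + a p.2 ^ 2 + b p.1 ^ 2 + m ^ 2
      - 2 * (F p * a p.2) - 2 * (F p * b p.1)) P := j4.sub (iFb.const_mul 2)
  have j6 : Integrable (fun p : X × Y => F p ^ 2 + a p.2 ^ 2 + b p.1 ^ 2 + m ^ 2
      - 2 * (F p * a p.2) - 2 * (F p * b p.1) + (2 * m) * F p) P := j5.add (iF.const_mul (2 * m))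
  have j7 : Integrable (fun p : X × Y => F p ^ 2 + a p.2 ^ 2 + b p.1 ^ 2 + m ^ 2
      - 2 * (F p * a p.2) - 2 * (F p * b p.1) + (2 * m) * F p + 2 * (b p.1 * a p.2)) P :=
    j6.add (iba.const_mul 2)
  have j8 : Integrable (fun p : X × Y => F p ^ 2 + a p.2 ^ 2 + b p.1 ^ 2 + m ^ 2
      - 2 * (F p * a p.2) - 2 * (F p * b p.1) + (2 * m) * F p + 2 * (b p.1 * a p.2)
      - (2 * m) * a p.2) P := j7.sub (ia.const_mul (2 * m))
  rw [integral_sub j8 (ib'.const_mul (2 * m)), integral_sub j7 (ia.const_mul (2 * m)),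
    integral_add j6 (iba.const_mul 2), integral_add j5 (iF.const_mul (2 * m)),
    integral_sub j4 (iFb.const_mul 2), integral_sub j3 (iFa.const_mul 2),
    integral_add j2 ic, integral_add j1 ib2, integral_add iF2 ia2] at key
  simp only [integral_const_mul, integral_const, E1, E2, E3, E4, E5, E6, E7, ← hm] at key
  have hu : P.real univ = 1 := by simp [Measure.real, hP]
  rw [hu, one_smul] at key
  have R1 : ∫ y, (∫ x, F (x, y) ^ 2 ∂μ - (∫ x, F (x, y) ∂μ) ^ 2) ∂ν =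
      ∫ p, F p ^ 2 ∂P - ∫ y, a y ^ 2 ∂ν := by
    rw [integral_sub, hP, integral_prod_symm _ iF2]
    · exact iF2.integral_prod_right
    · exact ib (ma.pow_const 2) fun y => sq_le _ (Ba y)
  have R2 : ∫ x, (∫ y, F (x, y) ^ 2 ∂ν - (∫ y, F (x, y) ∂ν) ^ 2) ∂μ =
      ∫ p, F p ^ 2 ∂P - ∫ x, b x ^ 2 ∂μ := by
    rw [integral_sub, hP, integral_prod _ iF2]
    · exact iF2.integral_prod_left
    · exact ib (mb.pow_const 2) fun x => sq_le _ (Bb x)
  rw [R1, R2]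
  nlinarith [key]

end prob

/-- the orthogonal sum -/
theorem exists_j (e : (Eu κ₁ × Eu κ₂) ≃ₗ[ℝ] Eu κ₃) :
    Nonempty (WithLp 2 (Eu κ₁ × Eu κ₂) ≃ₗᵢ[ℝ] Eu κ₃) := by
  have h : Module.finrank ℝ (WithLp 2 (Eu κ₁ × Eu κ₂)) = Module.finrank ℝ (Eu κ₃) :=
    LinearEquiv.finrank_eq ((WithLp.linearEquiv 2 ℝ (Eu κ₁ × Eu κ₂)).trans e)
  exact ⟨(stdOrthonormalBasis ℝ (WithLp 2 (Eu κ₁ × Eu κ₂))).equiv (stdOrthonormalBasis ℝ (Eu κ₃))
    (finCongr h)⟩

section iso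

variable (j : WithLp 2 (Eu κ₁ × Eu κ₂) ≃ₗᵢ[ℝ] Eu κ₃)

/-- the isometry on the product space -/
noncomputable def JJ : (Eu κ₁ × Eu κ₂) ≃L[ℝ] Eu κ₃ :=
  (WithLp.prodContinuousLinearEquiv 2 ℝ (Eu κ₁) (Eu κ₂)).symm.trans j.toContinuousLinearEquiv

theorem JJ_apply (x : Eu κ₁) (y : Eu κ₂) : JJ j (x, y) = j (WithLp.toLp 2 (x, y)) := rfl

theorem inner_JJ (x : Eu κ₁) (y : Eu κ₂) (θ : Eu κ₃) :
    ⟪JJ j (x, y), θ⟫_ℝ = ⟪x, (j.symm θ).fst⟫_ℝ + ⟪y, (j.symm θ).snd⟫_ℝ := by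
  have h1 : ⟪JJ j (x, y), θ⟫_ℝ = ⟪WithLp.toLp 2 (x, y), j.symm θ⟫_ℝ := by
    rw [JJ_apply, ← j.inner_map_map, j.apply_symm_apply]
  rw [h1, WithLp.prod_inner_apply]
  rfl

theorem norm_symm (θ : Eu κ₃) : ‖(j.symm θ).fst‖ ^ 2 + ‖(j.symm θ).snd‖ ^ 2 = ‖θ‖ ^ 2 := by
  rw [← WithLp.prod_norm_sq_eq_of_L2, j.symm.norm_map]

theorem grad (D : Eu κ₃ →L[ℝ] ℝ) :
    ‖D.comp ((JJ j : (Eu κ₁ × Eu κ₂) →L[ℝ] Eu κ₃).comp (ContinuousLinearMap.inl ℝ _ _))‖ ^ 2 +
    ‖D.comp ((JJ j : (Eu κ₁ × Eu κ₂) →L[ℝ] Eu κ₃).comp (ContinuousLinearMap.inr ℝ _ _))‖ ^ 2 ≤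
      ‖D‖ ^ 2 := by
  set p := (InnerProductSpace.toDual ℝ (Eu κ₃)).symm D with hp
  have hD : ∀ z, D z = ⟪z, p⟫_ℝ := fun z => by
    rw [real_inner_comm, hp, InnerProductSpace.toDual_symm_apply]
  have hn : ‖D‖ = ‖p‖ := ((InnerProductSpace.toDual ℝ (Eu κ₃)).symm.norm_map D).symm
  rw [hn, ← norm_symm j p]
  refine add_le_add (pow_le_pow_left₀ (norm_nonneg _) ?_ 2) (pow_le_pow_left₀ (norm_nonneg _) ?_ 2)
  · refine ContinuousLinearMap.opNorm_le_bound _ (norm_nonneg _) fun x => ?_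
    have : (D.comp ((JJ j : (Eu κ₁ × Eu κ₂) →L[ℝ] Eu κ₃).comp
        (ContinuousLinearMap.inl ℝ _ _))) x = ⟪x, (j.symm p).fst⟫_ℝ := by
      show D (JJ j (x, 0)) = _
      rw [hD, inner_JJ, inner_zero_left, add_zero]
    rw [this, mul_comm]
    exact norm_inner_le_norm _ _
  · refine ContinuousLinearMap.opNorm_le_bound _ (norm_nonneg _) fun x => ?_
    have : (D.comp ((JJ j : (Eu κ₁ × Eu κ₂) →L[ℝ] Eu κ₃).comp
        (ContinuousLinearMap.inr ℝ _ _))) x = ⟪x, (j.symm p).snd⟫_ℝ := by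
      show D (JJ j (0, x)) = _
      rw [hD, inner_JJ, inner_zero_left, zero_add]
    rw [this, mul_comm]
    exact norm_inner_le_norm _ _

theorem fd1 {f : Eu κ₃ → ℝ} (hf : ContDiff ℝ 1 f) (x : Eu κ₁) (y : Eu κ₂) :
    fderiv ℝ (fun x' => f (JJ j (x', y))) x = (fderiv ℝ f (JJ j (x, y))).comp
      ((JJ j : (Eu κ₁ × Eu κ₂) →L[ℝ] Eu κ₃).comp (ContinuousLinearMap.inl ℝ _ _)) := by
  have h1 : HasFDerivAt f (fderiv ℝ f (JJ j (x, y))) (JJ j (x, y)) :=
    (hf.differentiable one_ne_zero _).hasFDerivAt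
  have h2 : HasFDerivAt (fun x' => JJ j (x', y))
      ((JJ j : (Eu κ₁ × Eu κ₂) →L[ℝ] Eu κ₃).comp (ContinuousLinearMap.inl ℝ _ _)) x :=
    (JJ j : (Eu κ₁ × Eu κ₂) →L[ℝ] Eu κ₃).hasFDerivAt.comp x (hasFDerivAt_prodMk_left x y)
  exact (h1.comp x h2).fderiv

theorem fd2 {f : Eu κ₃ → ℝ} (hf : ContDiff ℝ 1 f) (x : Eu κ₁) (y : Eu κ₂) :
    fderiv ℝ (fun y' => f (JJ j (x, y'))) y = (fderiv ℝ f (JJ j (x, y))).comp
      ((JJ j : (Eu κ₁ × Eu κ₂) →L[ℝ] Eu κ₃).comp (ContinuousLinearMap.inr ℝ _ _)) := by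
  have h1 : HasFDerivAt f (fderiv ℝ f (JJ j (x, y))) (JJ j (x, y)) :=
    (hf.differentiable one_ne_zero _).hasFDerivAt
  have h2 : HasFDerivAt (fun y' => JJ j (x, y'))
      ((JJ j : (Eu κ₁ × Eu κ₂) →L[ℝ] Eu κ₃).comp (ContinuousLinearMap.inr ℝ _ _)) y :=
    (JJ j : (Eu κ₁ × Eu κ₂) →L[ℝ] Eu κ₃).hasFDerivAt.comp y (hasFDerivAt_prodMk_right x y)
  exact (h1.comp y h2).fderiv

theorem cd1 {f : Eu κ₃ → ℝ} (hf : ContDiff ℝ 1 f) (y : Eu κ₂) :
    ContDiff ℝ 1 fun x' => f (JJ j (x', y)) :=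
  hf.comp ((JJ j).contDiff.comp (contDiff_id.prodMk contDiff_const))

theorem cd2 {f : Eu κ₃ → ℝ} (hf : ContDiff ℝ 1 f) (x : Eu κ₁) :
    ContDiff ℝ 1 fun y' => f (JJ j (x, y')) :=
  hf.comp ((JJ j).contDiff.comp (contDiff_const.prodMk contDiff_id))

end iso

/-- the second moments of a linear functional -/
theorem lin_int {w : Eu κ₁ → ℝ} (h : Adm w) (S : Eu κ₁ ≃L[ℝ] Eu κ₁) (θ : Eu κ₁) :
    Integrable (fun x => ⟪S x, θ⟫_ℝ) (mu w) ∧ Integrable (fun x => ⟪S x, θ⟫_ℝ ^ 2) (mu w) := by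
  have hb : ∀ x, |⟪S x, θ⟫_ℝ| ≤ (‖(S : Eu κ₁ →L[ℝ] Eu κ₁)‖ * ‖θ‖) * ‖x‖ := fun x => by
    calc |⟪S x, θ⟫_ℝ| ≤ ‖S x‖ * ‖θ‖ := abs_real_inner_le_norm _ _
      _ ≤ (‖(S : Eu κ₁ →L[ℝ] Eu κ₁)‖ * ‖x‖) * ‖θ‖ :=
        mul_le_mul_of_nonneg_right ((S : Eu κ₁ →L[ℝ] Eu κ₁).le_opNorm x) (norm_nonneg _)
      _ = _ := by ring
  set C := ‖(S : Eu κ₁ →L[ℝ] Eu κ₁)‖ * ‖θ‖ with hC
  have hC0 : 0 ≤ C := by positivity
  have hc : Continuous fun x => ⟪S x, θ⟫_ℝ := S.continuous.inner continuous_const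
  constructor
  · refine mu_integrable h hc (C := C) fun x => (hb x).trans ?_
    refine mul_le_mul_of_nonneg_left ?_ hC0
    nlinarith [sq_nonneg (‖x‖ - 1), sq_nonneg (‖x‖)]
  · refine mu_integrable h (hc.pow 2) (C := C ^ 2) fun x => ?_
    rw [abs_pow]
    calc |⟪S x, θ⟫_ℝ| ^ 2 ≤ (C * ‖x‖) ^ 2 := pow_le_pow_left₀ (abs_nonneg _) (hb x) 2
      _ = C ^ 2 * ‖x‖ ^ 2 := by ring
      _ ≤ _ := mul_le_mul_of_nonneg_left (by linarith) (sq_nonneg _)

theorem VW_mu {w : Eu κ₁ → ℝ} (h : Adm w) (v : Eu κ₁ → ℝ) :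
    VW w v = ∫ x, v x ^ 2 ∂(mu w) - (∫ x, v x ∂(mu w)) ^ 2 := by
  rw [VW, mu_integral h, mu_integral h]

end Ten

open Ten in
theorem ten : S_TEN := by
  intro κ₁ κ₂ κ₃ _ _ _ A e₀ w u hA hw hu
  obtain ⟨j⟩ := exists_j e₀
  set e : (Eu κ₁ × Eu κ₂) ≃L[ℝ] Eu κ₃ := e₀.toContinuousLinearEquiv
  have hW : (fun z => w (e₀.symm z).1 * u (e₀.symm z).2) = W e w u := rfl
  rw [hW]
  obtain ⟨S1, iso1, poi1⟩ := hw.poi
  obtain ⟨S2, iso2, poi2⟩ := hu.poi
  have hwa := hw.adm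
  have hua := hu.adm
  have p1 := mu_prob hwa
  have p2 := mu_prob hua
  have hVW : ∀ G : Eu κ₃ → ℝ, VW (W e w u) G = ∫ p, G (e p) ^ 2 ∂((mu w).prod (mu u)) -
      (∫ p, G (e p) ∂((mu w).prod (mu u))) ^ 2 := fun G => by
    rw [VW, EW_W e hwa hua, EW_W e hwa hua]
  refine ⟨adm_W e hwa hua, e.symm.trans ((S1.prodCongr S2).trans (JJ j)), fun θ => ?_,
    fun f hf hfB hfL => ?_⟩
  · rw [hVW]
    have hS : ∀ p : Eu κ₁ × Eu κ₂, ⟪(e.symm.trans ((S1.prodCongr S2).trans (JJ j))) (e p), θ⟫_ℝ =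
        ⟪S1 p.1, (j.symm θ).fst⟫_ℝ + ⟪S2 p.2, (j.symm θ).snd⟫_ℝ := fun p => by
      rw [← inner_JJ]
      simp
    simp only [hS]
    have i1 := lin_int hwa S1 (j.symm θ).fst
    have i2 := lin_int hua S2 (j.symm θ).snd
    have v1 := iso1 (j.symm θ).fst
    have v2 := iso2 (j.symm θ).snd
    rw [VW_mu hwa] at v1
    rw [VW_mu hua] at v2
    set a : Eu κ₁ → ℝ := fun x => ⟪S1 x, (j.symm θ).fst⟫_ℝ
    set b : Eu κ₂ → ℝ := fun y => ⟪S2 y, (j.symm θ).snd⟫_ℝ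
    have k1 : Integrable (fun p : Eu κ₁ × Eu κ₂ => a p.1) ((mu w).prod (mu u)) := i1.1.comp_fst _
    have k2 : Integrable (fun p : Eu κ₁ × Eu κ₂ => b p.2) ((mu w).prod (mu u)) := i2.1.comp_snd _
    have k3 : Integrable (fun p : Eu κ₁ × Eu κ₂ => a p.1 ^ 2) ((mu w).prod (mu u)) :=
      i1.2.comp_fst _
    have k4 : Integrable (fun p : Eu κ₁ × Eu κ₂ => b p.2 ^ 2) ((mu w).prod (mu u)) :=
      i2.2.comp_snd _
    have k5 : Integrable (fun p : Eu κ₁ × Eu κ₂ => a p.1 * b p.2) ((mu w).prod (mu u)) :=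
      i1.1.mul_prod i2.1
    have e1 : ∫ p : Eu κ₁ × Eu κ₂, (a p.1 + b p.2) ^ 2 ∂((mu w).prod (mu u)) =
        ∫ x, a x ^ 2 ∂(mu w) + 2 * ((∫ x, a x ∂(mu w)) * ∫ y, b y ∂(mu u)) +
          ∫ y, b y ^ 2 ∂(mu u) := by
      have e2 : ∀ p : Eu κ₁ × Eu κ₂, (a p.1 + b p.2) ^ 2 =
          a p.1 ^ 2 + 2 * (a p.1 * b p.2) + b p.2 ^ 2 := fun p => by ring
      simp only [e2]
      have j1 : Integrable (fun p : Eu κ₁ × Eu κ₂ => a p.1 ^ 2 + 2 * (a p.1 * b p.2))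
          ((mu w).prod (mu u)) := k3.add (k5.const_mul 2)
      rw [integral_add j1 k4, integral_add k3 (k5.const_mul 2), integral_const_mul,
        integral_prod_mul (fun x => a x) (fun y => b y)]
      rw [integral_fun_fst (fun x => a x ^ 2), integral_fun_snd (fun y => b y ^ 2)]
      simp
    have e3 : ∫ p : Eu κ₁ × Eu κ₂, (a p.1 + b p.2) ∂((mu w).prod (mu u)) =
        ∫ x, a x ∂(mu w) + ∫ y, b y ∂(mu u) := by
      rw [integral_add k1 k2, integral_fun_fst (fun x => a x), integral_fun_snd (fun y => b y)]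
      simp
    rw [e1, e3, ← norm_symm j θ, ← v1, ← v2]
    ring
  · obtain ⟨B, hB⟩ := hfB
    obtain ⟨L, hL⟩ := hfL
    have hL0 : 0 ≤ L := (norm_nonneg _).trans (hL 0)
    rw [hVW, EW_W e hwa hua]
    have hS : ∀ p : Eu κ₁ × Eu κ₂, (e.symm.trans ((S1.prodCongr S2).trans (JJ j))) (e p) =
        JJ j (S1 p.1, S2 p.2) := fun p => by simp
    simp only [hS]
    set F : Eu κ₁ × Eu κ₂ → ℝ := fun p => f (JJ j (S1 p.1, S2 p.2)) with hF
    have cF : Continuous F := hf.continuous.comp ((JJ j).continuous.comp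
      ((S1.continuous.comp continuous_fst).prodMk (S2.continuous.comp continuous_snd)))
    have h0 := var_prod (mu w) (mu u) F cF.measurable B fun p => hB _
    refine h0.trans ?_
    set M1 : (Eu κ₁ →L[ℝ] Eu κ₃) :=
      ((JJ j : (Eu κ₁ × Eu κ₂) →L[ℝ] Eu κ₃).comp (ContinuousLinearMap.inl ℝ _ _)) with hM1
    set M2 : (Eu κ₂ →L[ℝ] Eu κ₃) :=
      ((JJ j : (Eu κ₁ × Eu κ₂) →L[ℝ] Eu κ₃).comp (ContinuousLinearMap.inr ℝ _ _)) with hM2
    set D : Eu κ₁ × Eu κ₂ → (Eu κ₃ →L[ℝ] ℝ) := fun p => fderiv ℝ f (JJ j (S1 p.1, S2 p.2)) with hD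
    have cD : Continuous D := (hf.continuous_fderiv one_ne_zero).comp ((JJ j).continuous.comp
      ((S1.continuous.comp continuous_fst).prodMk (S2.continuous.comp continuous_snd)))
    have bD : ∀ p, ‖D p‖ ≤ L := fun p => hL _
    -- the integrands
    have c1 : Continuous fun p => ‖(D p).comp M1‖ ^ 2 :=
      ((cD.clm_comp continuous_const).norm).pow 2
    have c2 : Continuous fun p => ‖(D p).comp M2‖ ^ 2 :=
      ((cD.clm_comp continuous_const).norm).pow 2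
    have c3 : Continuous fun p => ‖D p‖ ^ 2 := (cD.norm).pow 2
    have b1 : ∀ p, |‖(D p).comp M1‖ ^ 2| ≤ (L * ‖M1‖) ^ 2 := fun p => by
      rw [abs_of_nonneg (by positivity)]
      exact pow_le_pow_left₀ (norm_nonneg _) ((ContinuousLinearMap.opNorm_comp_le _ _).trans
        (mul_le_mul_of_nonneg_right (bD p) (norm_nonneg _))) 2
    have b2 : ∀ p, |‖(D p).comp M2‖ ^ 2| ≤ (L * ‖M2‖) ^ 2 := fun p => by
      rw [abs_of_nonneg (by positivity)]
      exact pow_le_pow_left₀ (norm_nonneg _) ((ContinuousLinearMap.opNorm_comp_le _ _).trans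
        (mul_le_mul_of_nonneg_right (bD p) (norm_nonneg _))) 2
    have b3 : ∀ p, |‖D p‖ ^ 2| ≤ L ^ 2 := fun p => by
      rw [abs_of_nonneg (by positivity)]
      exact pow_le_pow_left₀ (norm_nonneg _) (bD p) 2
    have i1 : Integrable (fun p => ‖(D p).comp M1‖ ^ 2) ((mu w).prod (mu u)) :=
      ib c1.measurable b1
    have i2 : Integrable (fun p => ‖(D p).comp M2‖ ^ 2) ((mu w).prod (mu u)) :=
      ib c2.measurable b2
    have i3 : Integrable (fun p => ‖D p‖ ^ 2) ((mu w).prod (mu u)) := ib c3.measurable b3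
    -- the two Poincare inequalities
    have q1 : ∀ y : Eu κ₂, ∫ x, F (x, y) ^ 2 ∂(mu w) - (∫ x, F (x, y) ∂(mu w)) ^ 2 ≤
        A * ∫ x, ‖(D (x, y)).comp M1‖ ^ 2 ∂(mu w) := fun y => by
      have := poi1 (fun x' => f (JJ j (x', S2 y))) (cd1 j hf _) ⟨B, fun x => hB _⟩
        ⟨L * ‖M1‖, fun x => by
          rw [fd1 j hf]
          exact (ContinuousLinearMap.opNorm_comp_le _ _).trans
            (mul_le_mul_of_nonneg_right (hL _) (norm_nonneg _))⟩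
      rw [VW_mu hwa, ← mu_integral hwa] at this
      simp only [fd1 j hf] at this
      exact this
    have q2 : ∀ x : Eu κ₁, ∫ y, F (x, y) ^ 2 ∂(mu u) - (∫ y, F (x, y) ∂(mu u)) ^ 2 ≤
        A * ∫ y, ‖(D (x, y)).comp M2‖ ^ 2 ∂(mu u) := fun x => by
      have := poi2 (fun y' => f (JJ j (S1 x, y'))) (cd2 j hf _) ⟨B, fun x => hB _⟩
        ⟨L * ‖M2‖, fun x => by
          rw [fd2 j hf]
          exact (ContinuousLinearMap.opNorm_comp_le _ _).trans
            (mul_le_mul_of_nonneg_right (hL _) (norm_nonneg _))⟩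
      rw [VW_mu hua, ← mu_integral hua] at this
      simp only [fd2 j hf] at this
      exact this
    have mF := cF.measurable
    have sqle : ∀ t : ℝ, |t| ≤ B → |t ^ 2| ≤ B ^ 2 := fun t ht => by
      rw [abs_pow]; exact pow_le_pow_left₀ (abs_nonneg t) ht 2
    have r1 : ∫ y, (∫ x, F (x, y) ^ 2 ∂(mu w) - (∫ x, F (x, y) ∂(mu w)) ^ 2) ∂(mu u) ≤
        A * ∫ p, ‖(D p).comp M1‖ ^ 2 ∂((mu w).prod (mu u)) := by
      rw [integral_prod_symm _ i1, ← integral_const_mul]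
      refine integral_mono ?_ (i1.integral_prod_right.const_mul A) q1
      refine ib (C := B ^ 2 + B ^ 2) ?_ fun y => ?_
      · exact ((mF.pow_const 2).stronglyMeasurable.integral_prod_left').measurable.sub
          ((mF.stronglyMeasurable.integral_prod_left').measurable.pow_const 2)
      · refine (abs_sub _ _).trans (add_le_add (abs_int fun x => sqle _ (hB _))
          (sqle _ (abs_int fun x => hB _)))
    have r2 : ∫ x, (∫ y, F (x, y) ^ 2 ∂(mu u) - (∫ y, F (x, y) ∂(mu u)) ^ 2) ∂(mu w) ≤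
        A * ∫ p, ‖(D p).comp M2‖ ^ 2 ∂((mu w).prod (mu u)) := by
      rw [integral_prod _ i2, ← integral_const_mul]
      refine integral_mono ?_ (i2.integral_prod_left.const_mul A) q2
      refine ib (C := B ^ 2 + B ^ 2) ?_ fun y => ?_
      · exact ((mF.pow_const 2).stronglyMeasurable.integral_prod_right').measurable.sub
          ((mF.stronglyMeasurable.integral_prod_right').measurable.pow_const 2)
      · refine (abs_sub _ _).trans (add_le_add (abs_int fun x => sqle _ (hB _))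
          (sqle _ (abs_int fun x => hB _)))
    refine (add_le_add r1 r2).trans ?_
    rw [← mul_add, ← integral_add i1 i2]
    exact mul_le_mul_of_nonneg_left (integral_mono (i1.add i2) i3 fun p => grad j (D p)) hA

end Pool.Agent.R751.MB
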