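import Pool.Agent.R751.MB.Stm3
import Pool.Agent.Y824.PV.Cap

/-!
# Project MB: walls as limits of high powers (MB-WAL)

The proof follows `Pool/Agent/R476/OR/G.lean` (limits of sublevel sets of convex functions).
-/

set_option autoImplicit false

namespace Pool.Agent.R751.MB

open MeasureTheory Set Filter Topology
open scoped ENNReal InnerProductSpace Pointwise

namespace Wal

theorem limc' (n : ℕ) (κ δ : ℝ) (w : Eu (Fin n) → ℝ) (W : ℕ → Eu (Fin n) → ℝ) (hκ : 0 < κ)
    (h1 : Integrable (fun x => (1 + ‖x‖ ^ 2) * w x)) (h2 : 0 < ∫ x, w x)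
    (h3 : ∀ j, Integrable (fun x => (1 + ‖x‖ ^ 2) * W j x))
    (h4 : Tendsto (fun j => ∫ x, (1 + ‖x‖ ^ 2) * |W j x - w x|) atTop (𝓝 0))
    (h5 : ∀ᶠ j in atTop, CcW κ δ (W j)) : CcW (κ / 2) δ w :=
  Pool.Agent.Y824.PV.limc n κ δ w W hκ h1 h2 h3 h4 h5

/-- level sets of convex functions are null sets -/
theorem level_null {n : ℕ} {g : Eu (Fin n) → ℝ} (hg : ConvexOn ℝ univ g) {E : ℝ}
    {x0 : Eu (Fin n)} (hx0 : g x0 < E) : volume {x : Eu (Fin n) | g x = E} = 0 := by
  have hK : Convex ℝ {x | g x ≤ E} := by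
    have := hg.convex_le E
    simpa using this
  have hfr := hK.addHaar_frontier (volume : Measure (Eu (Fin n)))
  refine measure_mono_null ?_ hfr
  intro x hx
  refine ⟨subset_closure (show g x ≤ E from hx.le), ?_⟩
  intro hint
  -- a point beyond `x` on the ray from `x0`
  have hc : Continuous (fun τ : ℝ => x + τ • (x - x0)) := by fun_prop
  have h0 : (fun τ : ℝ => x + τ • (x - x0)) 0 ∈ interior {x | g x ≤ E} := by
    simpa using hint
  have hn : (fun τ : ℝ => x + τ • (x - x0)) ⁻¹' interior {x | g x ≤ E} ∈ 𝓝 (0 : ℝ) :=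
    (isOpen_interior.preimage hc).mem_nhds h0
  obtain ⟨r, hr, hball⟩ := Metric.mem_nhds_iff.1 hn
  have hτ : (r / 2) ∈ Metric.ball (0 : ℝ) r := by
    rw [Metric.mem_ball, dist_zero_right, Real.norm_eq_abs, abs_of_pos (by linarith)]
    linarith
  have hy := interior_subset (hball hτ)
  simp only at hy
  set τ : ℝ := r / 2 with hτd
  have hτp : 0 < τ := by positivity
  have hyE : g (x + τ • (x - x0)) ≤ E := hy
  have h1 := hg.2 (mem_univ (x + τ • (x - x0))) (mem_univ x0)
    (by positivity : 0 ≤ 1 / (1 + τ)) (by positivity : 0 ≤ τ / (1 + τ)) (by field_simp)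
  have e : (1 / (1 + τ)) • (x + τ • (x - x0)) + (τ / (1 + τ)) • x0 = x := by
    have h2 : (1 + τ) ≠ 0 := by positivity
    have h3 : (1 / (1 + τ)) • (x + τ • (x - x0)) + (τ / (1 + τ)) • x0
        = ((1 / (1 + τ)) * (1 + τ)) • x := by
      rw [smul_add, smul_smul, smul_sub, mul_add, add_smul]
      have : τ / (1 + τ) = 1 / (1 + τ) * τ := by ring
      rw [this, mul_one]
      abel
    rw [h3, one_div, inv_mul_cancel₀ h2, one_smul]
  rw [e] at h1
  have hx' : g x = E := hx
  simp only [smul_eq_mul] at h1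
  rw [hx'] at h1
  have h4 : 1 / (1 + τ) * g (x + τ • (x - x0)) ≤ 1 / (1 + τ) * E :=
    mul_le_mul_of_nonneg_left hyE (by positivity)
  have h5 : τ / (1 + τ) * g x0 < τ / (1 + τ) * E :=
    mul_lt_mul_of_pos_left hx0 (by positivity)
  have h6 : 1 / (1 + τ) * E + τ / (1 + τ) * E = E := by
    field_simp
  linarith

theorem ind_int {n : ℕ} {S : Set (Eu (Fin n))} (hS : MeasurableSet S) {R : ℝ}
    (hR : S ⊆ Metric.closedBall 0 R) : Integrable (fun x => (1 + ‖x‖ ^ 2) * ind S x) := by
  have e : (fun x : Eu (Fin n) => (1 + ‖x‖ ^ 2) * ind S x)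
      = S.indicator (fun x => 1 + ‖x‖ ^ 2) := by
    funext x
    unfold ind
    by_cases h : x ∈ S
    · simp [h]
    · simp [h]
  rw [e, integrable_indicator_iff hS]
  apply IntegrableOn.mono_set _ hR
  apply ContinuousOn.integrableOn_compact (isCompact_closedBall _ _)
  fun_prop

end Wal

open Wal in
/-- MB-WAL -/
theorem wal : S_WAL := by
  intro κ δ hκ M n k e Φ p J hn hp hΦ H
  -- the functions `Φ_i (x_i)`
  obtain ⟨B, hB⟩ : ∃ B : Fin M → Eu (Fin n) → ℝ, B = fun i z => Φ i (e.symm z i) := ⟨_, rfl⟩
  obtain ⟨A, hA⟩ : ∃ A : Eu (Fin n) → ℝ, A = fun z => ∑ i ∈ Finset.univ \ J, B i z := ⟨_, rfl⟩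
  have hes : Continuous fun z : Eu (Fin n) => e.symm z :=
    e.symm.toLinearMap.continuous_of_finiteDimensional
  have hBc : ∀ i, Continuous (B i) := fun i => by
    rw [hB]
    exact (hΦ i).cont.comp ((continuous_apply i).comp hes)
  have hB0 : ∀ i, B i 0 = 0 := fun i => by
    simp only [hB]
    rw [map_zero]
    exact (hΦ i).zero (hp i)
  have hBn : ∀ i z, 0 ≤ B i z := fun i z => by
    simp only [hB]
    exact (hΦ i).nonneg (hp i) _
  have hBv : ∀ i, ConvexOn ℝ univ (B i) := fun i => by
    refine ⟨convex_univ, fun x _ y _ a b ha hb hab => ?_⟩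
    simp only [hB]
    have h1 := (hΦ i).conv.2 (mem_univ (e.symm x i)) (mem_univ (e.symm y i)) ha hb hab
    rw [map_add, map_smul, map_smul]
    exact h1
  have hAc : Continuous A := by
    rw [hA]
    exact continuous_finsetSum _ fun i _ => hBc i
  have hA0 : A 0 = 0 := by
    simp only [hA]
    exact Finset.sum_eq_zero fun i _ => hB0 i
  have hAv : ConvexOn ℝ univ A := by
    refine ⟨convex_univ, fun x _ y _ a b ha hb hab => ?_⟩
    simp only [hA, smul_eq_mul]
    rw [Finset.mul_sum, Finset.mul_sum, ← Finset.sum_add_distrib]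
    refine Finset.sum_le_sum fun i _ => ?_
    have h1 := (hBv i).2 (mem_univ x) (mem_univ y) ha hb hab
    simpa using h1
  have hwall : wall e Φ J = {z | A z ≤ 1 ∧ ∀ i ∈ J, B i z ≤ 1} := by
    unfold wall
    simp only [hA, hB]
  -- the approximating sets
  obtain ⟨q, hq⟩ : ∃ q : ℕ → ℝ, q = fun j : ℕ => (j : ℝ) + 1 := ⟨_, rfl⟩
  have hq1 : ∀ j, 1 ≤ q j := fun j => by
    simp only [hq]
    have : (0 : ℝ) ≤ (j : ℝ) := Nat.cast_nonneg j
    linarith
  obtain ⟨G, hG⟩ : ∃ G : ℕ → Eu (Fin n) → ℝ, G = fun j z =>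
      bsum e (fun i x => if i ∈ J then Φ i x ^ q j else Φ i x) z := ⟨_, rfl⟩
  have hGe : ∀ j z, G j z = A z + ∑ i ∈ J, B i z ^ q j := by
    intro j z
    simp only [hG, hA, hB, bsum]
    rw [← Finset.sum_sdiff (Finset.subset_univ J)]
    congr 1
    · refine Finset.sum_congr rfl fun i hi => ?_
      rw [if_neg (Finset.mem_sdiff.1 hi).2]
    · refine Finset.sum_congr rfl fun i hi => ?_
      rw [if_pos hi]
  have hGc : ∀ j, Continuous (G j) := fun j => by
    have h1 : G j = fun z => A z + ∑ i ∈ J, B i z ^ q j := funext fun z => hGe j z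
    rw [h1]
    refine hAc.add (continuous_finsetSum _ fun i _ => ?_)
    exact (hBc i).rpow_const fun z => Or.inr (by linarith [hq1 j])
  -- boundedness
  obtain ⟨P, hP⟩ : ∃ P : Set (Eu (Fin n)), P = {z | ∀ i, B i z ≤ 1} := ⟨_, rfl⟩
  have hPb : Bornology.IsBounded P := by
    have h1 : Bornology.IsBounded (univ.pi fun i => {x : Eu (Fin (k i)) | Φ i x ≤ 1}) :=
      Bornology.IsBounded.pi fun i => (hΦ i).bdd (hp i)
    have h2 : P ⊆ e '' (univ.pi fun i => {x : Eu (Fin (k i)) | Φ i x ≤ 1}) := by
      intro z hz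
      refine ⟨e.symm z, fun i _ => ?_, e.apply_symm_apply z⟩
      rw [hP] at hz
      have := hz i
      simp only [hB] at this
      exact this
    have h3 : Bornology.IsBounded (e '' (univ.pi fun i => {x : Eu (Fin (k i)) | Φ i x ≤ 1})) := by
      have h4 := e.toContinuousLinearEquiv.toContinuousLinearMap.lipschitz.isBounded_image h1
      exact h4
    exact h3.subset h2
  obtain ⟨R, hR⟩ := hPb.subset_closedBall 0
  have hAle : ∀ z i, i ∉ J → B i z ≤ A z := fun z i hi => by
    simp only [hA]
    exact Finset.single_le_sum (f := fun i => B i z) (fun i _ => hBn i z)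
      (Finset.mem_sdiff.2 ⟨Finset.mem_univ i, hi⟩)
  have hAn : ∀ z, 0 ≤ A z := fun z => by
    simp only [hA]
    exact Finset.sum_nonneg fun i _ => hBn i z
  have hwP : wall e Φ J ⊆ P := by
    rw [hwall, hP]
    intro z hz i
    by_cases hi : i ∈ J
    · exact hz.2 i hi
    · exact (hAle z i hi).trans hz.1
  have hSn : ∀ j z, 0 ≤ ∑ i ∈ J, B i z ^ q j := fun j z =>
    Finset.sum_nonneg fun i _ => Real.rpow_nonneg (hBn i z) _
  have hSle : ∀ j z i, i ∈ J → B i z ^ q j ≤ ∑ i ∈ J, B i z ^ q j := fun j z i hi =>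
    Finset.single_le_sum (f := fun i => B i z ^ q j)
      (fun i _ => Real.rpow_nonneg (hBn i z) _) hi
  have hgt : ∀ j z i, 1 < B i z → 1 < B i z ^ q j := fun j z i h =>
    Real.one_lt_rpow h (by linarith [hq1 j])
  have hGP : ∀ j, {z | G j z ≤ 1} ⊆ P := by
    intro j z hz
    rw [hP]
    intro i
    have hz' : G j z ≤ 1 := hz
    rw [hGe] at hz'
    by_cases hi : i ∈ J
    · by_contra hcon
      have h1 := hgt j z i (not_le.1 hcon)
      have h2 := hSle j z i hi
      have h3 := hAn z
      linarith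
    · have h1 := hAle z i hi
      have h2 := hSn j z
      linarith
  -- the wall
  have hwcl : IsClosed (wall e Φ J) := by
    rw [hwall]
    have h1 : {z | A z ≤ 1 ∧ ∀ i ∈ J, B i z ≤ 1} = {z | A z ≤ 1} ∩ ⋂ i ∈ J, {z | B i z ≤ 1} := by
      ext z
      simp
    rw [h1]
    refine (isClosed_le hAc continuous_const).inter ?_
    exact isClosed_biInter fun i _ => isClosed_le (hBc i) continuous_const
  have hwcv : Convex ℝ (wall e Φ J) := by
    rw [hwall]
    intro x hx y hy a b ha hb hab
    refine ⟨?_, fun i hi => ?_⟩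
    · have h1 := hAv.2 (mem_univ x) (mem_univ y) ha hb hab
      have hx1 := hx.1
      have hy1 := hy.1
      simp only [smul_eq_mul] at h1
      nlinarith
    · have h1 := (hBv i).2 (mem_univ x) (mem_univ y) ha hb hab
      have hx1 := hx.2 i hi
      have hy1 := hy.2 i hi
      simp only [smul_eq_mul] at h1
      nlinarith
  obtain ⟨U, hU⟩ : ∃ U : Set (Eu (Fin n)), U = {z | A z < 1} ∩ ⋂ i ∈ J, {z | B i z < 1} :=
    ⟨_, rfl⟩
  have hUo : IsOpen U := by
    rw [hU]
    refine (isOpen_lt hAc continuous_const).inter ?_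
    exact isOpen_biInter_finset fun i _ => isOpen_lt (hBc i) continuous_const
  have hU0 : (0 : Eu (Fin n)) ∈ U := by
    rw [hU]
    refine ⟨?_, ?_⟩
    · show A 0 < 1
      rw [hA0]
      exact one_pos
    · simp only [mem_iInter]
      intro i _
      show B i 0 < 1
      rw [hB0]
      exact one_pos
  have hUw : U ⊆ wall e Φ J := by
    rw [hU, hwall]
    intro z hz
    refine ⟨le_of_lt hz.1, fun i hi => ?_⟩
    have h1 := hz.2
    simp only [mem_iInter] at h1
    exact le_of_lt (h1 i hi)
  have hbody : Body (wall e Φ J) := by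
    refine ⟨Metric.isCompact_of_isClosed_isBounded hwcl (hPb.subset hwP), hwcv, ?_⟩
    exact ⟨0, interior_maximal hUw hUo hU0⟩
  refine ⟨hbody, ?_⟩
  have hGcl : ∀ j, IsClosed {z | G j z ≤ 1} := fun j => isClosed_le (hGc j) continuous_const
  refine limc' n κ δ (ind (wall e Φ J)) (fun j => ind {z | G j z ≤ 1}) hκ
    (ind_int hwcl.measurableSet (hwP.trans hR)) ?_
    (fun j => ind_int (hGcl j).measurableSet ((hGP j).trans hR)) ?_ ?_
  · -- positive mass
    have e1 : ∫ x, ind (wall e Φ J) x = (volume (wall e Φ J)).toReal := by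
      unfold ind
      rw [integral_indicator hwcl.measurableSet]
      simp [Measure.real]
    rw [e1]
    apply ENNReal.toReal_pos
    · exact (lt_of_lt_of_le (hUo.measure_pos volume ⟨0, hU0⟩) (measure_mono hUw)).ne'
    · exact (lt_of_le_of_lt (measure_mono (hwP.trans hR)) measure_closedBall_lt_top).ne
  · -- dominated convergence
    have key := tendsto_integral_of_dominated_convergence
      (μ := (volume : Measure (Eu (Fin n))))
      (F := fun j x => (1 + ‖x‖ ^ 2) * |ind {z | G j z ≤ 1} x - ind (wall e Φ J) x|)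
      (f := fun _ => (0 : ℝ))
      (bound := (Metric.closedBall (0 : Eu (Fin n)) R).indicator (fun x => 1 + ‖x‖ ^ 2))
      ?_ ?_ ?_ ?_
    · simpa using key
    · intro j
      have m1 : Measurable (ind {z | G j z ≤ 1}) :=
        measurable_const.indicator (hGcl j).measurableSet
      have m2 : Measurable (ind (wall e Φ J)) :=
        measurable_const.indicator hwcl.measurableSet
      have m3 : Measurable (fun x : Eu (Fin n) => 1 + ‖x‖ ^ 2) := by fun_prop
      exact (m3.mul (m1.sub m2).abs).aestronglyMeasurable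
    · rw [integrable_indicator_iff measurableSet_closedBall]
      apply ContinuousOn.integrableOn_compact (isCompact_closedBall _ _)
      fun_prop
    · intro j
      refine Eventually.of_forall fun x => ?_
      have hp : 0 ≤ 1 + ‖x‖ ^ 2 := by positivity
      rw [Real.norm_eq_abs, abs_of_nonneg (mul_nonneg hp (abs_nonneg _))]
      by_cases hxb : x ∈ Metric.closedBall (0 : Eu (Fin n)) R
      · rw [indicator_of_mem hxb]
        have h1 : |ind {z | G j z ≤ 1} x - ind (wall e Φ J) x| ≤ 1 := by
          unfold ind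
          by_cases h1 : x ∈ {z | G j z ≤ 1} <;> by_cases h2 : x ∈ wall e Φ J <;>
            simp only [indicator, h1, h2, if_true, if_false] <;> norm_num
        calc (1 + ‖x‖ ^ 2) * |ind {z | G j z ≤ 1} x - ind (wall e Φ J) x|
            ≤ (1 + ‖x‖ ^ 2) * 1 := mul_le_mul_of_nonneg_left h1 hp
          _ = 1 + ‖x‖ ^ 2 := mul_one _
      · have h1 : x ∉ {z | G j z ≤ 1} := fun hh => hxb (hR (hGP j hh))
        have h2 : x ∉ wall e Φ J := fun hh => hxb (hR (hwP hh))
        rw [indicator_of_notMem hxb]
        unfold ind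
        rw [indicator_of_notMem h1, indicator_of_notMem h2]
        simp
    · have hnA : volume {x : Eu (Fin n) | A x = 1} = 0 :=
        level_null hAv (x0 := 0) (by rw [hA0]; exact one_pos)
      have hnB : ∀ i, volume {x : Eu (Fin n) | B i x = 1} = 0 := fun i =>
        level_null (hBv i) (x0 := 0) (by rw [hB0]; exact one_pos)
      have haeA : ∀ᵐ x : Eu (Fin n), A x ≠ 1 := by
        rw [ae_iff]
        simpa using hnA
      have haeB : ∀ᵐ x : Eu (Fin n), ∀ i, B i x ≠ 1 := by
        rw [ae_all_iff]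
        intro i
        rw [ae_iff]
        simpa using hnB i
      filter_upwards [haeA, haeB] with x hxA hxB
      by_cases hin : A x < 1 ∧ ∀ i ∈ J, B i x < 1
      · have hlim : Tendsto (fun j => G j x) atTop (𝓝 (A x + ∑ i ∈ J, 0)) := by
          have h1 : (fun j => G j x) = fun j => A x + ∑ i ∈ J, B i x ^ q j :=
            funext fun j => hGe j x
          rw [h1]
          refine tendsto_const_nhds.add (tendsto_finsetSum _ fun i hi => ?_)
          have h2 : (fun j => B i x ^ q j) = fun j : ℕ => B i x ^ (j + 1) := by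
            funext j
            simp only [hq]
            rw [← Nat.cast_add_one, Real.rpow_natCast]
          rw [h2]
          exact (tendsto_pow_atTop_nhds_zero_of_lt_one (hBn i x) (hin.2 i hi)).comp
            (tendsto_add_atTop_nat 1)
        have hev : ∀ᶠ j in atTop, G j x < 1 := by
          refine hlim.eventually_lt_const ?_
          simpa using hin.1
        refine tendsto_const_nhds.congr' ?_
        filter_upwards [hev] with j hj
        have h1 : x ∈ {z | G j z ≤ 1} := le_of_lt hj
        have h2 : x ∈ wall e Φ J := by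
          rw [hwall]
          exact ⟨hin.1.le, fun i hi => (hin.2 i hi).le⟩
        unfold ind
        rw [indicator_of_mem h1, indicator_of_mem h2]
        simp
      · have hout : 1 < A x ∨ ∃ i ∈ J, 1 < B i x := by
          by_contra hcon
          push Not at hcon
          exact hin ⟨lt_of_le_of_ne hcon.1 hxA, fun i hi => lt_of_le_of_ne (hcon.2 i hi) (hxB i)⟩
        have h2 : x ∉ wall e Φ J := by
          rw [hwall]
          intro hh
          rcases hout with h | ⟨i, hi, h⟩
          · exact absurd hh.1 (not_le.2 h)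
          · exact absurd (hh.2 i hi) (not_le.2 h)
        have h1 : ∀ j, x ∉ {z | G j z ≤ 1} := by
          intro j hh
          have hh' : G j x ≤ 1 := hh
          rw [hGe] at hh'
          have hs := hSn j x
          have ha := hAn x
          rcases hout with h | ⟨i, hi, h⟩
          · linarith
          · have h3 := hSle j x i hi
            have h4 := hgt j x i h
            linarith
        refine tendsto_const_nhds.congr fun j => ?_
        unfold ind
        rw [indicator_of_notMem (h1 j), indicator_of_notMem h2]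
        simp
  · -- concentration for the approximations
    refine Eventually.of_forall fun j => ?_
    have h1 := H (q j) (hq1 j)
    simp only [hG]
    exact h1

end Pool.Agent.R751.MB
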