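import Pool.Agent.R751.MB.Stm

/-! MB-WHT: a whitening map which commutes with all isometries preserving the weight. -/

set_option autoImplicit false

namespace Pool.Agent.R751.MB

open MeasureTheory Set Filter Topology Polynomial
open scoped ENNReal InnerProductSpace Pointwise

section

variable {κ : Type} [Fintype κ] {w : Eu κ → ℝ}

theorem wh_int {E : Type} [NormedAddCommGroup E] [NormedSpace ℝ E] (hw : Adm w) {F : Eu κ → E}
    (hF : Continuous F) {C : ℝ} (hb : ∀ x, ‖F x‖ ≤ C * (1 + ‖x‖ ^ 2)) :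
    Integrable (fun x => w x • F x) := by
  refine Integrable.mono' (hw.int.const_mul C) ?_ (Eventually.of_forall fun x => ?_)
  · exact hw.meas.aestronglyMeasurable.smul hF.aestronglyMeasurable
  · rw [norm_smul, Real.norm_eq_abs, abs_of_nonneg (hw.nonneg x)]
    nlinarith [hb x, hw.nonneg x, mul_le_mul_of_nonneg_left (hb x) (hw.nonneg x)]

/-- the mean -/
noncomputable def whM (w : Eu κ → ℝ) : Eu κ := (∫ x, w x)⁻¹ • ∫ x, w x • x

theorem wh_bd (M a x : Eu κ) :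
    ‖⟪x - M, a⟫_ℝ • (x - M)‖ ≤ (‖a‖ * (1 + ‖M‖ ^ 2)) * (1 + ‖x‖ ^ 2) := by
  rw [norm_smul, Real.norm_eq_abs]
  have h1 := abs_real_inner_le_norm (x - M) a
  have h2 := norm_sub_le x M
  have h3 : ‖x - M‖ * ‖x - M‖ ≤ (1 + ‖M‖ ^ 2) * (1 + ‖x‖ ^ 2) := by
    have : ‖x - M‖ * ‖x - M‖ ≤ (‖x‖ + ‖M‖) * (‖x‖ + ‖M‖) :=
      mul_self_le_mul_self (norm_nonneg _) h2
    nlinarith [sq_nonneg (1 - ‖x‖ * ‖M‖)]
  calc |⟪x - M, a⟫_ℝ| * ‖x - M‖ ≤ (‖x - M‖ * ‖a‖) * ‖x - M‖ := by gcongr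
    _ = ‖a‖ * (‖x - M‖ * ‖x - M‖) := by ring
    _ ≤ ‖a‖ * ((1 + ‖M‖ ^ 2) * (1 + ‖x‖ ^ 2)) := by gcongr
    _ = _ := by ring

theorem wh_iQ (hw : Adm w) (M a : Eu κ) :
    Integrable fun x => w x • (⟪x - M, a⟫_ℝ • (x - M)) :=
  wh_int hw (by fun_prop) (wh_bd M a)

theorem wh_i0 (hw : Adm w) : Integrable fun x => w x := by
  have h := wh_int hw (F := fun _ : Eu κ => (1 : ℝ)) continuous_const (C := 1) fun x => by
    rw [norm_one]; nlinarith [sq_nonneg ‖x‖]
  simpa using h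

theorem wh_i1 (hw : Adm w) : Integrable fun x => w x • x := by
  refine wh_int hw (F := fun x : Eu κ => x) continuous_id (C := 1) fun x => ?_
  nlinarith [sq_nonneg (‖x‖ - 1), norm_nonneg x]

theorem wh_ia (hw : Adm w) (a : Eu κ) : Integrable fun x => w x * ⟪x, a⟫_ℝ := by
  have h := wh_int hw (F := fun x : Eu κ => ⟪x, a⟫_ℝ) (by fun_prop) (C := ‖a‖) fun x => by
    rw [Real.norm_eq_abs]
    have h1 := abs_real_inner_le_norm x a
    nlinarith [mul_nonneg (norm_nonneg a) (sq_nonneg (‖x‖ - 1)), norm_nonneg x, norm_nonneg a,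
      mul_nonneg (norm_nonneg a) (norm_nonneg x)]
  simpa using h

theorem wh_iaa (hw : Adm w) (a : Eu κ) : Integrable fun x => w x * ⟪x, a⟫_ℝ ^ 2 := by
  have h := wh_int hw (F := fun x : Eu κ => ⟪x, a⟫_ℝ ^ 2) (by fun_prop) (C := ‖a‖ ^ 2) fun x => by
    rw [Real.norm_eq_abs, abs_of_nonneg (sq_nonneg _)]
    have h1 := abs_real_inner_le_norm x a
    have h2 : ⟪x, a⟫_ℝ ^ 2 ≤ (‖x‖ * ‖a‖) ^ 2 := by
      rw [← sq_abs ⟪x, a⟫_ℝ]
      exact pow_le_pow_left₀ (abs_nonneg _) h1 2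
    nlinarith [sq_nonneg ‖a‖, sq_nonneg (‖x‖ * ‖a‖)]
  simpa using h

/-- the covariance operator -/
noncomputable def whQ (w : Eu κ → ℝ) (hw : Adm w) : Eu κ →ₗ[ℝ] Eu κ where
  toFun a := (∫ x, w x)⁻¹ • ∫ x, w x • (⟪x - whM w, a⟫_ℝ • (x - whM w))
  map_add' a b := by
    rw [← smul_add, ← integral_add (wh_iQ hw _ a) (wh_iQ hw _ b)]
    congr 1
    refine integral_congr_ae (Eventually.of_forall fun x => ?_)
    simp only [inner_add_right, add_smul, smul_add]
  map_smul' c a := by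
    have h : ∫ x, w x • (⟪x - whM w, c • a⟫_ℝ • (x - whM w)) =
        c • ∫ x, w x • (⟪x - whM w, a⟫_ℝ • (x - whM w)) := by
      rw [← integral_smul]
      refine integral_congr_ae (Eventually.of_forall fun x => ?_)
      simp only [real_inner_smul_right]
      module
    simp only [RingHom.id_apply]
    rw [h, smul_comm]

theorem whQ_inner (hw : Adm w) (a b : Eu κ) : ⟪whQ w hw a, b⟫_ℝ =
    (∫ x, w x)⁻¹ * ∫ x, w x * (⟪x - whM w, a⟫_ℝ * ⟪x - whM w, b⟫_ℝ) := by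
  have h0 : whQ w hw a = (∫ x, w x)⁻¹ • ∫ x, w x • (⟪x - whM w, a⟫_ℝ • (x - whM w)) := rfl
  rw [h0, real_inner_smul_left, real_inner_comm, ← integral_inner (𝕜 := ℝ) (wh_iQ hw (whM w) a) b]
  congr 1
  refine integral_congr_ae (Eventually.of_forall fun x => ?_)
  simp only [real_inner_smul_right]
  rw [real_inner_comm b]

theorem wh_VW (hw : Adm w) (a : Eu κ) : VW w (fun x => ⟪x, a⟫_ℝ) = ⟪whQ w hw a, a⟫_ℝ := by
  have hW := hw.pos
  have hM : ∫ x, w x * ⟪x, a⟫_ℝ = (∫ x, w x) * ⟪whM w, a⟫_ℝ := by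
    unfold whM
    rw [real_inner_smul_left, ← mul_assoc, mul_inv_cancel₀ hW.ne', one_mul, real_inner_comm,
      ← integral_inner (wh_i1 hw)]
    refine integral_congr_ae (Eventually.of_forall fun x => ?_)
    simp only [real_inner_smul_right]
    rw [real_inner_comm a]
  rw [whQ_inner]
  have h2 : ∫ x, w x * (⟪x - whM w, a⟫_ℝ * ⟪x - whM w, a⟫_ℝ) =
      (∫ x, w x * ⟪x, a⟫_ℝ ^ 2) - 2 * ⟪whM w, a⟫_ℝ * (∫ x, w x * ⟪x, a⟫_ℝ) +
        ⟪whM w, a⟫_ℝ ^ 2 * ∫ x, w x := by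
    have i3 : Integrable fun x => w x * ⟪x, a⟫_ℝ ^ 2 -
        2 * ⟪whM w, a⟫_ℝ * (w x * ⟪x, a⟫_ℝ) := (wh_iaa hw a).sub ((wh_ia hw a).const_mul _)
    have i4 : Integrable fun x => ⟪whM w, a⟫_ℝ ^ 2 * w x := (wh_i0 hw).const_mul _
    rw [← integral_const_mul, ← integral_const_mul,
      ← integral_sub (wh_iaa hw a) ((wh_ia hw a).const_mul _), ← integral_add i3 i4]
    refine integral_congr_ae (Eventually.of_forall fun x => ?_)
    simp only [inner_sub_left]
    ring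
  rw [h2, hM]
  unfold VW EW
  have e1 : ∫ x, ⟪x, a⟫_ℝ ^ 2 * w x = ∫ x, w x * ⟪x, a⟫_ℝ ^ 2 :=
    integral_congr_ae (Eventually.of_forall fun x => mul_comm _ _)
  have e2 : ∫ x, ⟪x, a⟫_ℝ * w x = ∫ x, w x * ⟪x, a⟫_ℝ :=
    integral_congr_ae (Eventually.of_forall fun x => mul_comm _ _)
  rw [e1, e2, hM]
  field_simp
  ring

theorem wh_hyp (M : Eu κ) {a : Eu κ} (ha : a ≠ 0) :
    volume {x : Eu κ | ⟪x - M, a⟫_ℝ = 0} = 0 := by
  have h1 : volume ((LinearMap.ker (innerSL ℝ a).toLinearMap : Submodule ℝ (Eu κ)) : Set (Eu κ))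
      = 0 := by
    apply Measure.addHaar_submodule
    intro h
    have : a ∈ LinearMap.ker (innerSL ℝ a).toLinearMap := by rw [h]; exact Submodule.mem_top
    rw [LinearMap.mem_ker] at this
    have h3 : ⟪a, a⟫_ℝ = 0 := this
    exact ha (inner_self_eq_zero.1 h3)
  have h2 : {x : Eu κ | ⟪x - M, a⟫_ℝ = 0} = (fun x => x - M) ⁻¹'
      ((LinearMap.ker (innerSL ℝ a).toLinearMap : Submodule ℝ (Eu κ)) : Set (Eu κ)) := by
    ext x
    simp only [mem_ofPred_eq, mem_preimage, SetLike.mem_coe, LinearMap.mem_ker]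
    rw [real_inner_comm]
    rfl
  rw [h2]
  simp only [sub_eq_add_neg]
  rw [measure_preimage_add_right]
  exact h1

theorem whQ_pos (hw : Adm w) {a : Eu κ} (ha : a ≠ 0) : 0 < ⟪whQ w hw a, a⟫_ℝ := by
  have hW := hw.pos
  rw [whQ_inner]
  refine mul_pos (inv_pos.2 hW) ?_
  have hnn : ∀ x, 0 ≤ w x * (⟪x - whM w, a⟫_ℝ * ⟪x - whM w, a⟫_ℝ) := fun x =>
    mul_nonneg (hw.nonneg x) (mul_self_nonneg _)
  have hi : Integrable fun x => w x * (⟪x - whM w, a⟫_ℝ * ⟪x - whM w, a⟫_ℝ) := by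
    have h := (wh_iQ hw (whM w) a).inner_const (𝕜 := ℝ) a
    refine h.congr (Eventually.of_forall fun x => ?_)
    simp only [real_inner_smul_left]
  refine lt_of_le_of_ne (integral_nonneg hnn) fun h0 => ?_
  have h1 := (integral_eq_zero_iff_of_nonneg hnn hi).1 h0.symm
  have h2 : ∀ᵐ x ∂(volume : Measure (Eu κ)), ⟪x - whM w, a⟫_ℝ ≠ 0 := by
    rw [ae_iff]
    simpa using wh_hyp (whM w) ha
  have h3 : (fun x => w x) =ᵐ[volume] 0 := by
    filter_upwards [h1, h2] with x hx1 hx2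
    have : w x * (⟪x - whM w, a⟫_ℝ * ⟪x - whM w, a⟫_ℝ) = 0 := hx1
    rcases mul_eq_zero.1 this with h | h
    · exact h
    · exact absurd (mul_self_eq_zero.1 h) hx2
  exact hW.ne' (integral_eq_zero_of_ae h3)

theorem wh_comp {E : Type} [NormedAddCommGroup E] [NormedSpace ℝ E] (g : Eu κ ≃ₗᵢ[ℝ] Eu κ)
    (F : Eu κ → E) : ∫ x, F (g x) = ∫ x, F x :=
  g.measurePreserving.integral_comp g.toHomeomorph.measurableEmbedding F

theorem whM_g (g : Eu κ ≃ₗᵢ[ℝ] Eu κ) (hg : ∀ x, w (g x) = w x) : g (whM w) = whM w := by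
  unfold whM
  rw [map_smul]
  congr 1
  have h1 : g (∫ x, w x • x) = ∫ x, g (w x • x) :=
    (g.toContinuousLinearEquiv.integral_comp_comm fun x => w x • x).symm
  rw [h1, ← wh_comp g fun x => w x • x]
  refine integral_congr_ae (Eventually.of_forall fun x => ?_)
  simp only [map_smul, hg]

theorem whQ_g (hw : Adm w) (g : Eu κ ≃ₗᵢ[ℝ] Eu κ) (hg : ∀ x, w (g x) = w x) (a : Eu κ) :
    whQ w hw (g a) = g (whQ w hw a) := by
  change (∫ x, w x)⁻¹ • ∫ x, w x • (⟪x - whM w, g a⟫_ℝ • (x - whM w)) =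
    g ((∫ x, w x)⁻¹ • ∫ x, w x • (⟪x - whM w, a⟫_ℝ • (x - whM w)))
  rw [map_smul]
  congr 1
  have h1 : g (∫ x, w x • (⟪x - whM w, a⟫_ℝ • (x - whM w))) =
      ∫ x, g (w x • (⟪x - whM w, a⟫_ℝ • (x - whM w))) :=
    (g.toContinuousLinearEquiv.integral_comp_comm
      fun x => w x • (⟪x - whM w, a⟫_ℝ • (x - whM w))).symm
  rw [h1, ← wh_comp g fun x => w x • (⟪x - whM w, g a⟫_ℝ • (x - whM w))]
  refine integral_congr_ae (Eventually.of_forall fun x => ?_)
  have h2 : g x - whM w = g (x - whM w) := by rw [map_sub, whM_g g hg]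
  simp only [map_smul, hg, h2, LinearIsometryEquiv.inner_map_map]

theorem wh_main (hw : Adm w) : ∃ S : Eu κ ≃L[ℝ] Eu κ,
    (∀ θ, VW w (fun x => ⟪S x, θ⟫_ℝ) = ‖θ‖ ^ 2) ∧
    ∀ g : Eu κ ≃ₗᵢ[ℝ] Eu κ, (∀ x, w (g x) = w x) → ∀ x, S (g x) = g (S x) := by
  classical
  obtain ⟨C, hCd⟩ : ∃ C : Module.End ℝ (Eu κ), C = whQ w hw := ⟨_, rfl⟩
  have hsym : LinearMap.IsSymmetric C := by
    intro a b
    rw [hCd, whQ_inner, real_inner_comm, whQ_inner]
    congr 1
    refine integral_congr_ae (Eventually.of_forall fun x => ?_)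
    simp only
    ring
  have hpos : ∀ a, a ≠ 0 → 0 < ⟪C a, a⟫_ℝ := fun a ha => by rw [hCd]; exact whQ_pos hw ha
  obtain ⟨n, hn⟩ : ∃ n, Module.finrank ℝ (Eu κ) = n := ⟨_, rfl⟩
  obtain ⟨b, hb⟩ : ∃ b : OrthonormalBasis (Fin n) ℝ (Eu κ), b = hsym.eigenvectorBasis hn :=
    ⟨_, rfl⟩
  obtain ⟨l, hl⟩ : ∃ l : Fin n → ℝ, l = hsym.eigenvalues hn := ⟨_, rfl⟩
  have hev : ∀ i, Module.End.HasEigenvector C (l i) (b i) := by
    intro i
    have := hsym.hasEigenvector_eigenvectorBasis hn i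
    rw [hb, hl]
    exact this
  have hCb : ∀ i, C (b i) = l i • b i := fun i => (hev i).apply_eq_smul
  have hbb : ∀ i, ⟪b i, b i⟫_ℝ = 1 := fun i => by
    rw [real_inner_self_eq_norm_sq, b.norm_eq_one]; norm_num
  have hl0 : ∀ i, 0 < l i := by
    intro i
    have h1 := hpos (b i) (hev i).2
    rw [hCb i, real_inner_smul_left, hbb i, mul_one] at h1
    exact h1
  obtain ⟨P, hP⟩ : ∃ P : ℝ[X], ∀ i, P.eval (l i) = (Real.sqrt (l i))⁻¹ := by
    refine ⟨Lagrange.interpolate (Finset.univ.image l) (fun x : ℝ => x)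
      (fun x => (Real.sqrt x)⁻¹), fun i => ?_⟩
    exact Lagrange.eval_interpolate_at_node (s := Finset.univ.image l) (v := fun x : ℝ => x)
      (r := fun x => (Real.sqrt x)⁻¹) (i := l i) (fun x _ y _ h => h)
      (Finset.mem_image_of_mem l (Finset.mem_univ i))
  obtain ⟨S, hS⟩ : ∃ S : Module.End ℝ (Eu κ), S = aeval C P := ⟨_, rfl⟩
  have hSb : ∀ i, S (b i) = (Real.sqrt (l i))⁻¹ • b i := by
    intro i
    rw [hS, Module.End.aeval_apply_of_hasEigenvector (hev i), hP]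
  have hSsym : ∀ x y, ⟪S x, y⟫_ℝ = ⟪x, S y⟫_ℝ := by
    have key : ∀ i j, ⟪S (b i), b j⟫_ℝ = ⟪b i, S (b j)⟫_ℝ := by
      intro i j
      rw [hSb, hSb, real_inner_smul_left, real_inner_smul_right]
      by_cases hij : i = j
      · rw [hij]
      · rw [b.inner_eq_zero hij]
        simp
    intro x y
    rw [← b.sum_repr x, ← b.sum_repr y]
    simp only [map_sum, map_smul, sum_inner, inner_sum, real_inner_smul_left,
      real_inner_smul_right, key]
  have hcomm : ∀ x, S (C x) = C (S x) := by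
    intro x
    have h : S * C = C * S := by
      rw [hS]
      have h1 : C = aeval C (X : ℝ[X]) := (aeval_X C).symm
      have h2 : aeval C P * aeval C (X : ℝ[X]) = aeval C (X : ℝ[X]) * aeval C P := by
        rw [← map_mul, ← map_mul, mul_comm]
      rw [aeval_X] at h2
      exact h2
    exact LinearMap.congr_fun h x
  have hSCS : ∀ x, S (C (S x)) = x := by
    intro x
    have h : S * (C * S) = 1 := by
      apply b.toBasis.ext
      intro i
      simp only [OrthonormalBasis.coe_toBasis, Module.End.mul_apply, Module.End.one_apply]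
      rw [hSb, map_smul, hCb, map_smul, map_smul, hSb, smul_smul, smul_smul]
      have h0 := Real.sqrt_pos.2 (hl0 i)
      have h1 := Real.mul_self_sqrt (hl0 i).le
      have h2 : (Real.sqrt (l i))⁻¹ * (l i * (Real.sqrt (l i))⁻¹) = 1 := by
        rw [← h1]
        rw [Real.sqrt_mul_self h0.le]
        field_simp
      rw [← mul_assoc] at h2
      rw [h2, one_smul]
    exact LinearMap.congr_fun h x
  have hSCS' : ∀ x, C (S (S x)) = x := fun x => by rw [← hcomm, hSCS]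
  let Se : Eu κ ≃ₗ[ℝ] Eu κ := LinearEquiv.ofLinearMap S (C * S)
    (by ext1 x; exact hSCS x) (by ext1 x; exact hSCS' x)
  refine ⟨Se.toContinuousLinearEquiv, ?_, ?_⟩
  · intro θ
    have h1 : (fun x => ⟪Se.toContinuousLinearEquiv x, θ⟫_ℝ) = fun x => ⟪x, S θ⟫_ℝ := by
      funext x
      exact hSsym x θ
    rw [h1, wh_VW hw, ← hCd, ← hSsym, hSCS, real_inner_self_eq_norm_sq]
  · intro g hg x
    change S (g x) = g (S x)
    have hCg : ∀ y, C (g y) = g (C y) := fun y => by rw [hCd]; exact whQ_g hw g hg y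
    have hCn : ∀ (n : ℕ) y, (C ^ n) (g y) = g ((C ^ n) y) := by
      intro n
      induction n with
      | zero => intro y; simp
      | succ n ih =>
        intro y
        rw [pow_succ, Module.End.mul_apply, Module.End.mul_apply, hCg, ih]
    have hall : ∀ (p : ℝ[X]) (y : Eu κ), aeval C p (g y) = g (aeval C p y) := by
      intro p
      induction p using Polynomial.induction_on' with
      | add p q hp hq =>
        intro y
        rw [map_add, LinearMap.add_apply, LinearMap.add_apply, hp, hq, map_add]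
      | monomial n a =>
        intro y
        rw [aeval_monomial, Module.End.mul_apply, Module.End.mul_apply, hCn,
          Module.algebraMap_end_apply, Module.algebraMap_end_apply, map_smul]
    rw [hS]
    exact hall P x

end

theorem wht : S_WHT := fun _ _ _ hw => wh_main hw

end Pool.Agent.R751.MB

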