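import Pool.Agent.R751.MB.Res
import Pool.Agent.R751.MB.Fin
import Pool.Agent.R751.MB.Her
import Pool.Agent.R751.MB.Lin
import Pool.Agent.R751.MB.Ten
import Pool.Agent.R751.MB.Gen
import Pool.Agent.R751.MB.Wht
import Pool.Agent.R751.MB.Mxd
import Pool.Agent.R751.MB.Gmm
import Pool.Agent.R751.MB.Rdm
import Pool.Agent.R751.MB.Wal
import Pool.Agent.R80.MB.Sym
import Pool.Agent.R80.MB.Mat
import Pool.Agent.Results.MP_6d896a_gt.OneSymmetric
import Pool.Agent.Results.MP_6d896a_gt.OrthogonalInvariant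
import Pool.Agent.Y151.PV.Hyp
import Pool.Agent.Y532.PV.Che

/-!
# Project MB: assembly for block sums
-/

set_option autoImplicit false

namespace Pool.Agent.R751.MB

open MeasureTheory Set

theorem pSYM : S_SYM := by
  obtain ⟨C, hC, H⟩ := Pool.Agent.Results.MP_6d896a_gt.OneSymmetric.result
  exact Pool.Agent.R80.MB.sym ⟨C, hC, fun n hn ρ h1 h2 h3 h4 => H n hn ρ ⟨h1, h2, h3, h4⟩⟩ wht gen

theorem pMAT : S_MAT :=
  Pool.Agent.R80.MB.mat Pool.Agent.Results.MP_6d896a_gt.OrthogonalInvariant.result wht gen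

theorem pHER : S_HER := her wht gen lin

theorem pRDM : S_RDM := rdm mxd gmm

theorem pWAL : S_WAL := wal

/-- concentration for block sums -/
theorem ccl_bn : CCl fun _ K => BN K := by
  intro δ hδ
  obtain ⟨κ, hκ, H⟩ := bw_cc pSYM pMAT pHER lin ten pRDM pWAL δ hδ
  exact ⟨κ, hκ, fun n K hn hK => H n K hn hK.bw⟩

theorem star_bn (r : ℕ) : ∃ c : ℝ, 0 < c ∧ ∀ (m n : ℕ) (K : Set (Eu (Fin m)))
    (T : Eu (Fin m) →ᵃ[ℝ] Eu (Fin n)),
    1 ≤ n → m ≤ n + r → BN K → Function.Surjective T → IsCompact (T '' K) ∧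
    Convex ℝ (T '' K) ∧ (interior (T '' K)).Nonempty ∧
    Pool.Agent.Y506.RG.Star c (Pool.Agent.Y506.PV.ind (T '' K)) :=
  star_gen ccl_bn r

end Pool.Agent.R751.MB
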