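import Pool.Agent.R751.MB.Comp
import Pool.Agent.R755.KF.Cls

/-!
# Project MB: the class of composite bodies, with block sums and Poincare bodies at the bottom
-/

set_option autoImplicit false

namespace Pool.Agent.R751.MB

open MeasureTheory Set Filter Topology
open scoped ENNReal InnerProductSpace Pointwise
open Pool.Agent.R754.KG (sl min_const cc_zero cc_trans cc_fib rel_hom Fb)

/-- the class of composite bodies -/
inductive Cq (s : ℕ) (p c0 : ℝ) : ℕ → ∀ n : ℕ, Set (Eu (Fin n)) → Prop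
  | base (m : ℕ) (K : Set (Eu (Fin m))) : Pool.Agent.Y506.PV.Base s s p K → Cq s p c0 0 m K
  | orl (m : ℕ) (K : Set (Eu (Fin m))) : Pool.Agent.R476.OR.Orl K → Cq s p c0 0 m K
  | blk (n : ℕ) (K : Set (Eu (Fin n))) : 1 ≤ n → BN K → Cq s p c0 0 n K
  | poi (n : ℕ) (K : Set (Eu (Fin n))) : Pool.Agent.R755.KF.PI c0 K → Cq s p c0 0 n K
  | par (N d q n : ℕ) (b : Fin N → Fin q) (e : Conf N d ≃ₗ[ℝ] Eu (Fin n)) (K : Set (Conf N d)) :
      1 ≤ N → 1 ≤ d → d ≤ s → q ≤ s → Function.Surjective b → Body K →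
      (∀ σ : Equiv.Perm (Fin N), (∀ i, b (σ i) = b i) → ∀ x y : Conf N d,
        (∀ i α, y (i, α) = x (σ i, α)) → x ∈ K → y ∈ K) → Cq s p c0 0 n (e '' K)
  | up (h n : ℕ) (K : Set (Eu (Fin n))) : Cq s p c0 h n K → Cq s p c0 (h + 1) n K
  | image (h m n : ℕ) (K : Set (Eu (Fin m))) (A : Eu (Fin m) →ₗ[ℝ] Eu (Fin n)) (w : Eu (Fin n)) :
      m ≤ n + s → Function.Surjective A → Cq s p c0 h m K → Cq s p c0 (h + 1) n ((fun x => w + A x) '' K)
  | prod (h a b n : ℕ) (e : (Eu (Fin a) × Eu (Fin b)) ≃ₗ[ℝ] Eu (Fin n)) (K : Set (Eu (Fin a)))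
      (L : Set (Eu (Fin b))) : Cq s p c0 h a K → Cq s p c0 h b L → Cq s p c0 (h + 1) n (e '' (K ×ˢ L))
  | dsum (h b n : ℕ) (m : Fin b → ℕ) (e : (∀ i, Eu (Fin (m i))) ≃ₗ[ℝ] Eu (Fin n))
      (D : Set (Eu (Fin b))) (K : ∀ i, Set (Eu (Fin (m i)))) : b ≤ s → (∀ i, 1 ≤ m i) → UBody D →
      (∀ i, ∀ x ∈ K i, -x ∈ K i) → (∀ i, Cq s p c0 h (m i) (K i)) → Cq s p c0 (h + 1) n (e '' dsum D K)
  | fibred (h N j n : ℕ) (K : Set (Eu (Fin n))) (e : (Eu (Fin N) × Eu (Fin j)) ≃ₗ[ℝ] Eu (Fin n))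
      (L : Set (Eu (Fin N))) : j ≤ s → Cq s p c0 h N L → Body K →
      (∀ t, volume (sl (e ⁻¹' K) t) = 0 ∨ ∃ (v : Eu (Fin N)) (ρ : ℝ), 0 < ρ ∧
        sl (e ⁻¹' K) t = (fun x => v + ρ • x) '' L) → Cq s p c0 (h + 1) n K

/-- **concentration for composite bodies** -/
theorem cq_cc (hSYM : S_SYM) (hMAT : S_MAT) (hHER : S_HER) (hLIN : S_LIN) (hTEN : S_TEN)
    (hRDM : S_RDM) (hWAL : S_WAL) (hPRD : S_PRD) (hFSU : S_FSU) (hPAR : S_PAR)
    (hORL : ∀ δ : ℝ, 0 < δ → ∃ κ : ℝ, 0 < κ ∧ ∀ (m : ℕ) (K : Set (Eu (Fin m))), 1 ≤ m →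
      Pool.Agent.R476.OR.Orl K → Pool.Agent.Y506.PV.CcW κ δ (Pool.Agent.Y506.PV.ind K))
    (s : ℕ) (p c0 : ℝ) (hp : 1 ≤ p) (hc0 : 0 < c0) (h : ℕ) : ∀ δ : ℝ, 0 < δ → ∃ κ : ℝ, 0 < κ ∧
    ∀ (n : ℕ) (K : Set (Eu (Fin n))), Cq s p c0 h n K → Body K ∧ CcW κ δ (ind K) := by
  induction h with
  | zero =>
    intro δ hδ
    obtain ⟨κ1, hκ1, H1⟩ := Pool.Agent.Y506.PV.cc_base Pool.Agent.Y506.PV.ccl
      Pool.Agent.Y363.PV.phis Pool.Agent.Y506.PV.radR Pool.Agent.Y211.PV.iso s s p hp δ hδ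
    obtain ⟨κ2, hκ2, H2⟩ := hORL δ hδ
    obtain ⟨κ3, hκ3, H3⟩ := bw_cc hSYM hMAT hHER hLIN hTEN hRDM hWAL δ hδ
    obtain ⟨κ4, hκ4, H4⟩ := min_const (P := fun d κ => ∀ q, q ≤ s → ∀ (N n : ℕ) (b : Fin N → Fin q)
        (e : Conf N d ≃ₗ[ℝ] Eu (Fin n)) (K : Set (Conf N d)), 1 ≤ N → 1 ≤ d →
        Function.Surjective b → Body K →
        (∀ σ : Equiv.Perm (Fin N), (∀ i, b (σ i) = b i) → ∀ x y : Conf N d,
          (∀ i α, y (i, α) = x (σ i, α)) → x ∈ K → y ∈ K) → CcW κ δ (ind (e '' K)))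
      (fun d => by
        by_cases hd : 1 ≤ d
        · obtain ⟨κ, hκ, H⟩ := min_const (P := fun q κ => ∀ (N n : ℕ) (b : Fin N → Fin q)
            (e : Conf N d ≃ₗ[ℝ] Eu (Fin n)) (K : Set (Conf N d)), 1 ≤ N →
            Function.Surjective b → Body K →
            (∀ σ : Equiv.Perm (Fin N), (∀ i, b (σ i) = b i) → ∀ x y : Conf N d,
              (∀ i α, y (i, α) = x (σ i, α)) → x ∈ K → y ∈ K) → CcW κ δ (ind (e '' K)))
            (fun q => hPAR d q δ hδ hd)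
            (fun q κ κ' hκκ hP N n b e K hN hb hK hinv => 
              Pool.Agent.Y506.PV.CcW.mono hκκ (hP N n b e K hN hb hK hinv)) s
          exact ⟨κ, hκ, fun q hq N n b e K hN _ hb hK hinv => H q hq N n b e K hN hb hK hinv⟩
        · exact ⟨1, one_pos, fun q hq N n b e K hN hd' => absurd hd' hd⟩)
      (fun d κ κ' hκκ hP q hq N n b e K hN hd hb hK hinv =>
        Pool.Agent.Y506.PV.CcW.mono hκκ (hP q hq N n b e K hN hd hb hK hinv)) s
    refine ⟨min (min (min κ1 κ2) (min κ3 κ4)) (Real.sqrt (δ / c0)),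
      lt_min (lt_min (lt_min hκ1 hκ2) (lt_min hκ3 hκ4)) (Real.sqrt_pos.2 (by positivity)),
      fun n K hK => ?_⟩
    cases hK with
    | base _ _ hb =>
      have hcp := hb.compact Pool.Agent.Y363.PV.phis hp
      refine ⟨⟨hcp, hb.convex Pool.Agent.Y363.PV.phis hp, hb.2.1⟩, ?_⟩
      rcases Nat.eq_zero_or_pos n with rfl | hn
      · exact cc_zero hδ.le K hcp hb.2.1
      · exact Pool.Agent.Y506.PV.CcW.mono ((min_le_left _ _).trans ((min_le_left _ _).trans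
          (min_le_left _ _))) (H1 n K hn hb)
    | orl _ _ hb =>
      obtain ⟨g1, g2, g3⟩ := hb.prop Pool.Agent.R476.OR.box
      refine ⟨⟨g1, g2, g3⟩, ?_⟩
      rcases Nat.eq_zero_or_pos n with rfl | hn
      · exact cc_zero hδ.le K g1 g3
      · exact Pool.Agent.Y506.PV.CcW.mono ((min_le_left _ _).trans ((min_le_left _ _).trans
          (min_le_right _ _))) (H2 n K hn hb)
    | blk _ _ hn hN =>
      obtain ⟨g1, g2⟩ := H3 n _ hn hN.bw
      exact ⟨g1, Pool.Agent.Y506.PV.CcW.mono ((min_le_left _ _).trans ((min_le_right _ _).trans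
        (min_le_left _ _))) g2⟩
    | poi _ _ hb =>
      refine ⟨⟨hb.comp, hb.conv, hb.int⟩, ?_⟩
      exact Pool.Agent.Y506.PV.CcW.mono (min_le_right _ _) (Pool.Agent.R755.KF.cc_of_kp hc0 hδ
        hb.comp hb.int (hb.kp hc0.le))
    | par N d q _ b e K hN hd hds hqs hb hK hinv =>
      exact ⟨body_equiv e hK, Pool.Agent.Y506.PV.CcW.mono ((min_le_left _ _).trans
        ((min_le_right _ _).trans (min_le_right _ _))) (H4 d hds q hqs N n b e K hN hd hb hK hinv)⟩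
  | succ h ih =>
    intro δ hδ
    obtain ⟨κ0, hκ0, H0⟩ := ih δ hδ
    -- images
    obtain ⟨κ1, hκ1, H1⟩ := min_const (P := fun j κ => ∀ (n : ℕ) (K : Set (Eu (Fin (n + j))))
        (A : Eu (Fin (n + j)) →ₗ[ℝ] Eu (Fin n)), Function.Surjective A → Cq s p c0 h (n + j) K →
        CcW κ δ (ind (A '' K)))
      (fun j => by
        obtain ⟨δ0, c, hδ0, hc, H1⟩ := Pool.Agent.Y506.PV.cc_img Pool.Agent.Y941.PV.prj
          Pool.Agent.Y506.PV.denR Pool.Agent.Y388.PV.cmp Pool.Agent.Y388.PV.fac j δ hδ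
        obtain ⟨κ, hκ, H2⟩ := ih δ0 hδ0
        refine ⟨c * κ, by positivity, fun n K A hA hK => ?_⟩
        obtain ⟨⟨h1, h2, h3⟩, h4⟩ := H2 _ K hK
        exact H1 n κ K A hκ h1 h2 h3 hA h4)
      (fun j κ κ' hκκ hP n K A hA hK => Pool.Agent.Y506.PV.CcW.mono hκκ (hP n K A hA hK)) s
    -- products
    obtain ⟨κ2, hκ2, H2⟩ := ih (δ / 2) (by positivity)
    -- sums
    obtain ⟨κ3, hκ3, H3⟩ := min_const (P := fun b κ => ∀ (n : ℕ) (m : Fin b → ℕ)
        (e : (∀ i, Eu (Fin (m i))) ≃ₗ[ℝ] Eu (Fin n)) (D : Set (Eu (Fin b)))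
        (K : ∀ i, Set (Eu (Fin (m i)))), (∀ i, 1 ≤ m i) → UBody D → (∀ i, ∀ x ∈ K i, -x ∈ K i) →
        (∀ i, Cq s p c0 h (m i) (K i)) → CcW κ δ (ind (e '' dsum D K)))
      (fun b => by
        obtain ⟨δ0, hδ0, H3⟩ := hFSU b δ hδ
        obtain ⟨κ', hκ', H4⟩ := ih δ0 hδ0
        obtain ⟨κ, hκ, H5⟩ := H3 κ' hκ'
        exact ⟨κ, hκ, fun n m e D K hm hD hs hK => H5 n m e D K hm hD (fun i => (H4 _ _ (hK i)).1)
          hs fun i => (H4 _ _ (hK i)).2⟩)
      (fun b κ κ' hκκ hP n m e D K hm hD hs hK =>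
        Pool.Agent.Y506.PV.CcW.mono hκκ (hP n m e D K hm hD hs hK)) s
    -- fibrations
    obtain ⟨κ4, hκ4, H4⟩ := min_const (P := fun j κ => ∀ (N n : ℕ)
        (e : (Eu (Fin N) × Eu (Fin j)) ≃ₗ[ℝ] Eu (Fin n)) (K : Set (Eu (Fin N) × Eu (Fin j)))
        (L : Set (Eu (Fin N))), Fb K → Cq s p c0 h N L →
        (∀ t, volume (sl K t) ≠ 0 → ∃ (v : Eu (Fin N)) (ρ : ℝ), 0 < ρ ∧
          sl K t = (fun x => v + ρ • x) '' L) → CcW κ δ (ind (e '' K)))
      (fun j => by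
        obtain ⟨κ, hκ, H5⟩ := ih (δ / 4) (by positivity)
        obtain ⟨κ', hκ', H6⟩ := cc_fib hδ hκ j
        refine ⟨κ', hκ', fun N n e K L hF hL hh => H6 N n e K hF fun t ht => ?_⟩
        obtain ⟨v, ρ, hρ, hs⟩ := hh t ht
        obtain ⟨g1, g2⟩ := H5 N L hL
        rw [hs]
        exact cc_hom g1 v ρ hρ g2)
      (fun j κ κ' hκκ hP N n e K L hF hL hh =>
        Pool.Agent.Y506.PV.CcW.mono hκκ (hP N n e K L hF hL hh)) s
    refine ⟨min (min κ0 κ1) (min κ2 (min κ3 κ4)),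
      lt_min (lt_min hκ0 hκ1) (lt_min hκ2 (lt_min hκ3 hκ4)), fun n K hK => ?_⟩
    cases hK with
    | up _ _ _ hK =>
      obtain ⟨h1, h2⟩ := H0 n K hK
      exact ⟨h1, Pool.Agent.Y506.PV.CcW.mono ((min_le_left _ _).trans (min_le_left _ _)) h2⟩
    | image _ m _ K A w hm hA hK =>
      obtain ⟨⟨h1, h2, h3⟩, -⟩ := H0 m K hK
      have hAc : Continuous A := A.continuous_of_finiteDimensional
      have e : (fun x => w + A x) '' K = (fun x => w + x) '' (A '' K) := by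
        rw [image_image]
      have hnm : n ≤ m := by
        have := LinearMap.finrank_le_finrank_of_surjective (f := A) hA
        simpa using this
      obtain ⟨j, rfl⟩ : ∃ j, m = n + j := ⟨m - n, by omega⟩
      have i1 : IsCompact (A '' K) := h1.image hAc
      have i3 := Pool.Agent.Y506.PV.int_image h3 A hA
      rw [e]
      refine ⟨⟨i1.image (by fun_prop), (h2.linear_image A).translate w,
        Pool.Agent.R754.KG.int_trans i3 w⟩, ?_⟩
      exact Pool.Agent.Y506.PV.CcW.mono ((min_le_left _ _).trans (min_le_right _ _))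
        (cc_trans _ i1 i3 w (H1 j (by omega) n K A hA hK))
    | prod _ a b _ e K L hK hL =>
      obtain ⟨h1, h2⟩ := H2 _ K hK
      obtain ⟨h3, h4⟩ := H2 _ L hL
      refine ⟨body_prod e h1 h3, ?_⟩
      have h5 := hPRD κ2 (δ / 2) (δ / 2) a b n e K L h1 h3 h2 h4
      rw [add_halves] at h5
      exact Pool.Agent.Y506.PV.CcW.mono ((min_le_right _ _).trans (min_le_left _ _)) h5
    | dsum _ b _ m e D K hb hm hD hs hK =>
      refine ⟨dsb b n m e D K hD (fun i => (H0 _ _ (hK i)).1) hs, ?_⟩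
      exact Pool.Agent.Y506.PV.CcW.mono ((min_le_right _ _).trans ((min_le_right _ _).trans
        (min_le_left _ _))) (H3 b hb n m e D K hm hD hs hK)
    | fibred _ N j _ K e L hj hL hK hfib =>
      refine ⟨hK, ?_⟩
      obtain ⟨hc, hcv, hi⟩ := hK
      let e' : (Eu (Fin N) × Eu (Fin j)) ≃L[ℝ] Eu (Fin n) := e.toContinuousLinearEquiv
      have hpc : IsCompact (e ⁻¹' K) := e'.toHomeomorph.isCompact_preimage.2 hc
      have hint : (interior (e ⁻¹' K)).Nonempty := by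
        obtain ⟨x, hx⟩ := hi
        have h2 : IsOpen (e' ⁻¹' interior K) := isOpen_interior.preimage e'.continuous
        refine ⟨e'.symm x, interior_maximal (preimage_mono interior_subset) h2 ?_⟩
        change e' (e'.symm x) ∈ interior K
        rw [e'.apply_symm_apply]
        exact hx
      obtain ⟨g1, -⟩ := H0 N L hL
      have hfib' : ∀ t, volume (sl (e ⁻¹' K) t) ≠ 0 → ∃ (v : Eu (Fin N)) (ρ : ℝ), 0 < ρ ∧
          sl (e ⁻¹' K) t = (fun x => v + ρ • x) '' L := fun t ht => (hfib t).resolve_left ht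
      have hF : Fb (e ⁻¹' K) := by
        refine ⟨hcv.linear_preimage e.toLinearMap, hpc.measurableSet, hpc.isBounded, ?_, ?_⟩
        · exact lt_of_lt_of_le (isOpen_interior.measure_pos volume hint)
            (measure_mono interior_subset)
        · intro t t' ht ht'
          obtain ⟨v, ρ, hρ, hC⟩ := hfib' t ht
          obtain ⟨v', ρ', hρ', hC'⟩ := hfib' t' ht'
          have hB := body_hom g1 v ρ hρ
          rw [← hC] at hB
          have key := rel_hom hB.comp hB.int (v' - (ρ' / ρ) • v) (ρ' / ρ) (by positivity)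
          have e1 : sl (e ⁻¹' K) t' = (fun x => (v' - (ρ' / ρ) • v) + (ρ' / ρ) • x) ''
              sl (e ⁻¹' K) t := by
            rw [hC, hC', image_image]
            refine image_congr fun x _ => ?_
            rw [smul_add, smul_smul, div_mul_cancel₀ _ hρ.ne']
            abel
          rw [← e1] at key
          exact key
      have h3 := H4 j hj N n e (e ⁻¹' K) L hF hL hfib'
      rw [image_preimage_eq K e.surjective] at h3
      exact Pool.Agent.Y506.PV.CcW.mono ((min_le_right _ _).trans ((min_le_right _ _).trans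
        (min_le_right _ _))) h3

end Pool.Agent.R751.MB
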