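import Pool.Agent.R751.MB.Fsu1
import Pool.Agent.R754.KG.F

/-!
# Project MB, piece FSU: unconditional sums of boundedly many symmetric bodies
-/

set_option autoImplicit false

namespace Pool.Agent.R751.MB

open MeasureTheory Set Filter Topology
open scoped ENNReal InnerProductSpace Pointwise
open Pool.Agent.R754.KG (E sl Fb)

theorem ccw_mono {n : ℕ} {κ δ δ' : ℝ} (h : δ ≤ δ') {w : Eu (Fin n) → ℝ} (hc : CcW κ δ w) :
    CcW κ δ' w := by
  intro k hk T s hs hv v h1 h2 h3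
  exact (hc k hk T s hs hv v h1 h2 h3).trans h

/-- dilates -/
theorem ccw_smul {k : ℕ} {κ δ : ℝ} {K : Set (Eu (Fin k))} (hK : Body K) {c : ℝ} (hc : 0 < c)
    (h : CcW κ δ (ind K)) : CcW κ δ (ind (c • K)) := by
  have hadm := Pool.Agent.Y506.PV.adm_ind K hK.comp.measurableSet hK.comp.isBounded
    (Pool.Agent.Y506.PV.vol_pos hK.int)
  let A : Eu (Fin k) ≃L[ℝ] Eu (Fin k) :=
    (LinearEquiv.smulOfNeZero ℝ (Eu (Fin k)) c hc.ne').toContinuousLinearEquiv
  have e : c • K = A '' K := rfl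
  rw [e]
  exact Pool.Agent.Y506.PV.cc_equiv A K hadm h

/-- the projection of the body over the cone -/
theorem fst_KK {b n : ℕ} {m : Fin b → ℕ} (e : (∀ i, Eu (Fin (m i))) ≃ₗ[ℝ] Eu (Fin n))
    {D : Set (Eu (Fin b))} {K : ∀ i, Set (Eu (Fin (m i)))} (hD : UBody D)
    (hs : ∀ i, ∀ x ∈ K i, -x ∈ K i) : Prod.fst '' KK e D K = e '' dsum D K := by
  ext z
  constructor
  · rintro ⟨⟨z, t⟩, ⟨⟨hD, _⟩, hx⟩, rfl⟩
    exact ⟨e.symm z, ⟨t, hD, hx⟩, e.apply_symm_apply z⟩
  · rintro ⟨x, ⟨t, ht, hx⟩, rfl⟩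
    refine ⟨(e x, WithLp.toLp 2 fun i => |t i|), ⟨⟨hD.unc t ht _ fun i => by simp,
      fun i => abs_nonneg _⟩, fun i => ?_⟩, rfl⟩
    simp only
    rw [LinearEquiv.symm_apply_apply]
    obtain ⟨y, hy, hyx⟩ := hx i
    rcases le_total 0 (t i) with h | h
    · refine ⟨y, hy, ?_⟩
      simp only at hyx ⊢
      rw [abs_of_nonneg h, hyx]
    · refine ⟨-y, hs i y hy, ?_⟩
      simp only at hyx ⊢
      rw [abs_of_nonpos h, smul_neg, neg_smul, neg_neg, hyx]

/-- MB-FSU from MB-PRB -/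
theorem fsu (h : S_PRB) : S_FSU := by
  intro b δ hδ
  obtain ⟨δ1, c, hδ1, hc, H1⟩ := Pool.Agent.Y506.PV.cc_img Pool.Agent.Y941.PV.prj
    Pool.Agent.Y506.PV.denR Pool.Agent.Y388.PV.cmp Pool.Agent.Y388.PV.fac b δ hδ
  refine ⟨δ1 / (4 * (b + 1)), by positivity, fun κ0 hκ0 => ?_⟩
  obtain ⟨κ1, hκ1, H2⟩ := Pool.Agent.R754.KG.cc_fib hδ1 hκ0 b
  refine ⟨c * κ1, by positivity, fun n m e D K hm hD hK hs hcc => ?_⟩
  let e' : (E n × E b) ≃ₗ[ℝ] E (n + b) := LinearEquiv.ofFinrankEq _ _ (by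
    rw [Module.finrank_prod]
    simp)
  have hF := Fb_KK e hm hD hK hs
  have hcc1 : ∀ t, volume (sl (KK e D K) t) ≠ 0 →
      Pool.Agent.Y506.PV.CcW κ0 (δ1 / 4) (Pool.Agent.Y506.PV.ind (sl (KK e D K) t)) := by
    intro t ht
    obtain ⟨hD1, hp1⟩ := sl_pos e hm ht
    rw [sl_KK e hD1 fun i => (hp1 i).le]
    have h2 := h b κ0 (δ1 / (4 * (b + 1))) n m e (fun i => t i • K i) (by positivity)
      (fun i => body_smul (hK i) (hp1 i)) (fun i => ccw_smul (hK i) (hp1 i) (hcc i))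
    refine ccw_mono ?_ h2
    have hb : (0 : ℝ) < (b : ℝ) + 1 := by positivity
    rw [mul_div_assoc', div_le_div_iff₀ (by positivity) (by norm_num)]
    nlinarith [hδ1]
  have h3 := H2 n (n + b) e' (KK e D K) hF hcc1
  let ec : (E n × E b) ≃L[ℝ] E (n + b) := e'.toContinuousLinearEquiv
  have hcomp : IsCompact (e' '' KK e D K) :=
    (KK_compact e hD.comp fun i => (hK i).comp).image ec.continuous
  have hconv : Convex ℝ (e' '' KK e D K) :=
    (KK_convex e hD.conv fun i => (hK i).conv).linear_image e'.toLinearMap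
  have hint : (interior (e' '' KK e D K)).Nonempty := by
    have h5 : ec '' interior (KK e D K) ⊆ interior (ec '' KK e D K) :=
      (ec.toHomeomorph.isOpenMap).image_interior_subset _
    exact ((KK_interior e hD hK).image _).mono h5
  let A : E (n + b) →ₗ[ℝ] E n := LinearMap.fst ℝ (E n) (E b) ∘ₗ e'.symm.toLinearMap
  have hA : Function.Surjective A := by
    intro z
    refine ⟨e' (z, 0), ?_⟩
    change (e'.symm (e' (z, 0))).1 = z
    rw [LinearEquiv.symm_apply_apply]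
  have him : A '' (e' '' KK e D K) = e '' dsum D K := by
    rw [image_image, ← fst_KK e hD hs]
    apply image_congr
    intro p _
    change (e'.symm (e' p)).1 = p.1
    rw [LinearEquiv.symm_apply_apply]
  have h4 := H1 n κ1 (e' '' KK e D K) A hκ1 hcomp hconv hint hA h3
  rw [him] at h4
  exact h4

end Pool.Agent.R751.MB
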