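import Pool.Agent.R751.MB.All
import Pool.Agent.R751.MB.Comp2
import Pool.Agent.R751.MB.Prd
import Pool.Agent.R751.MB.Prb
import Pool.Agent.R751.MB.Fsu
import Pool.Agent.R751.MB.Par

/-!
# Project MB: assembly for composite bodies, second form
-/

set_option autoImplicit false

namespace Pool.Agent.R751.MB

open MeasureTheory Set

theorem star_cq (s h : ℕ) (c0 : ℝ) (hc0 : 0 < c0) : ∃ c : ℝ, 0 < c ∧
    ∀ (n : ℕ) (K : Set (Eu (Fin n))), 1 ≤ n →
    Cq s 1 c0 h n K → IsCompact K ∧ Convex ℝ K ∧ (interior K).Nonempty ∧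
    Pool.Agent.Y506.RG.Star c (Pool.Agent.Y506.PV.ind K) := by
  obtain ⟨κ, hκ, H⟩ := cq_cc pSYM pMAT pHER lin ten pRDM pWAL prd (fsu (prb prd)) (par wht gen)
    (Pool.Agent.R476.OR.cc_orl (Pool.Agent.R476.OR.gtw Pool.Agent.R476.OR.two
      Pool.Agent.R476.OR.m4r) (Pool.Agent.R476.OR.apz Pool.Agent.R476.OR.limc)
      Pool.Agent.R476.OR.box) s 1 c0 le_rfl hc0 h (1 / 25) (by norm_num)
  obtain ⟨c, hc, H'⟩ := Pool.Agent.Y506.PV.stb Pool.Agent.Y211.PV.iso κ hκ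
  refine ⟨c, hc, fun n K hn hK => ?_⟩
  obtain ⟨⟨h1, h2, h3⟩, h4⟩ := H n K hK
  exact ⟨h1, h2, h3, H' n K h1 h2 h3 h4⟩

/-- monotonicity of the Poincare inequality in the constant -/
theorem pi_mono {c0 c1 : ℝ} (h : c0 ≤ c1) {N : ℕ} {C : Set (Eu (Fin N))}
    (H : Pool.Agent.R755.KF.PI c0 C) : Pool.Agent.R755.KF.PI c1 C := by
  obtain ⟨A, h1, h2⟩ := H.poi
  refine ⟨H.comp, H.conv, H.int, A, h1, fun f hf => (h2 f hf).trans ?_⟩
  exact mul_le_mul_of_nonneg_right h (integral_nonneg fun x => by positivity)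

end Pool.Agent.R751.MB
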