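import Pool.Agent.R751.MB.Stm

/-!
# Project MB: the Poincare inequality gives concentration
-/

set_option autoImplicit false

namespace Pool.Agent.R751.MB

open MeasureTheory Set Filter Topology
open scoped ENNReal InnerProductSpace Pointwise

/-- composition with a linear map of norm at most `R` -/
theorem comp_lin {κ₁ κ₂ : Type} [Fintype κ₁] [Fintype κ₂] (T : Eu κ₁ →L[ℝ] Eu κ₂) (R : ℝ)
    (hT : ‖T‖ ≤ R) (v : Eu κ₂ → ℝ) (hv : ContDiff ℝ 1 v) (l : ℝ)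
    (hl : ∀ y, ‖fderiv ℝ v y‖ ≤ l) : ContDiff ℝ 1 (fun x => v (T x)) ∧
    ∀ x, ‖fderiv ℝ (fun x => v (T x)) x‖ ≤ l * R := by
  have hl0 : 0 ≤ l := (norm_nonneg _).trans (hl 0)
  refine ⟨hv.comp T.contDiff, fun x => ?_⟩
  have h3 : HasFDerivAt v (fderiv ℝ v (T x)) (T x) :=
    (hv.differentiable one_ne_zero _).hasFDerivAt
  have h4 : HasFDerivAt (fun x => v (T x)) ((fderiv ℝ v (T x)).comp T) x :=
    HasFDerivAt.comp x h3 T.hasFDerivAt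
  rw [h4.fderiv]
  calc ‖(fderiv ℝ v (T x)).comp T‖
      ≤ ‖fderiv ℝ v (T x)‖ * ‖T‖ := ContinuousLinearMap.opNorm_comp_le _ _
    _ ≤ l * R := mul_le_mul (hl _) hT (norm_nonneg _) hl0

/-- the norm of `T S⁻¹` -/
theorem norm_le {κ₁ κ₂ : Type} [Fintype κ₁] [Fintype κ₂] (w : Eu κ₁ → ℝ) (S : Eu κ₁ ≃L[ℝ] Eu κ₁)
    (hS : ∀ θ, VW w (fun x => ⟪S x, θ⟫_ℝ) = ‖θ‖ ^ 2) (T : Eu κ₁ →L[ℝ] Eu κ₂) (s : ℝ) (hs : 0 < s)
    (hT : ∀ θ : Eu κ₂, ‖θ‖ = 1 → VW w (fun x => ⟪T x, θ⟫_ℝ) ≤ s) :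
    ‖T.comp (S.symm : Eu κ₁ →L[ℝ] Eu κ₁)‖ ≤ Real.sqrt s := by
  obtain ⟨U, hU⟩ : ∃ U : Eu κ₁ →L[ℝ] Eu κ₂, U = T.comp (S.symm : Eu κ₁ →L[ℝ] Eu κ₁) := ⟨_, rfl⟩
  have hUx : ∀ x, T x = U (S x) := fun x => by
    rw [hU]
    simp
  rw [← hU, ← LinearIsometryEquiv.norm_map ContinuousLinearMap.adjoint U]
  refine ContinuousLinearMap.opNorm_le_of_unit_norm (Real.sqrt_nonneg s) fun θ hθ => ?_
  have h1 := hT θ hθ
  have h2 : (fun x => ⟪T x, θ⟫_ℝ) = fun x => ⟪S x, ContinuousLinearMap.adjoint U θ⟫_ℝ := by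
    funext x
    rw [hUx, ContinuousLinearMap.adjoint_inner_right]
  rw [h2, hS] at h1
  exact Real.le_sqrt_of_sq_le h1

theorem EW_le_const {κ : Type} [Fintype κ] {w : Eu κ → ℝ} (hw : Adm w) (v : Eu κ → ℝ) (c : ℝ)
    (hc : 0 ≤ c) (hv : ∀ x, v x ≤ c) : EW w v ≤ c := by
  unfold EW
  rw [div_le_iff₀ hw.pos, ← integral_const_mul]
  have hi : Integrable w := by
    refine Integrable.mono' hw.int hw.meas.aestronglyMeasurable (Eventually.of_forall fun x => ?_)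
    rw [Real.norm_eq_abs, abs_of_nonneg (hw.nonneg x)]
    nlinarith [sq_nonneg ‖x‖, hw.nonneg x, mul_nonneg (sq_nonneg ‖x‖) (hw.nonneg x)]
  by_cases hi2 : Integrable fun x => v x * w x
  · exact integral_mono hi2 (hi.const_mul c) fun x =>
      mul_le_mul_of_nonneg_right (hv x) (hw.nonneg x)
  · rw [integral_undef hi2]
    exact integral_nonneg fun x => mul_nonneg hc (hw.nonneg x)

/-- the Poincare inequality gives concentration -/
theorem apc : S_APC := by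
  intro A δ hA hδ
  refine ⟨Real.sqrt (δ / A), Real.sqrt_pos.2 (by positivity), fun n w h k hk T s hs hT v hv hv1
    hvl => ?_⟩
  obtain ⟨S, hS, hP⟩ := h.poi
  obtain ⟨T', hT'⟩ : ∃ T' : Eu (Fin n) →L[ℝ] Eu (Fin k), T' = LinearMap.toContinuousLinearMap T :=
    ⟨_, rfl⟩
  have hTx : ∀ x, T x = T' x := fun x => by rw [hT']; rfl
  have hn := norm_le w S hS T' s hs (fun θ hθ => by
    have := hT θ hθ
    simp only [hTx] at this
    exact this)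
  obtain ⟨h1, h2⟩ := comp_lin (T'.comp (S.symm : Eu (Fin n) →L[ℝ] Eu (Fin n))) _ hn v hv _ hvl
  have hsq : Real.sqrt s ≠ 0 := (Real.sqrt_pos.2 hs).ne'
  rw [div_mul_cancel₀ _ hsq] at h2
  have key := hP _ h1 ⟨1, fun x => hv1 _⟩ ⟨_, h2⟩
  have e1 : ∀ x, (T'.comp (S.symm : Eu (Fin n) →L[ℝ] Eu (Fin n))) (S x) = T x := by
    intro x
    rw [hTx]
    simp
  simp only [e1] at key
  refine key.trans ?_
  have h3 : EW w (fun x => ‖fderiv ℝ (fun x => v ((T'.comp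
      (S.symm : Eu (Fin n) →L[ℝ] Eu (Fin n))) x)) (S x)‖ ^ 2) ≤ δ / A := by
    refine EW_le_const h.adm _ _ (by positivity) fun x => ?_
    have h4 := h2 (S x)
    calc _ ≤ Real.sqrt (δ / A) ^ 2 := pow_le_pow_left₀ (norm_nonneg _) h4 2
      _ = δ / A := Real.sq_sqrt (by positivity)
  calc A * _ ≤ A * (δ / A) := mul_le_mul_of_nonneg_left h3 hA.le
    _ = δ := by field_simp

end Pool.Agent.R751.MB
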