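import Pool.Agent.R751.MB.Pow

/-!
# Project MB: sums of blocks with different degrees of homogeneity, statements
-/

set_option autoImplicit false

namespace Pool.Agent.R751.MB

open MeasureTheory Set Filter Topology
open scoped ENNReal InnerProductSpace Pointwise

section

variable {M n : ℕ} {k : Fin M → ℕ}

/-- `∑ Φ_i(x_i)`, `x_i` the `i`-th block of `x` -/
noncomputable def bsum (e : (∀ i, Eu (Fin (k i))) ≃ₗ[ℝ] Eu (Fin n))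
    (Φ : ∀ i, Eu (Fin (k i)) → ℝ) (z : Eu (Fin n)) : ℝ := ∑ i, Φ i (e.symm z i)

/-- the dilations `x_i ↦ r^(1/p_i) x_i` -/
noncomputable def dil (e : (∀ i, Eu (Fin (k i))) ≃ₗ[ℝ] Eu (Fin n)) (p : Fin M → ℝ) (r : ℝ) :
    Eu (Fin n) →ₗ[ℝ] Eu (Fin n) :=
  e.toLinearMap ∘ₗ (LinearMap.pi fun i => (r ^ (1 / p i)) • LinearMap.proj i) ∘ₗ e.symm.toLinearMap

/-- the degree of the volume -/
noncomputable def deg (k : Fin M → ℕ) (p : Fin M → ℝ) : ℝ := ∑ i, (k i : ℝ) / p i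

end

/-- MB-MXD: `exp (-∑ Φ_i)` is a mixture of the uniform measures on the dilates of `{∑ Φ_i ≤ 1}` -/
def S_MXD : Prop := ∀ (M n : ℕ) (k : Fin M → ℕ) (e : (∀ i, Eu (Fin (k i))) ≃ₗ[ℝ] Eu (Fin n))
  (Φ : ∀ i, Eu (Fin (k i)) → ℝ) (p : Fin M → ℝ), (∀ i, 1 ≤ p i) → (∀ i, Pow (p i) (Φ i)) →
  ∀ F : Eu (Fin n) → ℝ≥0∞, Measurable F →
  ∫⁻ z, F z * ENNReal.ofReal (Real.exp (-bsum e Φ z)) =
    ∫⁻ r in Ioi (0 : ℝ), ENNReal.ofReal (r ^ deg k p * Real.exp (-r)) *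
      ∫⁻ y in {y | bsum e Φ y ≤ 1}, F (dil e p r y)

/-- MB-GMM: moments of the Gamma distributions -/
def S_GMM : Prop := ∃ C : ℝ, 0 < C ∧ ∀ m : ℝ, 0 < m →
  (∫⁻ r in Ioi (0 : ℝ), ENNReal.ofReal (r ^ m * Real.exp (-r)) =
    ENNReal.ofReal (Real.Gamma (m + 1))) ∧
  (∫⁻ r in Ioi (0 : ℝ), ENNReal.ofReal ((r / (m + 1)) ^ 2) *
    ENNReal.ofReal (r ^ m * Real.exp (-r)) ≤ ENNReal.ofReal (C * Real.Gamma (m + 1))) ∧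
  ∀ a : ℝ, 0 < a → a ≤ 1 →
  ∫⁻ r in Ioi (0 : ℝ), ENNReal.ofReal (((r / (m + 1)) ^ a - 1) ^ 2) *
    ENNReal.ofReal (r ^ m * Real.exp (-r)) ≤
      ENNReal.ofReal (C * a ^ 2 / (m + 1) * Real.Gamma (m + 1))

/-- MB-RDM: from `exp (-∑ Φ_i)` to `{∑ Φ_i ≤ 1}`, for even blocks of arbitrary degrees -/
def S_RDM : Prop := ∀ δ κ : ℝ, 0 < δ → 0 < κ → ∃ κ' : ℝ, 0 < κ' ∧
  ∀ (M n : ℕ) (k : Fin M → ℕ) (e : (∀ i, Eu (Fin (k i))) ≃ₗ[ℝ] Eu (Fin n))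
  (Φ : ∀ i, Eu (Fin (k i)) → ℝ) (p : Fin M → ℝ), 1 ≤ n → (∀ i, 1 ≤ p i) →
  (∀ i, Pow (p i) (Φ i)) → (∀ i x, Φ i (-x) = Φ i x) →
  CcW κ (δ / 6) (fun z => Real.exp (-bsum e Φ z)) → CcW κ' δ (ind {z | bsum e Φ z ≤ 1})

end Pool.Agent.R751.MB
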