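import Pool.Agent.R751.MB.Mix
import Pool.Agent.R751.MB.Apc
import Pool.Agent.R751.MB.Stm2

/-!
# Project MB: the class of block sums
-/

set_option autoImplicit false

namespace Pool.Agent.R751.MB

open MeasureTheory Set Filter Topology
open scoped ENNReal InnerProductSpace Pointwise

/-- the summands: even `p`-th powers of gauges with one of three symmetries -/
inductive Blk (p : ℝ) : ∀ k : ℕ, (Eu (Fin k) → ℝ) → Prop
  | sym (k : ℕ) (Φ : Eu (Fin k) → ℝ) : 1 ≤ k → Pow p Φ →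
      (∀ σ : Equiv.Perm (Fin k), ∀ x y : Eu (Fin k), (∀ i, |y i| = |x (σ i)|) → Φ y = Φ x) →
      Blk p k Φ
  | mat (m l k : ℕ) (e : Mat m l ≃ₗ[ℝ] Eu (Fin k)) (Φ : Mat m l → ℝ) : 3 ≤ m → 1 ≤ l → l ≤ m →
      Pow p Φ → (∀ g ∈ Matrix.orthogonalGroup (Fin m) ℝ, ∀ X : Mat m l,
        Φ (WithLp.toLp 2 fun p => ∑ k, g p.1 k * X (k, p.2)) = Φ X) →
      Blk p k fun z => Φ (e.symm z)
  | her (𝕜 : Type) [RCLike 𝕜] (N : ℕ) (ι : Type) [Fintype ι]
      (F : Eu ι →ₗ[ℝ] Matrix (Fin N) (Fin N) 𝕜) (k : ℕ) (e : Eu ι ≃ₗ[ℝ] Eu (Fin k))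
      (Φ : Eu ι → ℝ) : 3 ≤ N → Frame F → Pow p Φ → (∀ x, Φ (-x) = Φ x) →
      (∀ U ∈ Matrix.unitaryGroup (Fin N) 𝕜, ∀ x y : Eu ι,
        F y = U * F x * U.conjTranspose → Φ y = Φ x) →
      Blk p k fun z => Φ (e.symm z)

theorem blk_pow {p : ℝ} {k : ℕ} {Φ : Eu (Fin k) → ℝ} (h : Blk p k Φ) :
    Pow p Φ ∧ ∀ x, Φ (-x) = Φ x := by
  cases h with
  | sym _ _ hk hΦ hinv => exact ⟨hΦ, fun x => hinv (Equiv.refl _) x (-x) fun i => by simp⟩
  | mat m l _ e Φ hm hl hlm hΦ hinv =>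
    refine ⟨hΦ.lin e, fun x => ?_⟩
    have h1 := hinv (-1) (by
      rw [Matrix.mem_orthogonalGroup_iff]
      simp) (e.symm x)
    have h2 : (WithLp.toLp 2 fun p : Fin m × Fin l =>
        ∑ k, (-1 : Matrix (Fin m) (Fin m) ℝ) p.1 k * (e.symm x) (k, p.2) : Mat m l) =
        e.symm (-x) := by
      rw [map_neg]
      ext p
      simp [Matrix.neg_apply, Matrix.one_apply]
    rw [h2] at h1
    exact h1
  | her 𝕜 N ι F _ e Φ hN hF hΦ heven hinv =>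
    exact ⟨hΦ.lin e, fun x => by
      change Φ (e.symm (-x)) = Φ (e.symm x)
      rw [map_neg]
      exact heven _⟩

theorem blk_ap (hSYM : S_SYM) (hMAT : S_MAT) (hHER : S_HER) (hLIN : S_LIN) : ∃ A : ℝ, 0 < A ∧
    ∀ (p : ℝ), 1 ≤ p → ∀ (k : ℕ) (Φ : Eu (Fin k) → ℝ), Blk p k Φ → AP A fun x => Real.exp (-Φ x) := by
  obtain ⟨A1, hA1, H1⟩ := hSYM
  obtain ⟨A2, hA2, H2⟩ := hMAT
  obtain ⟨A3, hA3, H3⟩ := hHER
  refine ⟨max A1 (max A2 A3), lt_max_of_lt_left hA1, fun p hp k Φ h => ?_⟩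
  cases h with
  | sym _ _ hk hΦ hinv =>
    exact (H1 k _ hk (hΦ.adm hp) hΦ.lcn fun σ x y hxy => by rw [hinv σ x y hxy]).mono
      (le_max_left _ _)
  | mat m l _ e Φ hm hl hlm hΦ hinv =>
    have h1 := H2 m l (fun x => Real.exp (-Φ x)) hm hl hlm (hΦ.adm hp) hΦ.lcn
      fun g hg X => by simp only [hinv g hg X]
    exact (hLIN _ _ _ e _ h1).mono ((le_max_left _ _).trans (le_max_right _ _))
  | her 𝕜 N ι F _ e Φ hN hF hΦ heven hinv =>
    have h1 := H3 𝕜 N hN ι F hF (fun x => Real.exp (-Φ x)) (hΦ.adm hp) hΦ.lcn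
      fun U hU x y hxy => by simp only [hinv U hU x y hxy]
    exact (hLIN _ _ _ e _ h1).mono ((le_max_right _ _).trans (le_max_right _ _))

/-- the class of bodies `{∑ Φ_i ≤ 1}` -/
def BS {n : ℕ} (K : Set (Eu (Fin n))) : Prop :=
  ∃ (M : ℕ) (k : Fin M → ℕ) (e : (∀ i, Eu (Fin (k i))) ≃ₗ[ℝ] Eu (Fin n)) (p : Fin M → ℝ)
    (Φ : ∀ i, Eu (Fin (k i)) → ℝ), (∀ i, 1 ≤ p i) ∧ (∀ i, Blk (p i) (k i) (Φ i)) ∧
    K = {z | bsum e Φ z ≤ 1}

theorem bsum_cont {M n : ℕ} {k : Fin M → ℕ} (e : (∀ i, Eu (Fin (k i))) ≃ₗ[ℝ] Eu (Fin n))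
    {p : Fin M → ℝ} {Φ : ∀ i, Eu (Fin (k i)) → ℝ} (h : ∀ i, Pow (p i) (Φ i)) :
    Continuous (bsum e Φ) := by
  unfold bsum
  refine continuous_finsetSum _ fun i _ => ?_
  have h1 : Continuous fun z : Eu (Fin n) => e.symm z :=
    e.symm.toLinearMap.continuous_of_finiteDimensional
  exact (h i).cont.comp ((continuous_apply i).comp h1)

/-- the sets `{∑ Φ_i ≤ 1}` are symmetric convex bodies -/
theorem bsum_body {M n : ℕ} {k : Fin M → ℕ} (e : (∀ i, Eu (Fin (k i))) ≃ₗ[ℝ] Eu (Fin n))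
    {p : Fin M → ℝ} (hp : ∀ i, 1 ≤ p i) {Φ : ∀ i, Eu (Fin (k i)) → ℝ} (h : ∀ i, Pow (p i) (Φ i)) :
    Body {z | bsum e Φ z ≤ 1} := by
  have hc := bsum_cont e h
  have hcl : IsClosed {z | bsum e Φ z ≤ 1} := isClosed_le hc continuous_const
  have hbd : Bornology.IsBounded {z | bsum e Φ z ≤ 1} := by
    have h1 : Bornology.IsBounded (univ.pi fun i => {x : Eu (Fin (k i)) | Φ i x ≤ 1}) :=
      Bornology.IsBounded.pi fun i => (h i).bdd (hp i)
    have h2 : {z | bsum e Φ z ≤ 1} ⊆ e '' (univ.pi fun i => {x : Eu (Fin (k i)) | Φ i x ≤ 1}) := by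
      intro z hz
      refine ⟨e.symm z, fun i _ => ?_, e.apply_symm_apply z⟩
      have hz' : bsum e Φ z ≤ 1 := hz
      refine le_trans ?_ hz'
      exact Finset.single_le_sum (f := fun i => Φ i (e.symm z i)) (fun i _ => (h i).nonneg (hp i) _)
        (Finset.mem_univ i)
    have h3 : Bornology.IsBounded (e '' (univ.pi fun i => {x : Eu (Fin (k i)) | Φ i x ≤ 1})) := by
      have h4 := e.toContinuousLinearEquiv.toContinuousLinearMap.lipschitz.isBounded_image h1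
      exact h4
    exact h3.subset h2
  refine ⟨Metric.isCompact_of_isClosed_isBounded hcl hbd, ?_, ?_⟩
  · intro x hx y hy a b ha hb hab
    have h1 : bsum e Φ (a • x + b • y) ≤ a * bsum e Φ x + b * bsum e Φ y := by
      unfold bsum
      rw [Finset.mul_sum, Finset.mul_sum, ← Finset.sum_add_distrib]
      refine Finset.sum_le_sum fun i _ => ?_
      have h1 := (h i).conv.2 (mem_univ (e.symm x i)) (mem_univ (e.symm y i)) ha hb hab
      rw [map_add, map_smul, map_smul]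
      exact h1
    simp only [mem_ofPred_eq] at hx hy ⊢
    nlinarith
  · have h1 : IsOpen {z | bsum e Φ z < 1} := isOpen_lt hc continuous_const
    have h2 : (0 : Eu (Fin n)) ∈ {z | bsum e Φ z < 1} := by
      change bsum e Φ 0 < 1
      unfold bsum
      rw [Finset.sum_eq_zero fun i _ => ?_]
      · exact one_pos
      · rw [map_zero]
        exact (h i).zero (hp i)
    have h3 : {z | bsum e Φ z < 1} ⊆ {z | bsum e Φ z ≤ 1} := fun z (hz : bsum e Φ z < 1) => hz.le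
    exact ⟨0, interior_maximal h3 h1 h2⟩

/-- **concentration for block sums** -/
theorem bs_cc (hSYM : S_SYM) (hMAT : S_MAT) (hHER : S_HER) (hLIN : S_LIN) (hTEN : S_TEN)
    (hRDM : S_RDM) (δ : ℝ) (hδ : 0 < δ) : ∃ κ : ℝ, 0 < κ ∧ ∀ (n : ℕ) (K : Set (Eu (Fin n))),
    1 ≤ n → BS K → CcW κ δ (ind K) := by
  obtain ⟨A, hA, H⟩ := blk_ap hSYM hMAT hHER hLIN
  obtain ⟨κ, hκ, H1⟩ := apc A (δ / 6) hA (by positivity)
  obtain ⟨κ', hκ', H2⟩ := hRDM δ κ hδ hκ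
  refine ⟨κ', hκ', fun n K hn hK => ?_⟩
  obtain ⟨M, k, e, p, Φ, hp, hΦ, rfl⟩ := hK
  refine H2 M n k e Φ p hn hp (fun i => (blk_pow (hΦ i)).1) (fun i => (blk_pow (hΦ i)).2) ?_
  refine H1 n _ ?_
  have h1 := ap_pi hTEN hA.le M k n e (fun i x => Real.exp (-Φ i x)) fun i =>
    H (p i) (hp i) (k i) (Φ i) (hΦ i)
  have h2 : (fun z => ∏ i, Real.exp (-Φ i (e.symm z i))) = fun z => Real.exp (-bsum e Φ z) := by
    funext z
    rw [← Real.exp_sum, Finset.sum_neg_distrib]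
    rfl
  rw [← h2]
  exact h1

theorem BS.body {n : ℕ} {K : Set (Eu (Fin n))} (h : BS K) : Body K ∧ ∀ x ∈ K, -x ∈ K := by
  obtain ⟨M, k, e, p, Φ, hp, hΦ, rfl⟩ := h
  refine ⟨bsum_body e hp fun i => (blk_pow (hΦ i)).1, fun x hx => ?_⟩
  have hx' : bsum e Φ x ≤ 1 := hx
  change bsum e Φ (-x) ≤ 1
  refine le_trans (le_of_eq ?_) hx'
  unfold bsum
  refine Finset.sum_congr rfl fun i _ => ?_
  rw [map_neg]
  exact (blk_pow (hΦ i)).2 _

end Pool.Agent.R751.MB
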