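import Pool.Agent.R751.MB.Stm2

/-!
# Project MB: blocks with walls, statement
-/

set_option autoImplicit false

namespace Pool.Agent.R751.MB

open MeasureTheory Set Filter Topology
open scoped ENNReal InnerProductSpace Pointwise

/-- the body `{∑_{i ∉ J} Φ_i(x_i) ≤ 1, Φ_j(x_j) ≤ 1 for j ∈ J}` -/
def wall {M n : ℕ} {k : Fin M → ℕ} (e : (∀ i, Eu (Fin (k i))) ≃ₗ[ℝ] Eu (Fin n))
    (Φ : ∀ i, Eu (Fin (k i)) → ℝ) (J : Finset (Fin M)) : Set (Eu (Fin n)) :=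
  {z | ∑ i ∈ Finset.univ \ J, Φ i (e.symm z i) ≤ 1 ∧ ∀ i ∈ J, Φ i (e.symm z i) ≤ 1}

/-- MB-WAL: walls as limits of high powers -/
def S_WAL : Prop := ∀ (κ δ : ℝ), 0 < κ → ∀ (M n : ℕ) (k : Fin M → ℕ)
  (e : (∀ i, Eu (Fin (k i))) ≃ₗ[ℝ] Eu (Fin n)) (Φ : ∀ i, Eu (Fin (k i)) → ℝ) (p : Fin M → ℝ)
  (J : Finset (Fin M)), 1 ≤ n → (∀ i, 1 ≤ p i) → (∀ i, Pow (p i) (Φ i)) →
  (∀ q : ℝ, 1 ≤ q →
    CcW κ δ (ind {z | bsum e (fun i x => if i ∈ J then Φ i x ^ q else Φ i x) z ≤ 1})) →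
  Body (wall e Φ J) ∧ CcW (κ / 2) δ (ind (wall e Φ J))

end Pool.Agent.R751.MB
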