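import Pool.Agent.R751.MB.Bs
import Pool.Agent.R751.MB.Stm3

/-!
# Project MB: the class of block sums with walls
-/

set_option autoImplicit false

namespace Pool.Agent.R751.MB

open MeasureTheory Set Filter Topology
open scoped ENNReal InnerProductSpace Pointwise

theorem Pow.rpow {κ : Type} [Fintype κ] {p : ℝ} {Φ : Eu κ → ℝ} (h : Pow p Φ) (hp : 1 ≤ p)
    {q : ℝ} (hq : 1 ≤ q) : Pow (p * q) fun x => Φ x ^ q := by
  refine ⟨⟨convex_univ, fun x _ y _ a b ha hb hab => ?_⟩, fun r x hr => ?_, fun x hx => ?_⟩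
  · have h1 := h.conv.2 (mem_univ x) (mem_univ y) ha hb hab
    have h2 := (convexOn_rpow hq).2 (mem_Ici.2 (h.nonneg hp x)) (mem_Ici.2 (h.nonneg hp y)) ha hb hab
    refine le_trans ?_ h2
    exact Real.rpow_le_rpow (h.nonneg hp _) h1 (by linarith)
  · rw [h.hom r x hr, Real.mul_rpow (Real.rpow_nonneg hr.le _) (h.nonneg hp x), ← Real.rpow_mul hr.le]
  · exact Real.rpow_pos_of_pos (h.pos x hx) _

theorem Blk.rpow {p : ℝ} {k : ℕ} {Φ : Eu (Fin k) → ℝ} (h : Blk p k Φ) (hp : 1 ≤ p) {q : ℝ}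
    (hq : 1 ≤ q) : Blk (p * q) k fun x => Φ x ^ q := by
  cases h with
  | sym _ _ hk hΦ hinv =>
    exact .sym _ _ hk (hΦ.rpow hp hq) fun σ x y hxy => by rw [hinv σ x y hxy]
  | mat m l _ e Φ hm hl hlm hΦ hinv =>
    exact .mat m l k e (fun X => Φ X ^ q) hm hl hlm (hΦ.rpow hp hq) fun g hg X => by
      simp only [hinv g hg X]
  | her 𝕜 N ι F _ e Φ hN hF hΦ heven hinv =>
    exact .her 𝕜 N ι F k e (fun X => Φ X ^ q) hN hF (hΦ.rpow hp hq)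
      (fun x => by simp only [heven]) fun U hU x y hxy => by simp only [hinv U hU x y hxy]

/-- the class of bodies `{∑_{i ∉ J} Φ_i ≤ 1, Φ_j ≤ 1 (j ∈ J)}` -/
def BW {n : ℕ} (K : Set (Eu (Fin n))) : Prop :=
  ∃ (M : ℕ) (k : Fin M → ℕ) (e : (∀ i, Eu (Fin (k i))) ≃ₗ[ℝ] Eu (Fin n)) (p : Fin M → ℝ)
    (Φ : ∀ i, Eu (Fin (k i)) → ℝ) (J : Finset (Fin M)), (∀ i, 1 ≤ p i) ∧
    (∀ i, Blk (p i) (k i) (Φ i)) ∧ K = wall e Φ J

theorem bw_cc (hSYM : S_SYM) (hMAT : S_MAT) (hHER : S_HER) (hLIN : S_LIN) (hTEN : S_TEN)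
    (hRDM : S_RDM) (hWAL : S_WAL) (δ : ℝ) (hδ : 0 < δ) : ∃ κ : ℝ, 0 < κ ∧
    ∀ (n : ℕ) (K : Set (Eu (Fin n))), 1 ≤ n → BW K → Body K ∧ CcW κ δ (ind K) := by
  obtain ⟨κ, hκ, H⟩ := bs_cc hSYM hMAT hHER hLIN hTEN hRDM δ hδ
  refine ⟨κ / 2, by positivity, fun n K hn hK => ?_⟩
  obtain ⟨M, k, e, p, Φ, J, hp, hΦ, rfl⟩ := hK
  refine hWAL κ δ hκ M n k e Φ p J hn hp (fun i => (blk_pow (hΦ i)).1) fun q hq => ?_
  refine H n _ hn ⟨M, k, e, fun i => if i ∈ J then p i * q else p i, _, fun i => ?_, fun i => ?_,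
    rfl⟩
  · by_cases hi : i ∈ J
    · simp only [hi, if_true]
      nlinarith [hp i]
    · simp only [hi, if_false]
      exact hp i
  · by_cases hi : i ∈ J
    · simp only [hi, if_true]
      exact (hΦ i).rpow (hp i) hq
    · simp only [hi, if_false]
      exact hΦ i

end Pool.Agent.R751.MB
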