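import Pool.Agent.R751.MB.Prb
import Pool.Agent.R754.KG.B

/-!
# Project MB, piece FSU: the body over the cone (geometry)
-/

set_option autoImplicit false

namespace Pool.Agent.R751.MB

open MeasureTheory Set Filter Topology
open scoped ENNReal InnerProductSpace Pointwise
open Pool.Agent.R754.KG (E un un_int sl cj cj_apply DR Fb dg dg_apply un_prob)

variable {b n : ℕ} {m : Fin b → ℕ}

/-- the body over the cone -/
def KK (e : (∀ i, Eu (Fin (m i))) ≃ₗ[ℝ] Eu (Fin n)) (D : Set (Eu (Fin b)))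
    (K : ∀ i, Set (Eu (Fin (m i)))) : Set (E n × E b) :=
  {p | (p.2 ∈ D ∧ ∀ i, 0 ≤ p.2 i) ∧ ∀ i, (e.symm p.1) i ∈ p.2 i • K i}

theorem KK_eq (e : (∀ i, Eu (Fin (m i))) ≃ₗ[ℝ] Eu (Fin n)) (D : Set (Eu (Fin b)))
    (K : ∀ i, Set (Eu (Fin (m i)))) : KK e D K =
    (fun q : (∀ i, Eu (Fin (m i))) × E b => ((e (fun i => q.2 i • q.1 i), q.2) : E n × E b)) ''
      ((univ.pi K) ×ˢ (D ∩ {t | ∀ i, 0 ≤ t i})) := by
  ext ⟨z, t⟩
  constructor
  · rintro ⟨⟨hD, ht⟩, hx⟩
    simp only at hD ht hx
    choose y hy hyz using hx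
    refine ⟨(y, t), ⟨fun i _ => hy i, hD, ht⟩, ?_⟩
    simp only
    refine Prod.ext ?_ rfl
    simp only
    apply e.symm.injective
    rw [LinearEquiv.symm_apply_apply]
    funext i
    exact hyz i
  · rintro ⟨⟨y, t'⟩, ⟨hy, hD, ht⟩, h⟩
    simp only [Prod.mk.injEq] at h
    obtain ⟨h1, rfl⟩ := h
    refine ⟨⟨hD, ht⟩, fun i => ?_⟩
    simp only
    rw [← h1, LinearEquiv.symm_apply_apply]
    exact smul_mem_smul_set (hy i (mem_univ _))

theorem KK_compact (e : (∀ i, Eu (Fin (m i))) ≃ₗ[ℝ] Eu (Fin n)) {D : Set (Eu (Fin b))}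
    {K : ∀ i, Set (Eu (Fin (m i)))} (hD : IsCompact D) (hK : ∀ i, IsCompact (K i)) :
    IsCompact (KK e D K) := by
  rw [KK_eq]
  have hc : IsClosed {t : Eu (Fin b) | ∀ i, 0 ≤ t i} := by
    have : {t : Eu (Fin b) | ∀ i, 0 ≤ t i} = ⋂ i, {t | 0 ≤ t i} := by ext; simp
    rw [this]
    exact isClosed_iInter fun i => isClosed_le continuous_const (by fun_prop)
  refine ((isCompact_univ_pi hK).prod (hD.inter_right hc)).image ?_
  have he : Continuous e := e.toLinearMap.continuous_of_finiteDimensional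
  refine Continuous.prodMk (he.comp ?_) continuous_snd
  refine continuous_pi fun i => ?_
  have h1 : Continuous fun q : (∀ i, Eu (Fin (m i))) × E b => q.2 i := by fun_prop
  have h2 : Continuous fun q : (∀ i, Eu (Fin (m i))) × E b => q.1 i :=
    (continuous_apply i).comp continuous_fst
  exact h1.smul h2

theorem KK_convex (e : (∀ i, Eu (Fin (m i))) ≃ₗ[ℝ] Eu (Fin n)) {D : Set (Eu (Fin b))}
    {K : ∀ i, Set (Eu (Fin (m i)))} (hD : Convex ℝ D) (hK : ∀ i, Convex ℝ (K i)) :
    Convex ℝ (KK e D K) := by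
  rintro ⟨z, t⟩ ⟨⟨hD1, ht1⟩, hx1⟩ ⟨z', t'⟩ ⟨⟨hD2, ht2⟩, hx2⟩ p q hp hq hpq
  simp only at hD1 ht1 hx1 hD2 ht2 hx2
  refine ⟨⟨hD hD1 hD2 hp hq hpq, fun i => ?_⟩, fun i => ?_⟩
  · simp only [Prod.smul_mk, Prod.mk_add_mk, PiLp.add_apply, PiLp.smul_apply, smul_eq_mul]
    have := ht1 i
    have := ht2 i
    positivity
  · simp only [Prod.smul_mk, Prod.mk_add_mk, PiLp.add_apply, PiLp.smul_apply, smul_eq_mul,
      map_add, map_smul, Pi.add_apply, Pi.smul_apply]
    rw [(hK i).add_smul (mul_nonneg hp (ht1 i)) (mul_nonneg hq (ht2 i)), mul_smul, mul_smul]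
    exact add_mem_add (smul_mem_smul_set (hx1 i)) (smul_mem_smul_set (hx2 i))

theorem exists_pos {D : Set (Eu (Fin b))} (hD : UBody D) :
    ∃ τ ∈ D, ∀ i, 0 < τ i := by
  obtain ⟨t0, ht0⟩ := hD.int
  let u : Eu (Fin b) := WithLp.toLp 2 fun i => if 0 ≤ t0 i then 1 else -1
  have hcont : Continuous fun s : ℝ => t0 + s • u := by fun_prop
  have h1 : ∀ᶠ s in 𝓝 (0 : ℝ), t0 + s • u ∈ interior D := by
    apply hcont.continuousAt.eventually
    simp only [zero_smul, add_zero]
    exact isOpen_interior.mem_nhds ht0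
  have h2 : ∀ᶠ s in 𝓝[>] (0 : ℝ), t0 + s • u ∈ interior D := h1.filter_mono nhdsWithin_le_nhds
  obtain ⟨s, hs, hs0⟩ := (h2.and self_mem_nhdsWithin).exists
  have hs0 : 0 < s := hs0
  refine ⟨WithLp.toLp 2 fun i => |(t0 + s • u) i|, ?_, fun i => ?_⟩
  · exact hD.unc _ (interior_subset hs) _ fun i => by simp
  · simp only
    apply abs_pos.2
    have e1 : (t0 + s • u) i = t0 i + s * (if 0 ≤ t0 i then 1 else -1) := by
      simp [u]
    rw [e1]
    split_ifs with h
    · have : 0 < t0 i + s * 1 := by linarith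
      exact this.ne'
    · have : t0 i + s * -1 < 0 := by linarith
      exact this.ne

theorem KK_interior (e : (∀ i, Eu (Fin (m i))) ≃ₗ[ℝ] Eu (Fin n)) {D : Set (Eu (Fin b))}
    {K : ∀ i, Set (Eu (Fin (m i)))} (hD : UBody D) (hK : ∀ i, Body (K i)) :
    (interior (KK e D K)).Nonempty := by
  obtain ⟨τ, hτ, hpos⟩ := exists_pos hD
  choose y hy using fun i => (hK i).int
  let U : Set (E n × E b) := ⋂ i, ({p | p.2 i ∈ Ioo 0 (τ i)} ∩
    (fun p : E n × E b => (p.2 i)⁻¹ • (e.symm p.1) i) ⁻¹' interior (K i))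
  have he : Continuous e.symm := e.symm.toLinearMap.continuous_of_finiteDimensional
  have hU : IsOpen U := by
    refine isOpen_iInter_of_finite fun i => ?_
    have ho : IsOpen {p : E n × E b | p.2 i ∈ Ioo 0 (τ i)} := by
      apply isOpen_Ioo.preimage
      fun_prop
    refine ContinuousOn.isOpen_inter_preimage ?_ ho isOpen_interior
    have c1 : Continuous fun p : E n × E b => p.2 i := by fun_prop
    have c2 : Continuous fun p : E n × E b => (e.symm p.1) i :=
      (continuous_apply i).comp (he.comp continuous_fst)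
    have c3 : ContinuousOn (fun p : E n × E b => (p.2 i)⁻¹) {p : E n × E b | p.2 i ∈ Ioo 0 (τ i)} :=
      ContinuousOn.inv₀ c1.continuousOn fun p hp => ne_of_gt hp.1
    exact c3.smul c2.continuousOn
  have hsub : U ⊆ KK e D K := by
    rintro ⟨z, t⟩ hp
    simp only [U, mem_iInter, mem_inter_iff, mem_preimage, mem_ofPred_eq] at hp
    refine ⟨⟨hD.unc τ hτ t fun i => ?_, fun i => ((hp i).1.1).le⟩, fun i => ?_⟩
    · rw [abs_of_pos (hp i).1.1, abs_of_pos (hpos i)]
      exact (hp i).1.2.le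
    · rw [mem_smul_set_iff_inv_smul_mem₀ (ne_of_gt (hp i).1.1)]
      exact interior_subset (hp i).2
  refine ⟨(e (fun i => (τ i / 2) • y i), WithLp.toLp 2 fun i => τ i / 2),
    interior_maximal hsub hU ?_⟩
  simp only [U, mem_iInter, mem_inter_iff, mem_preimage, mem_ofPred_eq]
  intro i
  have h1 := hpos i
  refine ⟨⟨by linarith, by linarith⟩, ?_⟩
  rw [LinearEquiv.symm_apply_apply, inv_smul_smul₀ (by positivity)]
  exact hy i

theorem sl_KK (e : (∀ i, Eu (Fin (m i))) ≃ₗ[ℝ] Eu (Fin n)) {D : Set (Eu (Fin b))}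
    {K : ∀ i, Set (Eu (Fin (m i)))} {t : E b} (ht : t ∈ D) (ht0 : ∀ i, 0 ≤ t i) :
    sl (KK e D K) t = e '' univ.pi fun i => t i • K i := by
  ext z
  constructor
  · rintro ⟨_, h⟩
    exact ⟨e.symm z, fun i _ => h i, e.apply_symm_apply z⟩
  · rintro ⟨x, hx, rfl⟩
    refine ⟨⟨ht, ht0⟩, fun i => ?_⟩
    simp only
    rw [LinearEquiv.symm_apply_apply]
    exact hx i (mem_univ _)

theorem sl_pos (e : (∀ i, Eu (Fin (m i))) ≃ₗ[ℝ] Eu (Fin n)) {D : Set (Eu (Fin b))}
    {K : ∀ i, Set (Eu (Fin (m i)))} (hm : ∀ i, 1 ≤ m i) {t : E b}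
    (h : volume (sl (KK e D K) t) ≠ 0) : t ∈ D ∧ ∀ i, 0 < t i := by
  have hne : (sl (KK e D K) t).Nonempty := by
    by_contra hcon
    rw [not_nonempty_iff_eq_empty] at hcon
    rw [hcon] at h
    simp at h
  obtain ⟨z, hz⟩ := hne
  refine ⟨hz.1.1, fun i => lt_of_le_of_ne (hz.1.2 i) fun h0 => h ?_⟩
  -- the fibre lies in a proper subspace
  let L : Eu (Fin n) →ₗ[ℝ] Eu (Fin (m i)) := (LinearMap.proj i) ∘ₗ e.symm.toLinearMap
  have hsub : sl (KK e D K) t ⊆ (LinearMap.ker L : Set (Eu (Fin n))) := by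
    rintro x ⟨_, hx⟩
    have h1 := hx i
    simp only at h1
    rw [← h0] at h1
    obtain ⟨y, _, hy⟩ := h1
    simp only [zero_smul] at hy
    exact hy.symm
  have hL : LinearMap.ker L ≠ ⊤ := by
    intro hcon
    classical
    let v : Eu (Fin (m i)) := EuclideanSpace.single ⟨0, hm i⟩ 1
    have h1 : e (Pi.single i v) ∈ LinearMap.ker L := by rw [hcon]; trivial
    rw [LinearMap.mem_ker] at h1
    have h2 : L (e (Pi.single i v)) = v := by
      change (e.symm (e (Pi.single i v))) i = v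
      rw [LinearEquiv.symm_apply_apply, Pi.single_eq_same]
    rw [h2] at h1
    have h3 := congrArg (fun w : Eu (Fin (m i)) => w ⟨0, hm i⟩) h1
    simp [v] at h3
  exact measure_mono_null hsub (Measure.addHaar_submodule volume _ hL)

theorem body_smul {k : ℕ} {K : Set (Eu (Fin k))} (hK : Body K) {c : ℝ} (hc : 0 < c) :
    Body (c • K) := by
  refine ⟨hK.comp.smul c, hK.conv.smul c, ?_⟩
  rw [interior_smul₀ hc.ne']
  exact hK.int.smul_set

/-- invariance under a linear map of determinant `±1` -/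
theorem int_refl' {C0 : Set (E n)} (hm : MeasurableSet C0) (D : E n →ₗ[ℝ] E n)
    (hD : |LinearMap.det D| = 1) (himg : D '' C0 = C0)
    (f : E n → ℝ) : ∫ x, f x ∂(un C0) = ∫ x, f (D x) ∂(un C0) := by
  have hD0 : LinearMap.det D ≠ 0 := by
    intro h
    rw [h] at hD
    simp at hD
  have hinj : Function.Injective D := by
    have h1 : IsUnit (LinearMap.det D) := isUnit_iff_ne_zero.2 hD0
    have h2 := (LinearMap.isUnit_iff_isUnit_det D).2 h1
    exact ((LinearMap.isUnit_iff_ker_eq_bot D).1 h2 |> LinearMap.ker_eq_bot.1)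
  have h := integral_image_eq_integral_abs_det_fderiv_smul (volume : Measure (E n)) hm
    (f := D) (f' := fun _ => LinearMap.toContinuousLinearMap D)
    (fun x _ => (LinearMap.toContinuousLinearMap D).hasFDerivAt.hasFDerivWithinAt)
    (fun x _ y _ hxy => hinj hxy) f
  rw [himg] at h
  have e : (LinearMap.toContinuousLinearMap D).det = LinearMap.det D := rfl
  simp only [e, hD, one_smul] at h
  unfold un
  rw [integral_smul_measure, integral_smul_measure, h]

/-- the flip of one block -/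
def flp (e : (∀ i, Eu (Fin (m i))) ≃ₗ[ℝ] Eu (Fin n)) (k : Fin b) : E n →ₗ[ℝ] E n where
  toFun z := e fun i => if i = k then -(e.symm z) i else (e.symm z) i
  map_add' x y := by
    rw [← map_add]
    congr 1
    funext i
    simp only [map_add, Pi.add_apply]
    split_ifs
    · abel
    · rfl
  map_smul' c x := by
    rw [RingHom.id_apply, ← map_smul]
    congr 1
    funext i
    simp only [map_smul, Pi.smul_apply]
    split_ifs
    · rw [smul_neg]
    · rfl

theorem flp_symm (e : (∀ i, Eu (Fin (m i))) ≃ₗ[ℝ] Eu (Fin n)) (k : Fin b) (z : E n) (i : Fin b) :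
    (e.symm (flp e k z)) i = if i = k then -(e.symm z) i else (e.symm z) i := by
  change (e.symm (e _)) i = _
  rw [LinearEquiv.symm_apply_apply]

theorem flp_flp (e : (∀ i, Eu (Fin (m i))) ≃ₗ[ℝ] Eu (Fin n)) (k : Fin b) (z : E n) :
    flp e k (flp e k z) = z := by
  apply e.symm.injective
  funext i
  rw [flp_symm, flp_symm]
  split_ifs
  · rw [neg_neg]
  · rfl

theorem flp_det (e : (∀ i, Eu (Fin (m i))) ≃ₗ[ℝ] Eu (Fin n)) (k : Fin b) :
    |LinearMap.det (flp e k)| = 1 := by
  have h : flp e k ∘ₗ flp e k = LinearMap.id := by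
    ext1 z
    exact flp_flp e k z
  have h2 := congrArg LinearMap.det h
  rw [LinearMap.det_comp, LinearMap.det_id] at h2
  rcases mul_self_eq_one_iff.1 h2 with h3 | h3 <;> rw [h3] <;> simp

theorem Fb_KK (e : (∀ i, Eu (Fin (m i))) ≃ₗ[ℝ] Eu (Fin n)) {D : Set (Eu (Fin b))}
    {K : ∀ i, Set (Eu (Fin (m i)))} (hm : ∀ i, 1 ≤ m i) (hD : UBody D) (hK : ∀ i, Body (K i))
    (hs : ∀ i, ∀ x ∈ K i, -x ∈ K i) : Fb (KK e D K) := by
  classical
  have hcomp := KK_compact e hD.comp fun i => (hK i).comp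
  refine ⟨KK_convex e hD.conv fun i => (hK i).conv, hcomp.measurableSet, hcomp.isBounded, ?_, ?_⟩
  · exact lt_of_lt_of_le (isOpen_interior.measure_pos volume (KK_interior e hD hK))
      (measure_mono interior_subset)
  intro t0 t1 h0 h1
  obtain ⟨hD0, hp0⟩ := sl_pos e hm h0
  obtain ⟨hD1, hp1⟩ := sl_pos e hm h1
  have es0 := sl_KK e (K := K) hD0 fun i => (hp0 i).le
  have es1 := sl_KK e (K := K) hD1 fun i => (hp1 i).le
  obtain ⟨C0, hC0⟩ : ∃ C0, C0 = sl (KK e D K) t0 := ⟨_, rfl⟩
  rw [← hC0] at es0 h0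
  have hbody : Body C0 := by
    rw [es0]
    exact body_pi e _ fun i => body_smul (hK i) (hp0 i)
  have hmem : ∀ z, z ∈ C0 ↔ ∀ i, (e.symm z) i ∈ t0 i • K i := by
    intro z
    rw [es0]
    constructor
    · rintro ⟨x, hx, rfl⟩ i
      rw [LinearEquiv.symm_apply_apply]
      exact hx i (mem_univ _)
    · intro h
      exact ⟨e.symm z, fun i _ => h i, e.apply_symm_apply z⟩
  have hb := hbody.comp.isBounded
  have hν : IsProbabilityMeasure (un C0) := un_prob h0 hb.measure_lt_top.ne
  have hec : Continuous e.symm := e.symm.toLinearMap.continuous_of_finiteDimensional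
  have heci : ∀ i, Continuous fun z : E n => (e.symm z) i := fun i =>
    (continuous_apply i).comp hec
  -- block flips
  have hflip : ∀ (k : Fin b) (f : E n → ℝ), ∫ x, f x ∂(un C0) = ∫ x, f (flp e k x) ∂(un C0) := by
    intro k f
    refine int_refl' hbody.comp.measurableSet (flp e k) (flp_det e k) ?_ f
    have hin : ∀ z ∈ C0, flp e k z ∈ C0 := by
      intro z hz
      rw [hmem] at hz ⊢
      intro i
      rw [flp_symm]
      split_ifs
      · obtain ⟨x, hx, hxz⟩ := hz i
        refine ⟨-x, hs i x hx, ?_⟩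
        simp only at hxz ⊢
        rw [smul_neg, hxz]
      · exact hz i
    ext z
    constructor
    · rintro ⟨x, hx, rfl⟩
      exact hin x hx
    · intro hz
      exact ⟨flp e k z, hin z hz, flp_flp e k z⟩
  -- the bilinear forms
  have hint : ∀ (i : Fin b) (u v : Eu (Fin (m i))),
      Integrable (fun z : E n => ⟪(e.symm z) i, u⟫_ℝ * ⟪(e.symm z) i, v⟫_ℝ) (un C0) := by
    intro i u v
    have := heci i
    exact un_int h0 hb (by fun_prop)
  let Bf : ∀ i : Fin b, LinearMap.BilinForm ℝ (Eu (Fin (m i))) := fun i =>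
    LinearMap.mk₂ ℝ (fun u v => ∫ z : E n, ⟪(e.symm z) i, u⟫_ℝ * ⟪(e.symm z) i, v⟫_ℝ ∂(un C0))
      (fun u u' v => by
        rw [← integral_add (hint i u v) (hint i u' v)]
        congr 1
        funext z
        rw [inner_add_right]; ring)
      (fun c u v => by
        rw [smul_eq_mul, ← integral_const_mul]
        congr 1
        funext z
        rw [real_inner_smul_right]; ring)
      (fun u v v' => by
        rw [← integral_add (hint i u v) (hint i u v')]
        congr 1
        funext z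
        rw [inner_add_right]; ring)
      (fun c u v => by
        rw [smul_eq_mul, ← integral_const_mul]
        congr 1
        funext z
        rw [real_inner_smul_right]; ring)
  have hBf : ∀ i u v, Bf i u v =
      ∫ z : E n, ⟪(e.symm z) i, u⟫_ℝ * ⟪(e.symm z) i, v⟫_ℝ ∂(un C0) := fun _ _ _ => rfl
  have hsymm : ∀ i, LinearMap.IsSymm (Bf i) := by
    intro i
    constructor
    intro u v
    simp only [hBf, RingHom.id_apply]
    congr 1
    funext z
    ring
  have hbas : ∀ i, ∃ v : Module.Basis (Fin (m i)) ℝ (Eu (Fin (m i))),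
      ∀ p q, p ≠ q → Bf i (v p) (v q) = 0 := by
    intro i
    have hi2 : Invertible (2 : ℝ) := invertibleOfNonzero two_ne_zero
    obtain ⟨v, hv⟩ := LinearMap.BilinForm.exists_orthogonal_basis (K := ℝ)
      (V := Eu (Fin (m i))) (B := Bf i) (hsymm i)
    refine ⟨v.reindex (finCongr (by simp)), fun p q hpq => ?_⟩
    simp only [Module.Basis.reindex_apply]
    apply hv
    intro h
    apply hpq
    exact (finCongr _).symm.injective h
  choose v hv using hbas
  -- the index bijection
  have hn : n = ∑ i, m i := by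
    have := e.finrank_eq
    rw [Module.finrank_pi_fintype] at this
    simpa using this.symm
  let σ : Fin n ≃ Σ i, Fin (m i) := Fintype.equivOfCardEq (by
    rw [Fintype.card_sigma]
    simp [← hn])
  let Am : E n →ₗ[ℝ] E n :=
    { toFun := fun z => WithLp.toLp 2 fun j => ⟪(e.symm z) (σ j).1, v (σ j).1 (σ j).2⟫_ℝ
      map_add' := fun x y => by
        ext j
        simp only [map_add, Pi.add_apply, inner_add_left, PiLp.add_apply]
      map_smul' := fun c x => by
        ext j
        simp only [map_smul, Pi.smul_apply, real_inner_smul_left, PiLp.smul_apply, smul_eq_mul,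
          RingHom.id_apply] }
  have hAm : ∀ z j, Am z j = ⟪(e.symm z) (σ j).1, v (σ j).1 (σ j).2⟫_ℝ := fun _ _ => rfl
  have hAinj : Function.Injective Am := by
    rw [← LinearMap.ker_eq_bot, LinearMap.ker_eq_bot']
    intro z hz
    have h2 : e.symm z = 0 := by
      funext i
      refine InnerProductSpace.ext_inner_left_basis (𝕜 := ℝ) (v i) fun a => ?_
      have h3 := congrArg (fun w : E n => w (σ.symm ⟨i, a⟩)) hz
      simp only [hAm] at h3
      rw [Equiv.apply_symm_apply] at h3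
      simp only at h3
      rw [real_inner_comm] at h3
      rw [h3]
      simp
    have := congrArg e h2
    rwa [LinearEquiv.apply_symm_apply, map_zero] at this
  let A : E n ≃ₗ[ℝ] E n := LinearEquiv.ofInjectiveEndo Am hAinj
  have hA : ∀ z j, A z j = ⟪(e.symm z) (σ j).1, v (σ j).1 (σ j).2⟫_ℝ := fun _ _ => rfl
  have hAc : Continuous A := A.toLinearMap.continuous_of_finiteDimensional
  let lam : Fin n → ℝ := fun j => t1 (σ j).1 / t0 (σ j).1
  have hcj : ∀ x, cj A lam x = e fun i => (t1 i / t0 i) • (e.symm x) i := by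
    intro x
    apply A.injective
    rw [cj_apply, LinearEquiv.apply_symm_apply]
    ext j
    rw [dg_apply, hA, hA, LinearEquiv.symm_apply_apply, real_inner_smul_left]
  rw [← hC0]
  refine ⟨A, 0, lam, fun j => div_pos (hp1 _) (hp0 _), ?_, ?_⟩
  · rw [es1]
    ext z
    constructor
    · rintro ⟨x, hx, rfl⟩
      refine ⟨e fun i => (t0 i / t1 i) • x i, ?_, ?_⟩
      · rw [hmem]
        intro i
        rw [LinearEquiv.symm_apply_apply]
        obtain ⟨y, hy, hyx⟩ := hx i (mem_univ _)
        refine ⟨y, hy, ?_⟩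
        simp only at hyx ⊢
        rw [← hyx, smul_smul, div_mul_cancel₀ _ (hp1 i).ne']
      · simp only [zero_add]
        rw [hcj]
        congr 1
        funext i
        rw [LinearEquiv.symm_apply_apply, smul_smul]
        have := (hp0 i).ne'
        have := (hp1 i).ne'
        have e1 : t1 i / t0 i * (t0 i / t1 i) = 1 := by field_simp
        rw [e1, one_smul]
    · rintro ⟨x, hx, rfl⟩
      simp only [zero_add]
      rw [hcj]
      refine ⟨_, fun i _ => ?_, rfl⟩
      obtain ⟨y, hy, hyx⟩ := (hmem x).1 hx i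
      refine ⟨y, hy, ?_⟩
      simp only at hyx ⊢
      rw [← hyx, smul_smul, div_mul_cancel₀ _ (hp0 i).ne']
  · -- uncorrelated coordinates
    have hAf : ∀ k x j, A (flp e k x) j = if (σ j).1 = k then -A x j else A x j := by
      intro k x j
      rw [hA, hA, flp_symm]
      split_ifs
      · rw [inner_neg_left]
      · rfl
    have hmean : ∀ j, ∫ x, A x j ∂(un C0) = 0 := by
      intro j
      have h2 := hflip (σ j).1 fun x => A x j
      simp only [hAf, if_true, integral_neg] at h2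
      linarith
    intro i j hij
    rw [hmean i, hmean j, mul_zero]
    by_cases hbl : (σ i).1 = (σ j).1
    · have key : ∀ p q : (Σ i, Fin (m i)), p ≠ q → p.1 = q.1 →
          ∫ z : E n, ⟪(e.symm z) p.1, v p.1 p.2⟫_ℝ * ⟪(e.symm z) q.1, v q.1 q.2⟫_ℝ ∂(un C0) = 0 := by
        rintro ⟨p1, p2⟩ ⟨q1, q2⟩ hpq hbl
        simp only at hbl
        subst hbl
        have h2 : p2 ≠ q2 := fun h => hpq (by rw [h])
        exact hv p1 p2 q2 h2
      exact key (σ i) (σ j) (fun h => hij (σ.injective h)) hbl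
    · have h2 := hflip (σ i).1 fun x => A x i * A x j
      have h3 : ∀ x, A (flp e (σ i).1 x) i * A (flp e (σ i).1 x) j = -(A x i * A x j) := by
        intro x
        rw [hAf, hAf, if_pos rfl, if_neg (fun h => hbl h.symm)]
        ring
      simp only [h3, integral_neg] at h2
      linarith

end Pool.Agent.R751.MB
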