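import Pool.Agent.R751.MB.Pow

/-!
# Project MB: sums over blocks
-/

set_option autoImplicit false

namespace Pool.Agent.R751.MB

open MeasureTheory Set Filter Topology
open scoped ENNReal InnerProductSpace Pointwise

theorem AP.mono {κ : Type} [Fintype κ] {A A' : ℝ} {w : Eu κ → ℝ} (h : AP A w) (hA : A ≤ A') :
    AP A' w := by
  refine ⟨h.adm, ?_⟩
  obtain ⟨S, hS, hP⟩ := h.poi
  refine ⟨S, hS, fun f hf hb hl => (hP f hf hb hl).trans (mul_le_mul_of_nonneg_right hA ?_)⟩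
  exact div_nonneg (integral_nonneg fun x => mul_nonneg (sq_nonneg _) (h.adm.nonneg x))
    h.adm.pos.le

theorem Pow.lin {κ₁ κ₂ : Type} [Fintype κ₁] [Fintype κ₂] {p : ℝ} {Φ : Eu κ₁ → ℝ} (h : Pow p Φ)
    (e : Eu κ₁ ≃ₗ[ℝ] Eu κ₂) : Pow p fun z => Φ (e.symm z) := by
  refine ⟨?_, fun r x hr => ?_, fun x hx => ?_⟩
  · exact h.conv.comp_linearMap e.symm.toLinearMap
  · rw [map_smul]
    exact h.hom r _ hr
  · exact h.pos _ fun h0 => hx (by
      have := congrArg e h0
      rwa [e.apply_symm_apply, map_zero] at this)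

theorem Pow.sum {M : ℕ} {k : Fin M → ℕ} {n : ℕ} (e : (∀ i, Eu (Fin (k i))) ≃ₗ[ℝ] Eu (Fin n))
    {p : ℝ} (hp : 1 ≤ p) {Φ : ∀ i, Eu (Fin (k i)) → ℝ} (h : ∀ i, Pow p (Φ i)) :
    Pow p fun z => ∑ i, Φ i (e.symm z i) := by
  refine ⟨⟨convex_univ, fun x _ y _ a b ha hb hab => ?_⟩, fun r x hr => ?_, fun x hx => ?_⟩
  · simp only [smul_eq_mul]
    rw [Finset.mul_sum, Finset.mul_sum, ← Finset.sum_add_distrib]
    refine Finset.sum_le_sum fun i _ => ?_
    have h1 := (h i).conv.2 (mem_univ (e.symm x i)) (mem_univ (e.symm y i)) ha hb hab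
    rw [map_add, map_smul, map_smul]
    exact h1
  · rw [Finset.mul_sum]
    refine Finset.sum_congr rfl fun i _ => ?_
    rw [map_smul]
    exact (h i).hom r _ hr
  · obtain ⟨j, hj⟩ : ∃ j, e.symm x j ≠ 0 := by
      by_contra hne
      push Not at hne
      apply hx
      have h1 : e.symm x = 0 := funext hne
      have := congrArg e h1
      rwa [e.apply_symm_apply, map_zero] at this
    exact lt_of_lt_of_le ((h j).pos _ hj)
      (Finset.single_le_sum (f := fun i => Φ i (e.symm x i)) (fun i _ => (h i).nonneg hp _)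
        (Finset.mem_univ j))

theorem ap_zero {A : ℝ} (hA : 0 ≤ A) : AP A fun _ : Eu (Fin 0) => (1 : ℝ) := by
  have hlt : (volume : Measure (Eu (Fin 0))) univ < ⊤ :=
    (Set.toFinite (univ : Set (Eu (Fin 0)))).isCompact.measure_lt_top
  have hpos : 0 < (volume : Measure (Eu (Fin 0))) univ :=
    isOpen_univ.measure_pos volume univ_nonempty
  have hf : IsFiniteMeasure (volume : Measure (Eu (Fin 0))) := ⟨hlt⟩
  obtain ⟨c, hc⟩ : ∃ c : ℝ, c = (volume : Measure (Eu (Fin 0))).real univ := ⟨_, rfl⟩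
  have hc0 : 0 < c := by
    rw [hc, measureReal_def]
    exact ENNReal.toReal_pos hpos.ne' hlt.ne
  have hn : ∀ x : Eu (Fin 0), ‖x‖ = 0 := fun x => by
    rw [Subsingleton.elim x 0, norm_zero]
  have hone : ∫ _ : Eu (Fin 0), (1 : ℝ) = c := by
    rw [integral_const, ← hc]
    simp
  refine ⟨⟨fun _ => zero_le_one, ?_, ?_, measurable_const⟩, ContinuousLinearEquiv.refl ℝ _, ?_, ?_⟩
  · simp only [hn]
    exact integrable_const _
  · rw [hone]
    exact hc0
  · intro θ
    have h1 : ∀ x : Eu (Fin 0), ⟪(ContinuousLinearEquiv.refl ℝ (Eu (Fin 0))) x, θ⟫_ℝ = 0 := by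
      intro x
      rw [Subsingleton.elim θ 0, inner_zero_right]
    unfold VW EW
    simp only [h1, hn]
    simp
  · intro f hf1 hb hl
    have h1 : ∀ x : Eu (Fin 0), f ((ContinuousLinearEquiv.refl ℝ (Eu (Fin 0))) x) = f 0 :=
      fun x => by rw [Subsingleton.elim x 0]; rfl
    have h2 : VW (fun _ : Eu (Fin 0) => (1 : ℝ))
        (fun x => f ((ContinuousLinearEquiv.refl ℝ (Eu (Fin 0))) x)) = 0 := by
      unfold VW EW
      simp only [h1, hone, mul_one]
      rw [integral_const, integral_const, ← hc]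
      simp only [smul_eq_mul]
      field_simp
      ring
    rw [h2]
    refine mul_nonneg hA (div_nonneg (integral_nonneg fun x => ?_) (by rw [hone]; exact hc0.le))
    positivity

theorem ap_pi (hT : S_TEN) {A : ℝ} (hA : 0 ≤ A) : ∀ (M : ℕ) (k : Fin M → ℕ) (n : ℕ)
    (e : (∀ i, Eu (Fin (k i))) ≃ₗ[ℝ] Eu (Fin n)) (w : ∀ i, Eu (Fin (k i)) → ℝ),
    (∀ i, AP A (w i)) → AP A fun z => ∏ i, w i (e.symm z i) := by
  intro M
  induction M with
  | zero =>
    intro k n e w h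
    have hn : n = 0 := by
      have h1 := e.finrank_eq
      have h2 : Module.finrank ℝ (∀ i : Fin 0, Eu (Fin (k i))) = 0 :=
        Module.finrank_zero_of_subsingleton
      rw [h2] at h1
      simpa using h1.symm
    subst hn
    simp only [Finset.univ_eq_empty, Finset.prod_empty]
    exact ap_zero hA
  | succ M ih =>
    intro k n e w h
    obtain ⟨n', hn'⟩ : ∃ n' : ℕ, n' = Module.finrank ℝ (∀ i : Fin M, Eu (Fin (k i.succ))) := ⟨_, rfl⟩
    obtain ⟨e', -⟩ : ∃ e' : (∀ i : Fin M, Eu (Fin (k i.succ))) ≃ₗ[ℝ] Eu (Fin n'), True :=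
      ⟨LinearEquiv.ofFinrankEq _ _ (by rw [← hn']; simp), trivial⟩
    have h1 := ih (fun i => k i.succ) n' e' (fun i => w i.succ) fun i => h i.succ
    let c : (Eu (Fin (k 0)) × (∀ i : Fin M, Eu (Fin (k i.succ)))) ≃ₗ[ℝ] (∀ i, Eu (Fin (k i))) :=
      Fin.consLinearEquiv ℝ fun i => Eu (Fin (k i))
    let e'' : (Eu (Fin (k 0)) × Eu (Fin n')) ≃ₗ[ℝ] Eu (Fin n) :=
      ((LinearEquiv.refl ℝ _).prodCongr e'.symm).trans (c.trans e)
    have h2 := hT _ _ _ A e'' (w 0) _ hA (h 0) h1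
    have h3 : (fun z => ∏ i, w i (e.symm z i)) = fun z => w 0 (e''.symm z).1 *
        ∏ i : Fin M, w i.succ (e'.symm (e''.symm z).2 i) := by
      funext z
      obtain ⟨⟨a, y⟩, rfl⟩ := e''.surjective z
      rw [LinearEquiv.symm_apply_apply, Fin.prod_univ_succ]
      have h4 : e.symm (e'' (a, y)) = c (a, e'.symm y) := by
        change e.symm (e (c (a, e'.symm y))) = _
        rw [LinearEquiv.symm_apply_apply]
      rw [h4]
      rfl
    rw [h3]
    exact h2

end Pool.Agent.R751.MB
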