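import Pool.Agent.R751.MB.Stm

/-! Piece MB-ONE: the Poincaré inequality for log-concave weights on the line. -/

set_option autoImplicit false

namespace Pool.Agent.R751.MB.One

open MeasureTheory Set Filter Topology
open scoped ENNReal InnerProductSpace

/-- log-concavity on the line -/
def LL (w : ℝ → ℝ) : Prop :=
  ∀ x y t : ℝ, 0 < t → t < 1 → w x ^ (1 - t) * w y ^ t ≤ w ((1 - t) * x + t * y)

/-- four point inequality -/
lemma four {w : ℝ → ℝ} (h0 : ∀ x, 0 ≤ w x) (hlc : LL w) {m t s : ℝ} (ht : m ≤ t) (hs : 0 ≤ s) :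
    w (t + s) * w m ≤ w t * w (m + s) := by
  rcases ht.eq_or_lt with rfl | ht
  · rw [mul_comm]
  rcases hs.eq_or_lt with rfl | hs
  · rw [add_zero, add_zero]
  have hd0 : 0 < t - m + s := by linarith
  obtain ⟨l, hl⟩ : ∃ l, l = (t - m) / (t - m + s) := ⟨_, rfl⟩
  have hl0 : 0 < l := by rw [hl]; exact div_pos (by linarith) hd0
  have hl1 : l < 1 := by rw [hl]; exact (div_lt_one hd0).2 (by linarith)
  have hld : l * (t - m + s) = t - m := by rw [hl]; field_simp
  have e1 : (1 - l) * m + l * (t + s) = t := by linear_combination hld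
  have e2 : (1 - (1 - l)) * m + (1 - l) * (t + s) = m + s := by linear_combination -hld
  have h1 := hlc m (t + s) l hl0 hl1
  have h2 := hlc m (t + s) (1 - l) (by linarith) (by linarith)
  rw [e1] at h1
  rw [e2] at h2
  have p1 : w m = w m ^ (1 - l) * w m ^ (1 - (1 - l)) := by
    rw [← Real.rpow_add_of_nonneg (h0 m) (by linarith) (by linarith)]
    simp
  have p2 : w (t + s) = w (t + s) ^ l * w (t + s) ^ (1 - l) := by
    rw [← Real.rpow_add_of_nonneg (h0 _) (by linarith) (by linarith)]
    simp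
  calc w (t + s) * w m = (w m ^ (1 - l) * w (t + s) ^ l) *
        (w m ^ (1 - (1 - l)) * w (t + s) ^ (1 - l)) := by
        conv_lhs => rw [p1, p2]
        ring
    _ ≤ w t * w (m + s) := mul_le_mul h1 h2
        (mul_nonneg (Real.rpow_nonneg (h0 _) _) (Real.rpow_nonneg (h0 _) _)) (h0 _)

lemma tail {w : ℝ → ℝ} (h0 : ∀ x, 0 ≤ w x) (hlc : LL w) (hi : Integrable w) {m t : ℝ}
    (hm : 0 < w m) (ht : m ≤ t) : ∫ x in Ioi t, w x ≤ (∫ x, w x) / w m * w t := by
  have h1 : ∫ x in Ioi t, w x = ∫ x in Ioi m, w (x + (t - m)) := by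
    have := (measurePreserving_add_right volume (t - m)).setIntegral_preimage_emb
      (measurableEmbedding_addRight (t - m)) w (Ioi t)
    rw [← this]
    congr 2
    rw [preimage_add_const_Ioi]
    congr 1
    ring
  have h2 : (∫ x in Ioi m, w (x + (t - m))) * w m ≤ w t * ∫ x in Ioi m, w x := by
    rw [← integral_mul_const, ← integral_const_mul]
    apply setIntegral_mono_on
    · exact ((hi.comp_add_right (t - m)).integrableOn).mul_const _
    · exact (hi.integrableOn).const_mul _
    · exact measurableSet_Ioi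
    · intro x hx
      have := four h0 hlc ht (s := x - m) (by linarith [mem_Ioi.1 hx])
      have e1 : t + (x - m) = x + (t - m) := by ring
      have e2 : m + (x - m) = x := by ring
      rw [e1, e2] at this
      exact this
  have h3 : ∫ x in Ioi m, w x ≤ ∫ x, w x := setIntegral_le_integral hi (Eventually.of_forall h0)
  rw [h1, div_mul_eq_mul_div, le_div_iff₀ hm]
  refine h2.trans ?_
  rw [mul_comm]
  exact mul_le_mul_of_nonneg_right h3 (h0 t)

/-- Hardy's inequality on a half line -/
lemma hardy {w g : ℝ → ℝ} {m C B L : ℝ} (hw0 : ∀ x, 0 ≤ w x) (hwm : Measurable w)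
    (hwi : Integrable w) (hC : 0 < C) (htail : ∀ t, m ≤ t → ∫ x in Ioi t, w x ≤ C * w t)
    (hg : ContDiff ℝ 1 g) (hgm : g m = 0) (hB : ∀ x, |g x| ≤ B) (hL : ∀ x, |deriv g x| ≤ L) :
    ∫ x in Ioi m, g x ^ 2 * w x ≤ 4 * C ^ 2 * ∫ x in Ioi m, deriv g x ^ 2 * w x := by
  have hgc : Continuous g := hg.continuous
  have hdc : Continuous (deriv g) := hg.continuous_deriv le_rfl
  have hgd : Differentiable ℝ g := hg.differentiable one_ne_zero
  have hB0 : 0 ≤ B := (abs_nonneg _).trans (hB 0)
  have hL0 : 0 ≤ L := (abs_nonneg _).trans (hL 0)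
  set a : ℝ → ℝ := fun t => |2 * g t * deriv g t| with ha
  have hac : Continuous a := ((continuous_const.mul hgc).mul hdc).abs
  have ha0 : ∀ t, 0 ≤ a t := fun t => abs_nonneg _
  -- the swap
  let K : ℝ → ℝ → ℝ≥0∞ := fun x t =>
    ({p : ℝ × ℝ | m < p.2 ∧ p.2 ≤ p.1}.indicator
      (fun p => ENNReal.ofReal (a p.2) * ENNReal.ofReal (w p.1))) (x, t)
  have hKm : Measurable (Function.uncurry K) := by
    have hs : MeasurableSet {p : ℝ × ℝ | m < p.2 ∧ p.2 ≤ p.1} :=
      (measurableSet_lt measurable_const measurable_snd).inter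
        (measurableSet_le measurable_snd measurable_fst)
    exact (((hac.measurable.comp measurable_snd).ennreal_ofReal).mul
      ((hwm.comp measurable_fst).ennreal_ofReal)).indicator hs
  have hswap := lintegral_lintegral_swap (μ := (volume : Measure ℝ)) (ν := (volume : Measure ℝ))
    hKm.aemeasurable
  have hleft : ∫⁻ x in Ioi m, ENNReal.ofReal (g x ^ 2 * w x) ≤ ∫⁻ x, ∫⁻ t, K x t := by
    refine le_trans ?_ (setLIntegral_le_lintegral (Ioi m) _)
    apply setLIntegral_mono' measurableSet_Ioi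
    intro x hx
    have hx' : m ≤ x := (mem_Ioi.1 hx).le
    have h1 : ∫⁻ t, K x t = (∫⁻ t in Ioc m x, ENNReal.ofReal (a t)) * ENNReal.ofReal (w x) := by
      rw [← lintegral_mul_const _ hac.measurable.ennreal_ofReal,
        ← lintegral_indicator measurableSet_Ioc]
      apply lintegral_congr
      intro t
      simp only [K, indicator, mem_setOf_eq, mem_Ioc]
    have h2 : g x ^ 2 ≤ ∫ t in m..x, a t := by
      have e : ∫ t in m..x, 2 * g t * deriv g t = g x ^ 2 - g m ^ 2 := by
        apply intervalIntegral.integral_eq_sub_of_hasDerivAt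
        · intro t _
          have := (hgd t).hasDerivAt.fun_pow 2
          simpa using this
        · exact ((continuous_const.mul hgc).mul hdc).intervalIntegrable _ _
      rw [hgm, zero_pow two_ne_zero, sub_zero] at e
      rw [← e]
      exact (le_abs_self _).trans (intervalIntegral.abs_integral_le_integral_abs hx')
    rw [h1, ENNReal.ofReal_mul (sq_nonneg _)]
    gcongr
    rw [← ofReal_integral_eq_lintegral_ofReal]
    · rw [← intervalIntegral.integral_of_le hx']
      exact ENNReal.ofReal_le_ofReal h2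
    · exact (hac.intervalIntegrable m x).1
    · exact Eventually.of_forall ha0
  have hright : ∫⁻ t, ∫⁻ x, K x t ≤ ∫⁻ t in Ioi m, ENNReal.ofReal (a t * (C * w t)) := by
    rw [← lintegral_indicator measurableSet_Ioi]
    apply lintegral_mono
    intro t
    by_cases ht : m < t
    · rw [indicator_of_mem (mem_Ioi.2 ht)]
      have h1 : ∫⁻ x, K x t = ENNReal.ofReal (a t) * ∫⁻ x in Ici t, ENNReal.ofReal (w x) := by
        rw [← lintegral_const_mul _ hwm.ennreal_ofReal, ← lintegral_indicator measurableSet_Ici]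
        apply lintegral_congr
        intro x
        simp only [K, indicator, mem_setOf_eq, mem_Ici, ht, true_and]
      have h2 : ∫⁻ x in Ici t, ENNReal.ofReal (w x) ≤ ENNReal.ofReal (C * w t) := by
        rw [setLIntegral_congr Ioi_ae_eq_Ici.symm, ← ofReal_integral_eq_lintegral_ofReal]
        · exact ENNReal.ofReal_le_ofReal (htail t ht.le)
        · exact hwi.integrableOn
        · exact Eventually.of_forall hw0
      simp only
      rw [h1, ENNReal.ofReal_mul (ha0 t)]
      gcongr
    · have h1 : ∫⁻ x, K x t = 0 := by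
        rw [lintegral_eq_zero_iff]
        · filter_upwards with x
          simp only [K, indicator, mem_setOf_eq, ht, false_and, if_false, Pi.zero_apply]
        · exact hKm.comp (measurable_id.prodMk measurable_const)
      simp only
      rw [h1]
      exact bot_le
  have hfin := (hleft.trans (le_of_eq hswap)).trans hright
  -- back to real integrals
  have i1 : Integrable (fun x => g x ^ 2 * w x) := by
    refine Integrable.mono' (hwi.const_mul (B ^ 2)) ((hgc.pow 2).measurable.mul hwm).aestronglyMeasurable ?_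
    filter_upwards with x
    rw [Real.norm_eq_abs, abs_mul, abs_of_nonneg (hw0 x), abs_pow]
    exact mul_le_mul_of_nonneg_right (pow_le_pow_left₀ (abs_nonneg _) (hB x) 2) (hw0 x)
  have i2 : Integrable (fun x => deriv g x ^ 2 * w x) := by
    refine Integrable.mono' (hwi.const_mul (L ^ 2)) ((hdc.pow 2).measurable.mul hwm).aestronglyMeasurable ?_
    filter_upwards with x
    rw [Real.norm_eq_abs, abs_mul, abs_of_nonneg (hw0 x), abs_pow]
    exact mul_le_mul_of_nonneg_right (pow_le_pow_left₀ (abs_nonneg _) (hL x) 2) (hw0 x)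
  have i3 : Integrable (fun x => a x * (C * w x)) := by
    refine Integrable.mono' (hwi.const_mul (2 * B * L * C))
      (hac.measurable.mul (hwm.const_mul C)).aestronglyMeasurable ?_
    filter_upwards with x
    rw [Real.norm_eq_abs, abs_of_nonneg (mul_nonneg (ha0 x) (mul_nonneg hC.le (hw0 x)))]
    have : a x ≤ 2 * B * L := by
      simp only [ha]
      rw [abs_mul, abs_mul, abs_two]
      exact mul_le_mul (mul_le_mul_of_nonneg_left (hB x) (by norm_num)) (hL x) (abs_nonneg _)
        (by positivity)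
    calc a x * (C * w x) ≤ (2 * B * L) * (C * w x) :=
          mul_le_mul_of_nonneg_right this (mul_nonneg hC.le (hw0 x))
      _ = 2 * B * L * C * w x := by ring
  have h5 : ∫ x in Ioi m, g x ^ 2 * w x ≤ ∫ x in Ioi m, a x * (C * w x) := by
    rw [integral_eq_lintegral_of_nonneg_ae
      (Eventually.of_forall fun x => mul_nonneg (sq_nonneg _) (hw0 x)) i1.integrableOn.1,
      integral_eq_lintegral_of_nonneg_ae
      (Eventually.of_forall fun x => mul_nonneg (ha0 x) (mul_nonneg hC.le (hw0 x)))
        i3.integrableOn.1]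
    apply ENNReal.toReal_mono _ hfin
    rw [← ofReal_integral_eq_lintegral_ofReal i3.integrableOn
      (Eventually.of_forall fun x => mul_nonneg (ha0 x) (mul_nonneg hC.le (hw0 x)))]
    exact ENNReal.ofReal_ne_top
  have h6 : ∫ x in Ioi m, a x * (C * w x) ≤
      ∫ x in Ioi m, (1 / 2 * (g x ^ 2 * w x) + 2 * C ^ 2 * (deriv g x ^ 2 * w x)) := by
    have i4 : Integrable (fun x => 1 / 2 * (g x ^ 2 * w x) +
        2 * C ^ 2 * (deriv g x ^ 2 * w x)) := (i1.const_mul _).add (i2.const_mul _)
    apply setIntegral_mono i3.integrableOn i4.integrableOn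
    intro x
    have hk : a x * C ≤ 1 / 2 * g x ^ 2 + 2 * C ^ 2 * deriv g x ^ 2 := by
      simp only [ha]
      rw [abs_mul, abs_mul, abs_two]
      have h1 : g x ^ 2 = |g x| ^ 2 := (sq_abs _).symm
      have h2 : deriv g x ^ 2 = |deriv g x| ^ 2 := (sq_abs _).symm
      rw [h1, h2]
      nlinarith [sq_nonneg (|g x| - 2 * C * |deriv g x|)]
    have := mul_le_mul_of_nonneg_right hk (hw0 x)
    simp only
    linarith
  rw [integral_add (i1.const_mul _).integrableOn (i2.const_mul _).integrableOn,
    integral_const_mul, integral_const_mul] at h6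
  linarith

lemma line {w F : ℝ → ℝ} {B L : ℝ} (hw0 : ∀ x, 0 ≤ w x) (hwm : Measurable w)
    (hwi : Integrable w) (hi2 : Integrable fun x => x ^ 2 * w x) (hpos : 0 < ∫ x, w x)
    (hlc : LL w) (hF : ContDiff ℝ 1 F) (hB : ∀ x, |F x| ≤ B) (hL : ∀ x, |deriv F x| ≤ L)
    {V : ℝ} (hV : V = (∫ x, x ^ 2 * w x) / (∫ x, w x) - ((∫ x, x * w x) / ∫ x, w x) ^ 2)
    (hV0 : 0 < V) :
    (∫ x, F x ^ 2 * w x) / (∫ x, w x) - ((∫ x, F x * w x) / ∫ x, w x) ^ 2 ≤
      256 * V * ((∫ x, deriv F x ^ 2 * w x) / ∫ x, w x) := by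
  set M := ∫ x, w x with hM
  set μ := (∫ x, x * w x) / M with hμ
  have hi1 : Integrable fun x => x * w x := by
    refine Integrable.mono' (hwi.add hi2) (measurable_id.mul hwm).aestronglyMeasurable ?_
    filter_upwards with x
    rw [Real.norm_eq_abs, abs_mul, abs_of_nonneg (hw0 x)]
    have : |x| ≤ 1 + x ^ 2 := by
      rcases abs_cases x with ⟨h, _⟩ | ⟨h, _⟩ <;> rw [h] <;> nlinarith [sq_nonneg (x - 1), sq_nonneg (x + 1)]
    have := mul_le_mul_of_nonneg_right this (hw0 x)
    simp only [Pi.add_apply]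
    linarith
  set σ := Real.sqrt V with hσ
  have hσ0 : 0 < σ := Real.sqrt_pos.2 hV0
  have hσ2 : σ ^ 2 = V := Real.sq_sqrt hV0.le
  -- the variance
  have hvar : ∫ x, (x - μ) ^ 2 * w x = V * M := by
    have e : ∀ x, (x - μ) ^ 2 * w x = x ^ 2 * w x - 2 * μ * (x * w x) + μ ^ 2 * w x := by
      intro x; ring
    have k1 : Integrable (fun x => x ^ 2 * w x - 2 * μ * (x * w x)) := hi2.sub (hi1.const_mul _)
    simp_rw [e]
    rw [integral_add k1 (hwi.const_mul _),
      integral_sub hi2 (hi1.const_mul _), integral_const_mul, integral_const_mul, hV]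
    have h1 : ∫ x, x * w x = μ * M := by rw [hμ]; field_simp
    rw [h1]
    field_simp
    ring
  -- a good point
  obtain ⟨m, hm⟩ : ∃ m, M / (8 * σ) ≤ w m := by
    by_contra hcon
    push Not at hcon
    have hle : ∫ x, (4 * σ ^ 2 * w x -
        (Ioo (μ - 2 * σ) (μ + 2 * σ)).indicator (fun _ => 4 * σ ^ 2 * (M / (8 * σ))) x) ≤
        ∫ x, (x - μ) ^ 2 * w x := by
      apply integral_mono
      · apply (hwi.const_mul _).sub
        rw [integrable_indicator_iff measurableSet_Ioo]
        exact integrableOn_const (by simp)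
      · have : (fun x => (x - μ) ^ 2 * w x) =
            fun x => x ^ 2 * w x - 2 * μ * (x * w x) + μ ^ 2 * w x := by
          funext x; ring
        rw [this]
        exact (hi2.sub (hi1.const_mul _)).add (hwi.const_mul _)
      · intro x
        by_cases hx : x ∈ Ioo (μ - 2 * σ) (μ + 2 * σ)
        · simp only [indicator_of_mem hx]
          have h1 := (hcon x).le
          have h2 : 4 * σ ^ 2 * w x ≤ 4 * σ ^ 2 * (M / (8 * σ)) :=
            mul_le_mul_of_nonneg_left h1 (by positivity)
          have h3 : 0 ≤ (x - μ) ^ 2 * w x := mul_nonneg (sq_nonneg _) (hw0 x)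
          linarith
        · simp only [indicator_of_notMem hx, sub_zero]
          apply mul_le_mul_of_nonneg_right _ (hw0 x)
          rw [mem_Ioo, not_and_or, not_lt, not_lt] at hx
          rcases hx with hx | hx <;> nlinarith
    have hconst : Integrable (fun x : ℝ => (Ioo (μ - 2 * σ) (μ + 2 * σ)).indicator
        (fun _ => 4 * σ ^ 2 * (M / (8 * σ))) x) := by
      rw [integrable_indicator_iff measurableSet_Ioo]
      exact integrableOn_const (by simp)
    rw [integral_sub (hwi.const_mul _) hconst, integral_const_mul, hvar,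
      integral_indicator measurableSet_Ioo, setIntegral_const] at hle
    have e1 : volume.real (Ioo (μ - 2 * σ) (μ + 2 * σ)) = 4 * σ := by
      rw [Real.volume_real_Ioo_of_le (by linarith)]
      ring
    rw [e1, smul_eq_mul, ← hσ2] at hle
    have e2 : 4 * σ * (4 * σ ^ 2 * (M / (8 * σ))) = 2 * σ ^ 2 * M := by
      field_simp
      ring
    rw [e2] at hle
    have : 0 < σ ^ 2 * M := by positivity
    nlinarith
  have hmpos : 0 < w m := lt_of_lt_of_le (by positivity) hm
  set C := 8 * σ with hC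
  have hC0 : 0 < C := by positivity
  have hMC : M / w m ≤ C := by
    rw [div_le_iff₀ hmpos]
    rw [div_le_iff₀ hC0] at hm
    linarith
  -- right
  set g : ℝ → ℝ := fun x => F x - F m with hg
  have hgd : ∀ x, deriv g x = deriv F x := by
    intro x
    rw [hg]
    simp
  have hgC : ContDiff ℝ 1 g := hF.sub contDiff_const
  have hgB : ∀ x, |g x| ≤ 2 * B := by
    intro x
    have h1 := hB x
    have h2 := hB m
    have := abs_sub (F x) (F m)
    simp only [hg]
    linarith
  have hR : ∫ x in Ioi m, g x ^ 2 * w x ≤ 4 * C ^ 2 * ∫ x in Ioi m, deriv g x ^ 2 * w x := by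
    apply hardy hw0 hwm hwi hC0 _ hgC (by simp [hg]) hgB (fun x => by rw [hgd]; exact hL x)
    intro t ht
    refine (tail hw0 hlc hwi hmpos ht).trans ?_
    exact mul_le_mul_of_nonneg_right hMC (hw0 t)
  -- left
  have hwn0 : ∀ x, 0 ≤ w (-x) := fun x => hw0 _
  have hwni : Integrable (fun x => w (-x)) := hwi.comp_neg
  have hlcn : LL (fun x => w (-x)) := by
    intro x y t h1 h2
    have := hlc (-x) (-y) t h1 h2
    have e : (1 - t) * -x + t * -y = -((1 - t) * x + t * y) := by ring
    rw [e] at this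
    exact this
  have hMn : ∫ x, w (-x) = M := integral_neg_eq_self w volume
  have hgn : ∀ x, deriv (fun x => g (-x)) x = -deriv g (-x) := by
    intro x
    exact deriv_comp_neg g x
  have hL' : ∫ x in Ioi (-m), g (-x) ^ 2 * w (-x) ≤
      4 * C ^ 2 * ∫ x in Ioi (-m), deriv (fun x => g (-x)) x ^ 2 * w (-x) := by
    apply hardy (w := fun x => w (-x)) (g := fun x => g (-x)) (B := 2 * B) (L := L) hwn0
      (hwm.comp measurable_neg) hwni hC0 _ (hgC.comp contDiff_neg) (by simp [hg])
      (fun x => hgB _)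
      (fun x => by rw [hgn, abs_neg, hgd]; exact hL _)
    intro t ht
    have hmp : 0 < (fun x => w (-x)) (-m) := by simpa using hmpos
    have := tail hwn0 hlcn hwni hmp ht
    simp only [neg_neg] at this
    rw [hMn] at this
    refine this.trans ?_
    exact mul_le_mul_of_nonneg_right hMC (hwn0 t)
  have hL2 : ∫ x in Iic m, g x ^ 2 * w x ≤ 4 * C ^ 2 * ∫ x in Iic m, deriv g x ^ 2 * w x := by
    have e1 : ∫ x in Ioi (-m), g (-x) ^ 2 * w (-x) = ∫ x in Iic m, g x ^ 2 * w x := by
      have := integral_comp_neg_Ioi (-m) (fun x => g x ^ 2 * w x)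
      rw [neg_neg] at this
      exact this
    have e2 : ∫ x in Ioi (-m), deriv (fun x => g (-x)) x ^ 2 * w (-x) =
        ∫ x in Iic m, deriv g x ^ 2 * w x := by
      have := integral_comp_neg_Ioi (-m) (fun x => deriv g x ^ 2 * w x)
      rw [neg_neg] at this
      rw [← this]
      apply setIntegral_congr_fun measurableSet_Ioi
      intro x _
      simp only
      rw [hgn]
      ring
    rw [e1, e2] at hL'
    exact hL'
  -- integrability
  have hFc := hF.continuous
  have hdc : Continuous (deriv F) := hF.continuous_deriv le_rfl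
  have bd : ∀ (h : ℝ → ℝ) (B' : ℝ), Continuous h → (∀ x, |h x| ≤ B') →
      Integrable (fun x => h x * w x) := by
    intro h B' hc hb
    refine Integrable.mono' (hwi.const_mul B') (hc.measurable.mul hwm).aestronglyMeasurable ?_
    filter_upwards with x
    rw [Real.norm_eq_abs, abs_mul, abs_of_nonneg (hw0 x)]
    exact mul_le_mul_of_nonneg_right (hb x) (hw0 x)
  have j1 : Integrable (fun x => g x ^ 2 * w x) := by
    apply bd (fun x => g x ^ 2) ((2 * B) ^ 2) (hgC.continuous.pow 2)
    intro x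
    rw [abs_pow]
    exact pow_le_pow_left₀ (abs_nonneg _) (hgB x) 2
  have j2 : Integrable (fun x => deriv g x ^ 2 * w x) := by
    apply bd (fun x => deriv g x ^ 2) (L ^ 2) ((hgC.continuous_deriv le_rfl).pow 2)
    intro x
    rw [abs_pow, hgd]
    exact pow_le_pow_left₀ (abs_nonneg _) (hL x) 2
  have j3 : Integrable (fun x => F x ^ 2 * w x) := by
    apply bd (fun x => F x ^ 2) (B ^ 2) (hFc.pow 2)
    intro x
    rw [abs_pow]
    exact pow_le_pow_left₀ (abs_nonneg _) (hB x) 2
  have j4 : Integrable (fun x => F x * w x) := bd F B hFc hB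
  have hall : ∫ x, g x ^ 2 * w x ≤ 4 * C ^ 2 * ∫ x, deriv g x ^ 2 * w x := by
    rw [← integral_add_compl measurableSet_Iic j1 (s := Iic m), compl_Iic,
      ← integral_add_compl measurableSet_Iic j2 (s := Iic m), compl_Iic]
    linarith
  have hcc : 4 * C ^ 2 = 256 * V := by
    rw [hC, ← hσ2]
    ring
  have hgF : ∫ x, g x ^ 2 * w x = (∫ x, F x ^ 2 * w x) - 2 * F m * (∫ x, F x * w x) + F m ^ 2 * M := by
    have e : ∀ x, g x ^ 2 * w x = F x ^ 2 * w x - 2 * F m * (F x * w x) + F m ^ 2 * w x := by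
      intro x
      simp only [hg]
      ring
    have k1 : Integrable (fun x => F x ^ 2 * w x - 2 * F m * (F x * w x)) :=
      j3.sub (j4.const_mul _)
    simp_rw [e]
    rw [integral_add k1 (hwi.const_mul _),
      integral_sub j3 (j4.const_mul _), integral_const_mul, integral_const_mul]
  have hdd : ∫ x, deriv g x ^ 2 * w x = ∫ x, deriv F x ^ 2 * w x := by
    simp_rw [hgd]
  rw [hgF, hdd, hcc] at hall
  set P := ∫ x, F x ^ 2 * w x
  set Q := ∫ x, F x * w x
  set D := ∫ x, deriv F x ^ 2 * w x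
  have h1 : (P - 2 * F m * Q + F m ^ 2 * M) / M ≤ 256 * V * D / M :=
    div_le_div_of_nonneg_right hall hpos.le
  have h2 : (P - 2 * F m * Q + F m ^ 2 * M) / M = P / M - 2 * F m * (Q / M) + F m ^ 2 := by
    field_simp
  rw [h2] at h1
  have h3 : 256 * V * (D / M) = 256 * V * D / M := by ring
  rw [h3]
  nlinarith [sq_nonneg (Q / M - F m)]

lemma var_pos {w : ℝ → ℝ} (hw0 : ∀ x, 0 ≤ w x) (hwm : Measurable w)
    (hwi : Integrable w) (hi2 : Integrable fun x => x ^ 2 * w x) (hpos : 0 < ∫ x, w x) :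
    0 < (∫ x, x ^ 2 * w x) / (∫ x, w x) - ((∫ x, x * w x) / ∫ x, w x) ^ 2 := by
  set M := ∫ x, w x with hM
  set μ := (∫ x, x * w x) / M with hμ
  have hi1 : Integrable fun x => x * w x := by
    refine Integrable.mono' (hwi.add hi2) (measurable_id.mul hwm).aestronglyMeasurable ?_
    filter_upwards with x
    rw [Real.norm_eq_abs, abs_mul, abs_of_nonneg (hw0 x)]
    have : |x| ≤ 1 + x ^ 2 := by
      rcases abs_cases x with ⟨h, _⟩ | ⟨h, _⟩ <;> rw [h] <;>
        nlinarith [sq_nonneg (x - 1), sq_nonneg (x + 1)]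
    have := mul_le_mul_of_nonneg_right this (hw0 x)
    simp only [Pi.add_apply]
    linarith
  have k1 : Integrable (fun x => x ^ 2 * w x - 2 * μ * (x * w x)) := hi2.sub (hi1.const_mul _)
  have k2 : Integrable (fun x => x ^ 2 * w x - 2 * μ * (x * w x) + μ ^ 2 * w x) :=
    k1.add (hwi.const_mul _)
  have e : ∀ x, x ^ 2 * w x - 2 * μ * (x * w x) + μ ^ 2 * w x = (x - μ) ^ 2 * w x := by
    intro x; ring
  have hvar : ∫ x, (x - μ) ^ 2 * w x = ((∫ x, x ^ 2 * w x) / M - μ ^ 2) * M := by
    simp_rw [← e]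
    rw [integral_add k1 (hwi.const_mul _),
      integral_sub hi2 (hi1.const_mul _), integral_const_mul, integral_const_mul]
    have h1 : ∫ x, x * w x = μ * M := by rw [hμ]; field_simp
    rw [h1]
    field_simp
    ring
  have hnn : ∀ x, 0 ≤ (x - μ) ^ 2 * w x := fun x => mul_nonneg (sq_nonneg _) (hw0 x)
  have h0 : 0 < ∫ x, (x - μ) ^ 2 * w x := by
    rcases (integral_nonneg_of_ae (Eventually.of_forall hnn) : 0 ≤ ∫ x, (x - μ) ^ 2 * w x).eq_or_lt with h | h
    · exfalso
      have k3 : Integrable (fun x => (x - μ) ^ 2 * w x) := by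
        simp_rw [← e]
        exact k2
      have h1 := (integral_eq_zero_iff_of_nonneg hnn k3).1 h.symm
      have h2 : ∀ᵐ x ∂(volume : Measure ℝ), x ≠ μ := by simp [ae_iff]
      have h3 : w =ᵐ[volume] 0 := by
        filter_upwards [h1, h2] with x hx1 hx2
        simp only [Pi.zero_apply] at hx1 ⊢
        rcases mul_eq_zero.1 hx1 with h | h
        · exact absurd (sub_eq_zero.1 (pow_eq_zero_iff two_ne_zero |>.1 h)) hx2
        · exact h
      rw [hM, integral_congr_ae h3] at hpos
      simp at hpos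
    · exact h
  rw [hvar] at h0
  exact (pos_iff_pos_of_mul_pos h0).2 hpos

/-- the parametrisation of the line -/
noncomputable def ph (s : ℝ) : Eu (Fin 1) := WithLp.toLp 2 (fun _ => s)

/-- the same as a measurable equivalence -/
noncomputable def phe : ℝ ≃ᵐ Eu (Fin 1) :=
  (MeasurableEquiv.funUnique (Fin 1) ℝ).symm.trans (MeasurableEquiv.toLp 2 (Fin 1 → ℝ))

lemma phe_apply (s : ℝ) : phe s = ph s := rfl

lemma phe_mp : MeasurePreserving phe volume volume :=
  (PiLp.volume_preserving_toLp (Fin 1)).comp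
    ((volume_preserving_funUnique (Fin 1) ℝ).symm _)

lemma ph_smul (s : ℝ) : ph s = s • ph 1 := by
  ext i
  simp [ph]

lemma ph_coord (x : Eu (Fin 1)) : ph (x 0) = x := by
  ext i
  fin_cases i
  rfl

lemma ph_norm (s : ℝ) : ‖ph s‖ = |s| := by
  rw [EuclideanSpace.norm_eq]
  simp [ph, Real.sqrt_sq_eq_abs]

lemma ph_inner (s : ℝ) (θ : Eu (Fin 1)) : ⟪ph s, θ⟫_ℝ = s * θ 0 := by
  rw [PiLp.inner_apply]
  simp [ph, mul_comm]

lemma ph_norm' (θ : Eu (Fin 1)) : ‖θ‖ ^ 2 = (θ 0) ^ 2 := by
  rw [← ph_coord θ, ph_norm, sq_abs]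
  rfl

lemma ph_int (G : Eu (Fin 1) → ℝ) : ∫ x, G x = ∫ s, G (ph s) := by
  rw [← phe_mp.integral_comp' G]
  rfl

lemma ph_EW (w v : Eu (Fin 1) → ℝ) :
    EW w v = (∫ s, v (ph s) * w (ph s)) / ∫ s, w (ph s) := by
  rw [EW, ph_int, ph_int w]

end Pool.Agent.R751.MB.One

namespace Pool.Agent.R751.MB

open MeasureTheory Set Filter Topology
open scoped ENNReal InnerProductSpace
open One

theorem one : S_ONE := by
  refine ⟨256, by norm_num, ?_⟩
  intro w hA hlc
  refine ⟨hA, ?_⟩
  set W : ℝ → ℝ := fun s => w (ph s) with hW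
  have hphm : Measurable ph := phe.measurable
  have hW0 : ∀ s, 0 ≤ W s := fun s => hA.nonneg _
  have hWm : Measurable W := hA.meas.comp hphm
  have hI : Integrable (fun s => (1 + s ^ 2) * W s) := by
    have h1 := (phe_mp.integrable_comp_emb phe.measurableEmbedding).2 hA.int
    refine h1.congr (Eventually.of_forall fun s => ?_)
    simp only [Function.comp_apply, phe_apply, ph_norm, sq_abs, hW]
  have hWi : Integrable W := by
    refine hI.mono' hWm.aestronglyMeasurable (Eventually.of_forall fun s => ?_)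
    rw [Real.norm_eq_abs, abs_of_nonneg (hW0 s)]
    have := mul_nonneg (sq_nonneg s) (hW0 s)
    linarith
  have hW2 : Integrable (fun s => s ^ 2 * W s) := by
    refine hI.mono' ((measurable_id.pow_const 2).mul hWm).aestronglyMeasurable
      (Eventually.of_forall fun s => ?_)
    rw [Real.norm_eq_abs, abs_of_nonneg (mul_nonneg (sq_nonneg s) (hW0 s))]
    have := hW0 s
    linarith
  have hpos : 0 < ∫ s, W s := by
    have := hA.pos
    rw [ph_int] at this
    exact this
  have hLL : LL W := by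
    intro x y t h1 h2
    have := hlc (ph x) (ph y) t h1 h2
    have e : (1 - t) • ph x + t • ph y = ph ((1 - t) * x + t * y) := by
      ext i
      simp [ph]
    rw [e] at this
    exact this
  have hV0 := var_pos hW0 hWm hWi hW2 hpos
  obtain ⟨V, hV⟩ : ∃ V, V = (∫ x, x ^ 2 * W x) / (∫ x, W x) - ((∫ x, x * W x) / ∫ x, W x) ^ 2 :=
    ⟨_, rfl⟩
  rw [← hV] at hV0
  set c : ℝ := (Real.sqrt V)⁻¹ with hc
  have hc0 : 0 < c := inv_pos.2 (Real.sqrt_pos.2 hV0)
  have hcV : c ^ 2 * V = 1 := by
    rw [hc, inv_pow, Real.sq_sqrt hV0.le]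
    exact inv_mul_cancel₀ hV0.ne'
  let S : Eu (Fin 1) ≃L[ℝ] Eu (Fin 1) := ContinuousLinearEquiv.equivOfInverse
    (c • ContinuousLinearMap.id ℝ (Eu (Fin 1))) (c⁻¹ • ContinuousLinearMap.id ℝ (Eu (Fin 1)))
    (fun x => by simp [smul_smul, mul_inv_cancel₀ hc0.ne'])
    (fun x => by simp [smul_smul, inv_mul_cancel₀ hc0.ne'])
  have hS : ∀ x, S x = c • x := fun x => rfl
  have hSph : ∀ s, S (ph s) = ph (c * s) := by
    intro s
    rw [hS, ph_smul s, ph_smul (c * s), smul_smul]
  refine ⟨S, ?_, ?_⟩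
  · intro θ
    rw [VW, ph_EW, ph_EW, ph_norm']
    simp only [hSph, ph_inner]
    have e1 : ∫ s, (c * s * θ 0) ^ 2 * w (ph s) = (c * θ 0) ^ 2 * ∫ s, s ^ 2 * W s := by
      rw [← integral_const_mul]
      congr 1
      funext s
      simp only [hW]
      ring
    have e2 : ∫ s, c * s * θ 0 * w (ph s) = (c * θ 0) * ∫ s, s * W s := by
      rw [← integral_const_mul]
      congr 1
      funext s
      simp only [hW]
      ring
    rw [e1, e2]
    have e3 : (c * θ 0) ^ 2 * (∫ s, s ^ 2 * W s) / (∫ s, w (ph s)) -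
        (c * θ 0 * (∫ s, s * W s) / ∫ s, w (ph s)) ^ 2 = (c ^ 2 * V) * (θ 0) ^ 2 := by
      rw [hV]
      simp only [hW]
      ring
    rw [e3, hcV, one_mul]
  · rintro f hf ⟨B, hB⟩ ⟨L, hL⟩
    have hL0 : 0 ≤ L := (norm_nonneg _).trans (hL 0)
    set F : ℝ → ℝ := fun s => f (s • (c • ph 1)) with hF
    have hFS : ∀ s, f (S (ph s)) = F s := by
      intro s
      rw [hS, ph_smul s, smul_comm]
    have hFC : ContDiff ℝ 1 F := hf.comp (contDiff_id.smul contDiff_const)
    have hder : ∀ s, HasDerivAt F (fderiv ℝ f (s • (c • ph 1)) (c • ph 1)) s := by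
      intro s
      have h1 : HasDerivAt (fun s : ℝ => s • (c • ph 1)) ((1 : ℝ) • (c • ph 1)) s :=
        (hasDerivAt_id s).smul_const _
      rw [one_smul] at h1
      exact ((hf.differentiable one_ne_zero) _).hasFDerivAt.comp_hasDerivAt s h1
    have hn1 : ‖c • ph 1‖ = c := by
      rw [norm_smul, ph_norm, abs_one, mul_one, Real.norm_eq_abs, abs_of_pos hc0]
    have hdb : ∀ s, |deriv F s| ≤ c * ‖fderiv ℝ f (S (ph s))‖ := by
      intro s
      have e : S (ph s) = s • (c • ph 1) := by
        rw [hS, ph_smul s, smul_comm]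
      rw [(hder s).deriv, e, ← Real.norm_eq_abs, mul_comm]
      have := (fderiv ℝ f (s • (c • ph 1))).le_opNorm (c • ph 1)
      rw [hn1] at this
      exact this
    have hdL : ∀ s, |deriv F s| ≤ c * L := fun s =>
      (hdb s).trans (mul_le_mul_of_nonneg_left (hL _) hc0.le)
    have hl := line hW0 hWm hWi hW2 hpos hLL hFC (fun s => hB _) hdL hV hV0
    rw [VW, ph_EW, ph_EW, ph_EW]
    simp only [hFS]
    refine hl.trans ?_
    have hG : Integrable (fun s => ‖fderiv ℝ f (S (ph s))‖ ^ 2 * W s) := by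
      have hm : Measurable (fun s => ‖fderiv ℝ f (S (ph s))‖ ^ 2) := by
        have hcont : Continuous (fun s => ‖fderiv ℝ f (S (ph s))‖ ^ 2) := by
          have h1 : Continuous ph := by
            have : ph = fun s => s • ph 1 := by
              funext s
              exact ph_smul s
            rw [this]
            exact continuous_id.smul continuous_const
          exact (((hf.continuous_fderiv one_ne_zero).comp (S.continuous.comp h1)).norm).pow 2
        exact hcont.measurable
      refine Integrable.mono' (hWi.const_mul (L ^ 2)) (hm.mul hWm).aestronglyMeasurable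
        (Eventually.of_forall fun s => ?_)
      rw [Real.norm_eq_abs, abs_of_nonneg (mul_nonneg (sq_nonneg _) (hW0 s))]
      exact mul_le_mul_of_nonneg_right (pow_le_pow_left₀ (norm_nonneg _) (hL _) 2) (hW0 s)
    have hD : Integrable (fun s => deriv F s ^ 2 * W s) := by
      refine Integrable.mono' (hWi.const_mul ((c * L) ^ 2))
        ((((hFC.continuous_deriv le_rfl).pow 2).measurable).mul hWm).aestronglyMeasurable
        (Eventually.of_forall fun s => ?_)
      rw [Real.norm_eq_abs, abs_of_nonneg (mul_nonneg (sq_nonneg _) (hW0 s)), ← sq_abs]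
      exact mul_le_mul_of_nonneg_right (pow_le_pow_left₀ (abs_nonneg _) (hdL s) 2) (hW0 s)
    have hmono : ∫ s, deriv F s ^ 2 * W s ≤ c ^ 2 * ∫ s, ‖fderiv ℝ f (S (ph s))‖ ^ 2 * W s := by
      rw [← integral_const_mul]
      apply integral_mono hD (hG.const_mul _)
      intro s
      have h1 : deriv F s ^ 2 ≤ (c * ‖fderiv ℝ f (S (ph s))‖) ^ 2 := by
        rw [← sq_abs]
        exact pow_le_pow_left₀ (abs_nonneg _) (hdb s) 2
      have := mul_le_mul_of_nonneg_right h1 (hW0 s)
      simp only
      calc deriv F s ^ 2 * W s ≤ (c * ‖fderiv ℝ f (S (ph s))‖) ^ 2 * W s := this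
        _ = _ := by ring
    have h3 := div_le_div_of_nonneg_right hmono hpos.le
    have h4 := mul_le_mul_of_nonneg_left h3 (by positivity : 0 ≤ 256 * V)
    refine h4.trans (le_of_eq ?_)
    have e : 256 * V * (c ^ 2 * (∫ s, ‖fderiv ℝ f (S (ph s))‖ ^ 2 * W s) / ∫ s, W s) =
        256 * (c ^ 2 * V) * ((∫ s, ‖fderiv ℝ f (S (ph s))‖ ^ 2 * W s) / ∫ s, W s) := by ring
    rw [e, hcV, mul_one]

end Pool.Agent.R751.MB
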