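import Pool.Agent.R751.MB.Stm

/-!
# Project MB: powers of gauges
-/

set_option autoImplicit false

namespace Pool.Agent.R751.MB

open MeasureTheory Set Filter Topology
open scoped ENNReal InnerProductSpace Pointwise

variable {κ : Type} [Fintype κ]

/-- `p`-th powers of gauges: convex, positively homogeneous of degree `p`, positive away from `0` -/
structure Pow (p : ℝ) (Φ : Eu κ → ℝ) : Prop where
  conv : ConvexOn ℝ univ Φ
  hom : ∀ (r : ℝ) (x : Eu κ), 0 < r → Φ (r • x) = r ^ p * Φ x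
  pos : ∀ x, x ≠ 0 → 0 < Φ x

namespace Pow

variable {p : ℝ} {Φ : Eu κ → ℝ}

theorem cont (h : Pow p Φ) : Continuous Φ :=
  continuousOn_univ.1 (h.conv.continuousOn isOpen_univ)

theorem zero (h : Pow p Φ) (hp : 1 ≤ p) : Φ 0 = 0 := by
  have h1 := h.hom 2 0 two_pos
  rw [smul_zero] at h1
  have h2 : (2 : ℝ) ≤ 2 ^ p := by
    calc (2 : ℝ) = 2 ^ (1 : ℝ) := (Real.rpow_one 2).symm
      _ ≤ 2 ^ p := Real.rpow_le_rpow_of_exponent_le one_le_two hp
  have h3 : (2 ^ p - 1) * Φ 0 = 0 := by linarith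
  rcases mul_eq_zero.1 h3 with h4 | h4
  · linarith
  · exact h4

theorem nonneg (h : Pow p Φ) (hp : 1 ≤ p) (x : Eu κ) : 0 ≤ Φ x := by
  by_cases hx : x = 0
  · rw [hx, h.zero hp]
  · exact (h.pos x hx).le

/-- lower bound -/
theorem low (h : Pow p Φ) (hp : 1 ≤ p) : ∃ c : ℝ, 0 < c ∧ ∀ x, c * ‖x‖ ^ p ≤ Φ x := by
  by_cases hne : (Metric.sphere (0 : Eu κ) 1).Nonempty
  · obtain ⟨z, hz, hmin⟩ := (isCompact_sphere (0 : Eu κ) 1).exists_isMinOn hne h.cont.continuousOn
    have hz0 : z ≠ 0 := by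
      intro h0
      rw [h0, mem_sphere_zero_iff_norm, norm_zero] at hz
      exact zero_ne_one hz
    refine ⟨Φ z, h.pos z hz0, fun x => ?_⟩
    by_cases hx : x = 0
    · rw [hx, norm_zero, Real.zero_rpow (by linarith), mul_zero, h.zero hp]
    · have hn : 0 < ‖x‖ := norm_pos_iff.2 hx
      have h1 : ‖x‖⁻¹ • x ∈ Metric.sphere (0 : Eu κ) 1 := by
        rw [mem_sphere_zero_iff_norm, norm_smul, norm_inv, norm_norm, inv_mul_cancel₀ hn.ne']
      have h2 : Φ z ≤ Φ (‖x‖⁻¹ • x) := hmin h1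
      have h3 := h.hom ‖x‖ (‖x‖⁻¹ • x) hn
      rw [smul_smul, mul_inv_cancel₀ hn.ne', one_smul] at h3
      rw [h3, mul_comm]
      exact mul_le_mul_of_nonneg_left h2 (Real.rpow_nonneg hn.le _)
  · refine ⟨1, one_pos, fun x => ?_⟩
    have hx : x = 0 := by
      by_contra hx
      have hn : 0 < ‖x‖ := norm_pos_iff.2 hx
      exact hne ⟨‖x‖⁻¹ • x, by
        rw [mem_sphere_zero_iff_norm, norm_smul, norm_inv, norm_norm, inv_mul_cancel₀ hn.ne']⟩
    rw [hx, norm_zero, Real.zero_rpow (by linarith), mul_zero, h.zero hp]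

theorem bdd (h : Pow p Φ) (hp : 1 ≤ p) : Bornology.IsBounded {x | Φ x ≤ 1} := by
  obtain ⟨c, hc, hlow⟩ := h.low hp
  refine (Metric.isBounded_iff_subset_closedBall 0).2 ⟨(1 / c) ^ (1 / p), fun x hx => ?_⟩
  rw [mem_closedBall_zero_iff]
  have h1 : ‖x‖ ^ p ≤ 1 / c := by
    rw [le_div_iff₀ hc, mul_comm]
    exact (hlow x).trans hx
  have h2 : ‖x‖ = (‖x‖ ^ p) ^ (1 / p) := by
    rw [← Real.rpow_mul (norm_nonneg x), mul_one_div_cancel (by linarith), Real.rpow_one]
  rw [h2]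
  exact Real.rpow_le_rpow (Real.rpow_nonneg (norm_nonneg x) _) h1 (by positivity)

theorem body (h : Pow p Φ) (hp : 1 ≤ p) : Body {x | Φ x ≤ 1} := by
  refine ⟨Metric.isCompact_of_isClosed_isBounded (isClosed_le h.cont continuous_const) (h.bdd hp),
    ?_, ?_⟩
  · intro x hx y hy a b ha hb hab
    have h1 := h.conv.2 (mem_univ x) (mem_univ y) ha hb hab
    simp only [mem_ofPred_eq, smul_eq_mul] at h1 hx hy ⊢
    nlinarith
  · have h1 : IsOpen {x | Φ x < 1} := isOpen_lt h.cont continuous_const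
    have h2 : (0 : Eu κ) ∈ {x | Φ x < 1} := by
      show Φ 0 < 1
      rw [h.zero hp]
      exact one_pos
    have h3 : {x : Eu κ | Φ x < 1} ⊆ {x | Φ x ≤ 1} := fun x (hx : Φ x < 1) => hx.le
    exact ⟨0, interior_maximal h3 h1 h2⟩

theorem lcn (h : Pow p Φ) : LCn fun x => Real.exp (-Φ x) := by
  intro x y t ht0 ht1
  have h1 := h.conv.2 (mem_univ x) (mem_univ y) (by linarith : 0 ≤ 1 - t) ht0.le (by ring)
  rw [← Real.exp_mul, ← Real.exp_mul, ← Real.exp_add]
  refine Real.exp_le_exp.2 ?_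
  simp only [smul_eq_mul] at h1
  linarith

theorem adm (h : Pow p Φ) (hp : 1 ≤ p) : Adm fun x => Real.exp (-Φ x) := by
  obtain ⟨c, hc, hlow⟩ := h.low hp
  have hlin : ∀ x, c * ‖x‖ - c ≤ Φ x := by
    intro x
    refine le_trans ?_ (hlow x)
    have h1 : ‖x‖ - 1 ≤ ‖x‖ ^ p := by
      rcases le_total ‖x‖ 1 with h2 | h2
      · exact (sub_nonpos.2 h2).trans (Real.rpow_nonneg (norm_nonneg x) _)
      · have : ‖x‖ ^ (1 : ℝ) ≤ ‖x‖ ^ p := Real.rpow_le_rpow_of_exponent_le h2 hp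
        rw [Real.rpow_one] at this
        linarith
    nlinarith
  have hint : Integrable fun x : Eu κ => (1 + ‖x‖ ^ 2) * Real.exp (-Φ x) := by
    obtain ⟨d, hd⟩ : ∃ d : ℕ, d = Module.finrank ℝ (Eu κ) + 1 := ⟨_, rfl⟩
    have hi : Integrable fun x : Eu κ => (1 + ‖x‖) ^ (-(d : ℝ)) :=
      integrable_one_add_norm (by rw [hd]; push_cast; linarith)
    obtain ⟨M, hM⟩ : ∃ M : ℝ, ∀ t : ℝ, 0 ≤ t → (1 + t ^ 2) * Real.exp (-(c * t - c)) ≤
        M * (1 + t) ^ (-(d : ℝ)) := by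
      -- `(1 + t) ^ (d + 2) * exp (-c (1 + t))` is bounded
      refine ⟨Real.exp (2 * c) * ((d + 2).factorial / c ^ (d + 2)), fun t ht => ?_⟩
      have h1 : (c * (1 + t)) ^ (d + 2) / (d + 2).factorial ≤ Real.exp (c * (1 + t)) :=
        Real.pow_div_factorial_le_exp _ (by positivity) _
      have h2 : (1 + t) ^ (d + 2) * Real.exp (-(c * (1 + t))) ≤ (d + 2).factorial / c ^ (d + 2) := by
        rw [div_le_iff₀ (by positivity)] at h1
        rw [Real.exp_neg, le_div_iff₀ (by positivity)]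
        have e1 : (1 + t) ^ (d + 2) * (Real.exp (c * (1 + t)))⁻¹ * c ^ (d + 2) =
            (c * (1 + t)) ^ (d + 2) / Real.exp (c * (1 + t)) := by
          rw [mul_pow, div_eq_mul_inv]
          ring
        rw [e1, div_le_iff₀ (Real.exp_pos _)]
        linarith
      have h3 : Real.exp (-(c * t - c)) = Real.exp (2 * c) * Real.exp (-(c * (1 + t))) := by
        rw [← Real.exp_add]
        congr 1
        ring
      have h4 : (1 + t) ^ (-(d : ℝ)) = ((1 + t) ^ d)⁻¹ := by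
        rw [Real.rpow_neg (by positivity), Real.rpow_natCast]
      have h5 : 1 + t ^ 2 ≤ (1 + t) ^ 2 := by nlinarith
      rw [h3, h4]
      have h6 : (1 + t ^ 2) * Real.exp (-(c * (1 + t))) ≤
          (d + 2).factorial / c ^ (d + 2) * ((1 + t) ^ d)⁻¹ := by
        rw [← div_eq_mul_inv, le_div_iff₀ (by positivity)]
        calc (1 + t ^ 2) * Real.exp (-(c * (1 + t))) * (1 + t) ^ d
            ≤ (1 + t) ^ 2 * Real.exp (-(c * (1 + t))) * (1 + t) ^ d := by gcongr
          _ = (1 + t) ^ (d + 2) * Real.exp (-(c * (1 + t))) := by ring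
          _ ≤ _ := h2
      calc (1 + t ^ 2) * (Real.exp (2 * c) * Real.exp (-(c * (1 + t))))
          = Real.exp (2 * c) * ((1 + t ^ 2) * Real.exp (-(c * (1 + t)))) := by ring
        _ ≤ Real.exp (2 * c) * ((d + 2).factorial / c ^ (d + 2) * ((1 + t) ^ d)⁻¹) :=
          mul_le_mul_of_nonneg_left h6 (Real.exp_pos _).le
        _ = _ := by ring
    refine Integrable.mono' (hi.const_mul M) ?_ (Eventually.of_forall fun x => ?_)
    · have := h.cont
      exact (by fun_prop : Continuous fun x : Eu κ => (1 + ‖x‖ ^ 2) * Real.exp (-Φ x)).aestronglyMeasurable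
    · rw [Real.norm_eq_abs, abs_of_nonneg (by positivity)]
      refine le_trans ?_ (hM ‖x‖ (norm_nonneg x))
      refine mul_le_mul_of_nonneg_left (Real.exp_le_exp.2 ?_) (by positivity)
      have := hlin x
      linarith
  have hint1 : Integrable fun x : Eu κ => Real.exp (-Φ x) := by
    refine Integrable.mono' hint ?_ (Eventually.of_forall fun x => ?_)
    · have := h.cont
      exact (by fun_prop : Continuous fun x : Eu κ => Real.exp (-Φ x)).aestronglyMeasurable
    · rw [Real.norm_eq_abs, abs_of_pos (Real.exp_pos _)]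
      nlinarith [sq_nonneg ‖x‖, Real.exp_pos (-Φ x)]
  refine ⟨fun x => (Real.exp_pos _).le, hint, ?_, ?_⟩
  · exact integral_exp_pos hint1
  · exact (Real.continuous_exp.comp h.cont.neg).measurable

end Pow

end Pool.Agent.R751.MB
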