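import Pool.Agent.R751.MB.Bw

/-!
# Project MB: block bodies given by norms
-/

set_option autoImplicit false

namespace Pool.Agent.R751.MB

open MeasureTheory Set Filter Topology
open scoped ENNReal InnerProductSpace Pointwise

/-- norms -/
structure Nrm {κ : Type} [Fintype κ] (N : Eu κ → ℝ) : Prop where
  add_le : ∀ x y, N (x + y) ≤ N x + N y
  smul : ∀ (r : ℝ) (x : Eu κ), N (r • x) = |r| * N x
  pos : ∀ x, x ≠ 0 → 0 < N x

theorem Nrm.pow {κ : Type} [Fintype κ] {N : Eu κ → ℝ} (h : Nrm N) : Pow 1 N := by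
  refine ⟨⟨convex_univ, fun x _ y _ a b ha hb hab => ?_⟩, fun r x hr => ?_, h.pos⟩
  · refine (h.add_le _ _).trans (le_of_eq ?_)
    rw [h.smul, h.smul, abs_of_nonneg ha, abs_of_nonneg hb]
    rfl
  · rw [h.smul, abs_of_pos hr, Real.rpow_one]

theorem Nrm.pow' {κ : Type} [Fintype κ] {N : Eu κ → ℝ} (h : Nrm N) {p : ℝ} (hp : 1 ≤ p) :
    Pow p fun x => N x ^ p := by
  have := h.pow.rpow le_rfl hp
  rwa [one_mul] at this

/-- the admissible norms -/
inductive AN : ∀ k : ℕ, (Eu (Fin k) → ℝ) → Prop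
  | sym (k : ℕ) (N : Eu (Fin k) → ℝ) : 1 ≤ k → Nrm N →
      (∀ σ : Equiv.Perm (Fin k), ∀ x y : Eu (Fin k), (∀ i, |y i| = |x (σ i)|) → N y = N x) → AN k N
  | mat (m l k : ℕ) (e : Mat m l ≃ₗ[ℝ] Eu (Fin k)) (N : Mat m l → ℝ) : 3 ≤ m → 1 ≤ l → l ≤ m →
      Nrm N → (∀ g ∈ Matrix.orthogonalGroup (Fin m) ℝ, ∀ X : Mat m l,
        N (WithLp.toLp 2 fun p => ∑ k, g p.1 k * X (k, p.2)) = N X) → AN k fun z => N (e.symm z)
  | her (𝕜 : Type) [RCLike 𝕜] (D : ℕ) (ι : Type) [Fintype ι]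
      (F : Eu ι →ₗ[ℝ] Matrix (Fin D) (Fin D) 𝕜) (k : ℕ) (e : Eu ι ≃ₗ[ℝ] Eu (Fin k))
      (N : Eu ι → ℝ) : 3 ≤ D → Frame F → Nrm N →
      (∀ U ∈ Matrix.unitaryGroup (Fin D) 𝕜, ∀ x y : Eu ι,
        F y = U * F x * U.conjTranspose → N y = N x) → AN k fun z => N (e.symm z)

theorem Nrm.lin {κ₁ κ₂ : Type} [Fintype κ₁] [Fintype κ₂] {N : Eu κ₁ → ℝ} (h : Nrm N)
    (e : Eu κ₁ ≃ₗ[ℝ] Eu κ₂) : Nrm fun z => N (e.symm z) := by
  refine ⟨fun x y => ?_, fun r x => ?_, fun x hx => ?_⟩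
  · simp only [map_add]
    exact h.add_le _ _
  · simp only [map_smul]
    exact h.smul _ _
  · exact h.pos _ fun h0 => hx (by
      have := congrArg e h0
      rwa [e.apply_symm_apply, map_zero] at this)

theorem AN.basic {k : ℕ} {N : Eu (Fin k) → ℝ} (h : AN k N) : Nrm N ∧ 1 ≤ k := by
  cases h with
  | sym _ _ hk hN _ => exact ⟨hN, hk⟩
  | mat m l _ e N hm hl hlm hN hinv =>
    refine ⟨hN.lin e, ?_⟩
    have h1 := e.finrank_eq
    simp at h1
    rw [← h1]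
    exact Nat.mul_pos (by omega) hl
  | her 𝕜 D ι F _ e N hD hF hN hinv =>
    refine ⟨hN.lin e, ?_⟩
    rcases Nat.eq_zero_or_pos k with rfl | hn
    · exfalso
      have hs : Subsingleton (Eu ι) := e.toEquiv.subsingleton
      obtain ⟨x, hx⟩ := hF.surj 1 Matrix.conjTranspose_one
      rw [Subsingleton.elim x 0, map_zero] at hx
      have h2 := congrFun (congrFun hx ⟨0, by omega⟩) ⟨0, by omega⟩
      simp at h2
    · exact hn

theorem AN.blk {k : ℕ} {N : Eu (Fin k) → ℝ} (h : AN k N) {p : ℝ} (hp : 1 ≤ p) :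
    Blk p k fun x => N x ^ p := by
  cases h with
  | sym _ _ hk hN hinv => exact .sym _ _ hk (hN.pow' hp) fun σ x y hxy => by rw [hinv σ x y hxy]
  | mat m l _ e N hm hl hlm hN hinv =>
    exact .mat m l k e (fun X => N X ^ p) hm hl hlm (hN.pow' hp) fun g hg X => by
      simp only [hinv g hg X]
  | her 𝕜 D ι F _ e N hD hF hN hinv =>
    exact .her 𝕜 D ι F k e (fun X => N X ^ p) hD hF (hN.pow' hp)
      (fun x => by
        have h1 := hN.smul (-1) x
        rw [neg_one_smul, abs_neg, abs_one, one_mul] at h1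
        simp only [h1]) fun U hU x y hxy => by simp only [hinv U hU x y hxy]

/-- `{x | ∑_{i ∉ J} N_i(x_i)^(p_i) ≤ 1, N_j(x_j) ≤ 1 for j ∈ J}` -/
def BN {n : ℕ} (K : Set (Eu (Fin n))) : Prop :=
  ∃ (M : ℕ) (k : Fin M → ℕ) (L : Eu (Fin n) ≃ₗ[ℝ] (∀ i, Eu (Fin (k i)))) (p : Fin M → ℝ)
    (N : ∀ i, Eu (Fin (k i)) → ℝ) (J : Finset (Fin M)), (∀ i, 1 ≤ p i) ∧
    (∀ i, AN (k i) (N i)) ∧
    K = {x | ∑ i ∈ Finset.univ \ J, N i (L x i) ^ p i ≤ 1 ∧ ∀ i ∈ J, N i (L x i) ≤ 1}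

theorem BN.bw {n : ℕ} {K : Set (Eu (Fin n))} (h : BN K) : BW K := by
  obtain ⟨M, k, L, p, N, J, hp, hN, rfl⟩ := h
  refine ⟨M, k, L.symm, fun i => if i ∈ J then 1 else p i,
    fun i x => N i x ^ (if i ∈ J then 1 else p i : ℝ), J, fun i => ?_, fun i => ?_, ?_⟩
  · by_cases hi : i ∈ J
    · simp only [hi, if_true, le_refl]
    · simp only [hi, if_false]
      exact hp i
  · refine (hN i).blk ?_
    by_cases hi : i ∈ J
    · simp only [hi, if_true, le_refl]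
    · simp only [hi, if_false]
      exact hp i
  · ext x
    unfold wall
    simp only [mem_ofPred_eq, LinearEquiv.symm_symm]
    have h1 : ∑ i ∈ Finset.univ \ J, N i (L x i) ^ (if i ∈ J then 1 else p i : ℝ) =
        ∑ i ∈ Finset.univ \ J, N i (L x i) ^ p i := by
      refine Finset.sum_congr rfl fun i hi => ?_
      rw [if_neg (Finset.mem_sdiff.1 hi).2]
    rw [h1]
    refine and_congr_right fun _ => forall_congr' fun i => ?_
    refine forall_congr' fun hi => ?_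
    rw [if_pos hi, Real.rpow_one]

/-- the norm of `ℓ_q` -/
theorem nrm_lq {k : ℕ} {q : ℝ} (hq : 1 ≤ q) :
    Nrm fun x : Eu (Fin k) => (∑ j, |x j| ^ q) ^ (1 / q) := by
  have hq0 : 0 < q := by linarith
  refine ⟨fun x y => ?_, fun r x => ?_, fun x hx => ?_⟩
  · exact Real.Lp_add_le Finset.univ (fun j => x j) (fun j => y j) hq
  · have h1 : ∑ j, |(r • x) j| ^ q = |r| ^ q * ∑ j, |x j| ^ q := by
      rw [Finset.mul_sum]
      refine Finset.sum_congr rfl fun j _ => ?_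
      rw [PiLp.smul_apply, smul_eq_mul, abs_mul, Real.mul_rpow (abs_nonneg _) (abs_nonneg _)]
    rw [h1, Real.mul_rpow (Real.rpow_nonneg (abs_nonneg _) _)
      (Finset.sum_nonneg fun j _ => Real.rpow_nonneg (abs_nonneg _) _), ← Real.rpow_mul
      (abs_nonneg _), mul_one_div_cancel hq0.ne', Real.rpow_one]
  · obtain ⟨j, hj⟩ : ∃ j, x j ≠ 0 := by
      by_contra hne
      push Not at hne
      exact hx (by ext j; exact hne j)
    refine Real.rpow_pos_of_pos (lt_of_lt_of_le (Real.rpow_pos_of_pos (abs_pos.2 hj) q) ?_) _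
    exact Finset.single_le_sum (f := fun j => |x j| ^ q)
      (fun j _ => Real.rpow_nonneg (abs_nonneg _) _) (Finset.mem_univ j)

theorem an_lq {k : ℕ} (hk : 1 ≤ k) {q : ℝ} (hq : 1 ≤ q) :
    AN k fun x : Eu (Fin k) => (∑ j, |x j| ^ q) ^ (1 / q) := by
  refine .sym k _ hk (nrm_lq hq) fun σ x y hxy => ?_
  congr 1
  rw [← Equiv.sum_comp σ fun j => |x j| ^ q]
  exact Finset.sum_congr rfl fun j _ => by rw [hxy j]

end Pool.Agent.R751.MB
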