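import Mathlib

/-!
# Project MB (KLS for block sums and composite bodies): statements

Problems `MP_dc1397_gt`, `MP_6d896a_gt`, `MP_8d00da_gt`. The definitions `EW`, `VW`, `Adm`, `CcW`,
`ind`, `LCn` are, for `κ = Fin n`, literally the same as those of `Pool.Agent.Y506.RG` and
`Pool.Agent.Y506.PV` (so that one passes from one to the other by `Iff.rfl`, `rfl`).
-/

set_option autoImplicit false

namespace Pool.Agent.R751.MB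

open MeasureTheory Set Filter Topology
open scoped ENNReal InnerProductSpace Pointwise

/-- Euclidean space with coordinates indexed by `κ` -/
abbrev Eu (κ : Type) : Type := EuclideanSpace ℝ κ

/-- mean with weight `w` -/
noncomputable def EW {κ : Type} [Fintype κ] (w v : Eu κ → ℝ) : ℝ := (∫ x, v x * w x) / ∫ x, w x

/-- variance with weight `w` -/
noncomputable def VW {κ : Type} [Fintype κ] (w v : Eu κ → ℝ) : ℝ :=
  EW w (fun x => v x ^ 2) - EW w v ^ 2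

/-- admissible weights -/
structure Adm {κ : Type} [Fintype κ] (w : Eu κ → ℝ) : Prop where
  nonneg : ∀ x, 0 ≤ w x
  int : Integrable fun x => (1 + ‖x‖ ^ 2) * w x
  pos : 0 < ∫ x, w x
  meas : Measurable w

/-- log-concave weights -/
def LCn {κ : Type} [Fintype κ] (w : Eu κ → ℝ) : Prop := ∀ x y, ∀ t : ℝ, 0 < t → t < 1 →
  w x ^ (1 - t) * w y ^ t ≤ w ((1 - t) • x + t • y)

/-- concentration of Lipschitz functions for linear images of the measure with density `w` -/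
def CcW {n : ℕ} (κ δ : ℝ) (w : Eu (Fin n) → ℝ) : Prop :=
  ∀ k : ℕ, k ≤ n → ∀ (T : Eu (Fin n) →ₗ[ℝ] Eu (Fin k)) (s : ℝ), 0 < s →
  (∀ θ : Eu (Fin k), ‖θ‖ = 1 → VW w (fun x => ⟪T x, θ⟫_ℝ) ≤ s) →
  ∀ v : Eu (Fin k) → ℝ, ContDiff ℝ 1 v → (∀ y, |v y| ≤ 1) →
  (∀ y, ‖fderiv ℝ v y‖ ≤ κ / Real.sqrt s) → VW w (fun x => v (T x)) ≤ δ

/-- indicator function of a set, as a weight -/
noncomputable def ind {n : ℕ} (K : Set (Eu (Fin n))) : Eu (Fin n) → ℝ := K.indicator fun _ => 1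

/-- convex bodies -/
structure Body {κ : Type} [Fintype κ] (K : Set (Eu κ)) : Prop where
  comp : IsCompact K
  conv : Convex ℝ K
  int : (interior K).Nonempty

/-- the Poincare inequality with constant `A` in isotropic position, for bounded `C¹` functions with
bounded derivatives -/
structure AP {κ : Type} [Fintype κ] (A : ℝ) (w : Eu κ → ℝ) : Prop where
  adm : Adm w
  poi : ∃ S : Eu κ ≃L[ℝ] Eu κ, (∀ θ, VW w (fun x => ⟪S x, θ⟫_ℝ) = ‖θ‖ ^ 2) ∧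
    ∀ f : Eu κ → ℝ, ContDiff ℝ 1 f → (∃ B : ℝ, ∀ x, |f x| ≤ B) →
      (∃ L : ℝ, ∀ x, ‖fderiv ℝ f x‖ ≤ L) →
      VW w (fun x => f (S x)) ≤ A * EW w fun x => ‖fderiv ℝ f (S x)‖ ^ 2

/-! ### general facts -/

/-- MB-WHT: a whitening map which commutes with all isometries which preserve the weight -/
def S_WHT : Prop := ∀ (κ : Type) [Fintype κ] (w : Eu κ → ℝ), Adm w → ∃ S : Eu κ ≃L[ℝ] Eu κ,
  (∀ θ, VW w (fun x => ⟪S x, θ⟫_ℝ) = ‖θ‖ ^ 2) ∧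
  ∀ g : Eu κ ≃ₗᵢ[ℝ] Eu κ, (∀ x, w (g x) = w x) → ∀ x, S (g x) = g (S x)

/-- MB-TEN: products -/
def S_TEN : Prop := ∀ (κ₁ κ₂ κ₃ : Type) [Fintype κ₁] [Fintype κ₂] [Fintype κ₃] (A : ℝ)
  (e : (Eu κ₁ × Eu κ₂) ≃ₗ[ℝ] Eu κ₃) (w : Eu κ₁ → ℝ) (u : Eu κ₂ → ℝ), 0 ≤ A → AP A w → AP A u →
  AP A fun z => w (e.symm z).1 * u (e.symm z).2

/-- MB-LIN: linear changes of variables -/
def S_LIN : Prop := ∀ (κ₁ κ₂ : Type) [Fintype κ₁] [Fintype κ₂] (A : ℝ) (e : Eu κ₁ ≃ₗ[ℝ] Eu κ₂)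
  (w : Eu κ₁ → ℝ), AP A w → AP A fun z => w (e.symm z)

/-- MB-APC: the Poincare inequality gives concentration -/
def S_APC : Prop := ∀ A δ : ℝ, 0 < A → 0 < δ → ∃ κ : ℝ, 0 < κ ∧ ∀ (n : ℕ) (w : Eu (Fin n) → ℝ),
  AP A w → CcW κ δ w

/-- MB-GEN: the probability measure in isotropic position -/
def S_GEN : Prop := ∀ (κ : Type) [Fintype κ] (w : Eu κ → ℝ), Adm w → ∀ S : Eu κ ≃L[ℝ] Eu κ,
  (∀ θ, VW w (fun x => ⟪S x, θ⟫_ℝ) = ‖θ‖ ^ 2) → ∃ c : ℝ, 0 < c ∧ ∀ μ : Measure (Eu κ),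
  μ = volume.withDensity (fun y => ENNReal.ofReal (c * w (S.symm y))) →
  IsProbabilityMeasure μ ∧
  (∀ θ : Eu κ, ProbabilityTheory.evariance (fun x => ⟪θ, x⟫_ℝ) μ ≤ ENNReal.ofReal (1 * ‖θ‖ ^ 2)) ∧
  ∀ f : Eu κ → ℝ, ContDiff ℝ 1 f → (∃ B : ℝ, ∀ x, |f x| ≤ B) →
    (∃ L : ℝ, ∀ x, ‖fderiv ℝ f x‖ ≤ L) → MemLp f 2 μ ∧
    ProbabilityTheory.variance f μ = VW w (fun x => f (S x)) ∧
    ∫⁻ x, ENNReal.ofReal (‖fderiv ℝ f x‖ ^ 2) ∂μ =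
      ENNReal.ofReal (EW w fun x => ‖fderiv ℝ f (S x)‖ ^ 2)

/-! ### the blocks -/

/-- MB-ONE: dimension one -/
def S_ONE : Prop := ∃ A : ℝ, 0 < A ∧ ∀ w : Eu (Fin 1) → ℝ, Adm w → LCn w → AP A w

/-- MB-SYM: invariance under permutations and sign changes of the coordinates -/
def S_SYM : Prop := ∃ A : ℝ, 0 < A ∧ ∀ (n : ℕ) (w : Eu (Fin n) → ℝ), 1 ≤ n → Adm w → LCn w →
  (∀ σ : Equiv.Perm (Fin n), ∀ x y : Eu (Fin n), (∀ i, |y i| = |x (σ i)|) → w y = w x) → AP A w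

/-- real `m × l` matrices, with the Euclidean (Hilbert-Schmidt) structure -/
abbrev Mat (m l : ℕ) : Type := Eu (Fin m × Fin l)

/-- MB-MAT: functions of `m × l` matrices which are invariant under the multiplication from the
left by orthogonal matrices, `l ≤ m`, `3 ≤ m` -/
def S_MAT : Prop := ∃ A : ℝ, 0 < A ∧ ∀ (m l : ℕ) (w : Mat m l → ℝ), 3 ≤ m → 1 ≤ l → l ≤ m →
  Adm w → LCn w → (∀ g ∈ Matrix.orthogonalGroup (Fin m) ℝ, ∀ X : Mat m l,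
    w (WithLp.toLp 2 fun p => ∑ k, g p.1 k * X (k, p.2)) = w X) → AP A w

/-- `Φ` is a linear isometric parametrisation of the Hermitian `N × N` matrices over `𝕜` -/
structure Frame {𝕜 : Type} [RCLike 𝕜] {N : ℕ} {ι : Type} [Fintype ι]
    (Φ : Eu ι →ₗ[ℝ] Matrix (Fin N) (Fin N) 𝕜) : Prop where
  herm : ∀ x, (Φ x).conjTranspose = Φ x
  surj : ∀ A : Matrix (Fin N) (Fin N) 𝕜, A.conjTranspose = A → ∃ x, Φ x = A
  iso : ∀ x, ∑ i, ∑ j, ‖Φ x i j‖ ^ 2 = ‖x‖ ^ 2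

/-- MB-HER: functions of a Hermitian matrix which are invariant under conjugation by unitary
matrices -/
def S_HER : Prop := ∃ A : ℝ, 0 < A ∧ ∀ (𝕜 : Type) [RCLike 𝕜] (N : ℕ), 3 ≤ N → ∀ (ι : Type)
  [Fintype ι] (Φ : Eu ι →ₗ[ℝ] Matrix (Fin N) (Fin N) 𝕜), Frame Φ → ∀ w : Eu ι → ℝ, Adm w →
  LCn w → (∀ U ∈ Matrix.unitaryGroup (Fin N) 𝕜, ∀ x y : Eu ι,
    Φ y = U * Φ x * U.conjTranspose → w y = w x) → AP A w

/-! ### closure properties of the concentration property -/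

/-- MB-PRD: products -/
def S_PRD : Prop := ∀ (κ δ δ' : ℝ) (a b n : ℕ) (e : (Eu (Fin a) × Eu (Fin b)) ≃ₗ[ℝ] Eu (Fin n))
  (K : Set (Eu (Fin a))) (L : Set (Eu (Fin b))), Body K → Body L → CcW κ δ (ind K) →
  CcW κ δ' (ind L) → CcW κ (δ + δ') (ind (e '' (K ×ˢ L)))

/-- MB-PRB: products of `b` bodies -/
def S_PRB : Prop := ∀ (b : ℕ) (κ δ : ℝ) (n : ℕ) (m : Fin b → ℕ)
  (e : (∀ i, Eu (Fin (m i))) ≃ₗ[ℝ] Eu (Fin n)) (K : ∀ i, Set (Eu (Fin (m i)))), 0 ≤ δ →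
  (∀ i, Body (K i)) → (∀ i, CcW κ δ (ind (K i))) → CcW κ (b * δ) (ind (e '' univ.pi K))

/-- unconditional convex bodies -/
structure UBody {b : ℕ} (D : Set (Eu (Fin b))) : Prop extends Body D where
  unc : ∀ t ∈ D, ∀ s : Eu (Fin b), (∀ i, |s i| ≤ |t i|) → s ∈ D

/-- the `D`-sum `{x | (‖x_i‖_{K_i})_i ∈ D}` of the symmetric bodies `K_i` -/
def dsum {b : ℕ} {m : Fin b → ℕ} (D : Set (Eu (Fin b))) (K : ∀ i, Set (Eu (Fin (m i)))) :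
    Set (∀ i, Eu (Fin (m i))) := {x | ∃ t ∈ D, ∀ i, x i ∈ t i • K i}

/-- MB-FSU: unconditional sums of boundedly many symmetric bodies -/
def S_FSU : Prop := ∀ (b : ℕ) (δ : ℝ), 0 < δ → ∃ δ0 : ℝ, 0 < δ0 ∧ ∀ κ0 : ℝ, 0 < κ0 →
  ∃ κ : ℝ, 0 < κ ∧ ∀ (n : ℕ) (m : Fin b → ℕ) (e : (∀ i, Eu (Fin (m i))) ≃ₗ[ℝ] Eu (Fin n))
  (D : Set (Eu (Fin b))) (K : ∀ i, Set (Eu (Fin (m i)))), (∀ i, 1 ≤ m i) → UBody D →
  (∀ i, Body (K i)) → (∀ i, ∀ x ∈ K i, -x ∈ K i) → (∀ i, CcW κ0 δ0 (ind (K i))) →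
  CcW κ δ (ind (e '' dsum D K))

/-! ### permutation invariant bodies -/

/-- configurations of `N` particles in `ℝ^d` -/
abbrev Conf (N d : ℕ) : Type := Eu (Fin N × Fin d)

/-- MB-PAR: bodies which do not change when particles of the same species are permuted -/
def S_PAR : Prop := ∀ (d q : ℕ) (δ : ℝ), 0 < δ → 1 ≤ d → ∃ κ : ℝ, 0 < κ ∧
  ∀ (N n : ℕ) (b : Fin N → Fin q) (e : Conf N d ≃ₗ[ℝ] Eu (Fin n)) (K : Set (Conf N d)), 1 ≤ N →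
  Function.Surjective b → Body K →
  (∀ σ : Equiv.Perm (Fin N), (∀ i, b (σ i) = b i) → ∀ x y : Conf N d,
    (∀ i α, y (i, α) = x (σ i, α)) → x ∈ K → y ∈ K) → CcW κ δ (ind (e '' K))

end Pool.Agent.R751.MB
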